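import Mathlib

set_option autoImplicit false

/-!
Plane drawings by arcs, and plane drawings from two-page book embeddings.
-/

namespace Pool.Agent.Helper531_Thick

/-- The graph has a plane drawing by arcs: distinct points for the vertices, injective
continuous arcs for the edges, whose interiors contain no vertex and are pairwise disjoint. -/
def IsPlane {W : Type} (G : SimpleGraph W) : Prop :=
  ∃ p : W → ℝ × ℝ, Function.Injective p ∧
    ∃ γ : W → W → unitInterval → ℝ × ℝ,
      (∀ u v, G.Adj u v → Continuous (γ u v) ∧ Function.Injective (γ u v) ∧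
        γ u v 0 = p u ∧ γ u v 1 = p v ∧
        ∀ t : unitInterval, t ≠ 0 → t ≠ 1 → ∀ w, γ u v t ≠ p w) ∧
      (∀ u v u' v', G.Adj u v → G.Adj u' v' →
        ∀ t t' : unitInterval, t ≠ 0 → t ≠ 1 → t' ≠ 0 → t' ≠ 1 →
          γ u v t = γ u' v' t' → (u = u' ∧ v = v') ∨ (u = v' ∧ v = u'))

lemma key_lt {a b c d X : ℝ} (_ : a < X) (h2 : X < b) (h3 : c < X) (_ : X < d)
    (h : (X - a) * (b - X) = (X - c) * (d - X)) (hac : a < c) : b < d := by
  by_contra hbd
  push Not at hbd
  have h5 : (X - c) * (d - X) < (X - a) * (b - X) := by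
    have : (X - c) * (d - X) ≤ (X - c) * (b - X) :=
      mul_le_mul_of_nonneg_left (by linarith) (by linarith)
    have : (X - c) * (b - X) < (X - a) * (b - X) :=
      mul_lt_mul_of_pos_right (by linarith) (by linarith)
    linarith
  linarith

/-- Drawing from a two-page book embedding: the vertices on the horizontal axis, the edges as
parabolic arcs above or below the axis. -/
theorem isPlane_of_book {W : Type} (G : SimpleGraph W) (x : W → ℝ) (hx : Function.Injective x)
    (σ : W → W → ℝ) (hσ : ∀ u v, σ u v = 1 ∨ σ u v = -1) (hsym : ∀ u v, σ u v = σ v u)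
    (hnc : ∀ u v u' v', G.Adj u v → G.Adj u' v' → σ u v = σ u' v' →
      ¬ (x u < x u' ∧ x u' < x v ∧ x v < x v')) : IsPlane G := by
  have hne : ∀ u v, G.Adj u v → x u ≠ x v := fun u v h h' => h.ne (hx h')
  have ht0 : ∀ t : unitInterval, t ≠ 0 → 0 < (t : ℝ) := fun t ht =>
    lt_of_le_of_ne t.2.1 (fun h => ht (Subtype.ext h.symm))
  have ht1 : ∀ t : unitInterval, t ≠ 1 → (t : ℝ) < 1 := fun t ht =>
    lt_of_le_of_ne t.2.2 (fun h => ht (Subtype.ext h))
  refine ⟨fun w => (x w, 0), fun u v h => hx (congrArg Prod.fst h),
    fun u v t => (x u + t * (x v - x u), σ u v * (t * (1 - t) * (x v - x u) ^ 2)), ?_, ?_⟩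
  · intro u v huv
    have hd : x v - x u ≠ 0 := sub_ne_zero.2 (hne u v huv).symm
    refine ⟨by fun_prop, ?_, ?_, ?_, ?_⟩
    · intro t t' h
      have h1 := congrArg Prod.fst h
      simp only at h1
      have h2 : (t : ℝ) * (x v - x u) = t' * (x v - x u) := by linarith
      exact Subtype.ext (mul_right_cancel₀ hd h2)
    · simp
    · simp
    · intro t h0 h1 w h
      have h2 := congrArg Prod.snd h
      simp only at h2
      have h3 := ht0 t h0
      have h4 := ht1 t h1
      have h5 : (0:ℝ) < t * (1 - t) * (x v - x u) ^ 2 := by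
        have : 0 < (x v - x u) ^ 2 := by positivity
        have : (0:ℝ) < 1 - t := by linarith
        positivity
      rcases hσ u v with h6 | h6 <;> rw [h6] at h2 <;> linarith
  · intro u v u' v' huv huv' t t' h0 h1 h0' h1' h
    have e1 := congrArg Prod.fst h
    have e2 := congrArg Prod.snd h
    simp only at e1 e2
    have a0 := ht0 t h0
    have a1 := ht1 t h1
    have a0' := ht0 t' h0'
    have a1' := ht1 t' h1'
    set X := x u + t * (x v - x u) with hX
    have g1 : (t : ℝ) * (1 - t) * (x v - x u) ^ 2 = (X - x u) * (x v - X) := by rw [hX]; ring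
    have g2 : (t' : ℝ) * (1 - t') * (x v' - x u') ^ 2 = (X - x u') * (x v' - X) := by
      rw [e1]; ring
    have p1 : (0:ℝ) < (X - x u) * (x v - X) := by
      rw [← g1]
      have h2 : x v - x u ≠ 0 := sub_ne_zero.2 (hne u v huv).symm
      have : 0 < (x v - x u) ^ 2 := by positivity
      have : (0:ℝ) < 1 - t := by linarith
      positivity
    have p2 : (0:ℝ) < (X - x u') * (x v' - X) := by
      rw [← g2]
      have h2 : x v' - x u' ≠ 0 := sub_ne_zero.2 (hne u' v' huv').symm
      have : 0 < (x v' - x u') ^ 2 := by positivity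
      have : (0:ℝ) < 1 - t' := by linarith
      positivity
    rw [g1, g2] at e2
    have hs : σ u v = σ u' v' := by
      rcases hσ u v with h6 | h6 <;> rcases hσ u' v' with h7 | h7 <;> rw [h6, h7] at e2 ⊢ <;>
        exfalso <;> nlinarith
    have e3 : (X - x u) * (x v - X) = (X - x u') * (x v' - X) := by
      rw [hs] at e2
      rcases hσ u' v' with h7 | h7 <;> rw [h7] at e2 <;> linarith
    -- reduce to ordered ends
    have main : ∀ a b c d : W, G.Adj a b → G.Adj c d → σ a b = σ c d → x a < X → X < x b →
        x c < X → X < x d → (X - x a) * (x b - X) = (X - x c) * (x d - X) → a = c ∧ b = d := by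
      intro a b c d hab hcd hs' q1 q2 q3 q4 q5
      rcases lt_trichotomy (x a) (x c) with q | q | q
      · exact absurd ⟨q, by linarith, key_lt q1 q2 q3 q4 q5 q⟩ (hnc a b c d hab hcd hs')
      · refine ⟨hx q, hx ?_⟩
        rw [q] at q5
        have : X - x c ≠ 0 := by linarith
        have := mul_left_cancel₀ this q5
        linarith
      · exact absurd ⟨q, by linarith, key_lt q3 q4 q1 q2 q5.symm q⟩
          (hnc c d a b hcd hab hs'.symm)
    have ord1 : (x u < X ∧ X < x v) ∨ (x v < X ∧ X < x u) := by
      rcases mul_pos_iff.1 p1 with ⟨q1, q2⟩ | ⟨q1, q2⟩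
      · left; constructor <;> linarith
      · right; constructor <;> linarith
    have ord2 : (x u' < X ∧ X < x v') ∨ (x v' < X ∧ X < x u') := by
      rcases mul_pos_iff.1 p2 with ⟨q1, q2⟩ | ⟨q1, q2⟩
      · left; constructor <;> linarith
      · right; constructor <;> linarith
    rcases ord1 with ⟨q1, q2⟩ | ⟨q1, q2⟩ <;> rcases ord2 with ⟨q3, q4⟩ | ⟨q3, q4⟩
    · left; exact main u v u' v' huv huv' hs q1 q2 q3 q4 e3
    · right
      exact main u v v' u' huv huv'.symm (by rw [hs, hsym]) q1 q2 q3 q4 (by rw [e3]; ring)
    · right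
      have := main v u u' v' huv.symm huv' (by rw [hsym, hs]) q1 q2 q3 q4 (by rw [← e3]; ring)
      exact ⟨this.2, this.1⟩
    · left
      have := main v u v' u' huv.symm huv'.symm (by rw [hsym, hs, hsym]) q1 q2 q3 q4
        (by rw [show (X - x v) * (x u - X) = (X - x u) * (x v - X) by ring, e3]; ring)
      exact ⟨this.2, this.1⟩

/-- Two-page book embedding with keys in a linear order: every page is a set of pairs
(left end, right end), two of which do not interlace. -/
theorem isPlane_of_pages {W L : Type} [Fintype W] [LinearOrder L] (key : W → L)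
    (hk : Function.Injective key) (Up Lo : W → W → Prop)
    (hU : ∀ a b, Up a b → key a < key b) (hL : ∀ a b, Lo a b → key a < key b)
    (ncU : ∀ a b c d, Up a b → Up c d → ¬ (key a < key c ∧ key c < key b ∧ key b < key d))
    (ncL : ∀ a b c d, Lo a b → Lo c d → ¬ (key a < key c ∧ key c < key b ∧ key b < key d))
    (H : SimpleGraph W) (hH : ∀ a b, H.Adj a b → Up a b ∨ Up b a ∨ Lo a b ∨ Lo b a) :
    IsPlane H := by
  classical
  set x : W → ℝ := fun w => ((Finset.univ.filter (fun w' => key w' < key w)).card : ℝ) with hxdef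
  have hlt : ∀ v w, key v < key w → x v < x w := by
    intro v w h
    simp only [hxdef, Nat.cast_lt]
    apply Finset.card_lt_card
    rw [Finset.ssubset_iff_of_subset]
    · exact ⟨v, by simp [h], by simp⟩
    · intro a ha
      simp only [Finset.mem_filter, Finset.mem_univ, true_and] at ha ⊢
      exact ha.trans h
  have hiff : ∀ v w, x v < x w ↔ key v < key w := by
    intro v w
    refine ⟨fun h => ?_, hlt v w⟩
    rcases lt_trichotomy (key v) (key w) with h1 | h1 | h1
    · exact h1
    · rw [hk h1] at h; exact absurd h (lt_irrefl _)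
    · exact absurd (hlt w v h1) (not_lt.2 h.le)
  have hinj : Function.Injective x := by
    intro v w h
    rcases lt_trichotomy (key v) (key w) with h1 | h1 | h1
    · have := hlt v w h1; rw [h] at this; exact absurd this (lt_irrefl _)
    · exact hk h1
    · have := hlt w v h1; rw [h] at this; exact absurd this (lt_irrefl _)
  refine isPlane_of_book H x hinj (fun a b => if Up a b ∨ Up b a then 1 else -1) ?_ ?_ ?_
  · intro u v
    split_ifs <;> simp
  · intro u v
    simp only [or_comm]
  · intro u v u' v' h1 h2 h3 h4
    rw [hiff, hiff, hiff] at h4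
    obtain ⟨q1, q2, q3⟩ := h4
    have c1 : key u < key v := q1.trans q2
    have c2 : key u' < key v' := q2.trans q3
    by_cases hc : Up u v ∨ Up v u
    · rw [if_pos hc] at h3
      have hc' : Up u' v' ∨ Up v' u' := by
        by_contra hcc
        rw [if_neg hcc] at h3
        norm_num at h3
      have r1 : Up u v := by
        rcases hc with h | h
        · exact h
        · exact absurd (hU _ _ h) (not_lt.2 c1.le)
      have r2 : Up u' v' := by
        rcases hc' with h | h
        · exact h
        · exact absurd (hU _ _ h) (not_lt.2 c2.le)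
      exact ncU _ _ _ _ r1 r2 ⟨q1, q2, q3⟩
    · rw [if_neg hc] at h3
      have hc' : ¬ (Up u' v' ∨ Up v' u') := by
        intro hcc
        rw [if_pos hcc] at h3
        norm_num at h3
      have r1 : Lo u v := by
        rcases hH _ _ h1 with h | h | h | h
        · exact absurd (Or.inl h) hc
        · exact absurd (Or.inr h) hc
        · exact h
        · exact absurd (hL _ _ h) (not_lt.2 c1.le)
      have r2 : Lo u' v' := by
        rcases hH _ _ h2 with h | h | h | h
        · exact absurd (Or.inl h) hc'
        · exact absurd (Or.inr h) hc'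
        · exact h
        · exact absurd (hL _ _ h) (not_lt.2 c2.le)
      exact ncL _ _ _ _ r1 r2 ⟨q1, q2, q3⟩

end Pool.Agent.Helper531_Thick
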