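import Pool.Agent.Helper531_Thick.Model

set_option autoImplicit false

/-!
From a grid walk to a chain which crosses the boundaries of the two end boxes once.
-/

namespace Pool.Agent.Helper531_Thick

open Finset

lemma Cr_of_Lk {X : Finset Pt} {g : Ed} {x y : Pt} (h : Lk g x y) (hx : x ∈ X) (hy : y ∉ X) :
    Cr X g := by
  unfold Cr
  rcases h with ⟨h1, h2⟩ | ⟨h1, h2⟩ <;> rw [h1, h2] <;> simp [hx, hy]

lemma not_Cr_of_Lk {X : Finset Pt} {g : Ed} {x y : Pt} (h : Lk g x y) (hx : x ∉ X) (hy : y ∉ X) :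
    ¬ Cr X g := by
  unfold Cr
  rcases h with ⟨h1, h2⟩ | ⟨h1, h2⟩ <;> rw [h1, h2] <;> simp [hx, hy]

lemma not_Cr_out {X : Finset Pt} {g : Ed} (hx : src g ∉ X) (hy : tgt g ∉ X) : ¬ Cr X g := by
  unfold Cr; simp [hx, hy]

lemma not_Cr_in {X : Finset Pt} {g : Ed} (hx : src g ∈ X) (hy : tgt g ∈ X) : ¬ Cr X g := by
  unfold Cr; simp [hx, hy]

lemma Cr_of_Lk' {X : Finset Pt} {g : Ed} {x y : Pt} (h : Lk g x y) (hx : x ∉ X) (hy : y ∈ X) :
    Cr X g := by
  unfold Cr
  rcases h with ⟨h1, h2⟩ | ⟨h1, h2⟩ <;> rw [h1, h2] <;> simp [hx, hy]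

lemma bd_Lk {g : Ed} {x y : Pt} (h : Lk g x y) :
    bd (Finsupp.single g 1) = Finsupp.single x 1 + Finsupp.single y 1 := by
  rw [bd_single]
  rcases h with ⟨h1, h2⟩ | ⟨h1, h2⟩
  · rw [h1, h2]
  · rw [h1, h2, add_comm]

lemma ch0_cancel (x y z : Pt) : (Finsupp.single x 1 + Finsupp.single y 1 +
    (Finsupp.single y 1 + Finsupp.single z 1) : Ch0) =
    Finsupp.single x 1 + Finsupp.single z 1 := by
  have : (Finsupp.single x 1 + Finsupp.single y 1 + (Finsupp.single y 1 + Finsupp.single z 1) :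
    Ch0) = Finsupp.single x 1 + Finsupp.single z 1 +
      (Finsupp.single y 1 + Finsupp.single y 1) := by abel
  rw [this, ch2, add_zero]

lemma ne_zero_add {a b : ZMod 2} (h : a + b ≠ 0) : a ≠ 0 ∨ b ≠ 0 := by
  by_contra hc
  push Not at hc
  rw [hc.1, hc.2] at h
  simp at h

lemma single_ne {g g' : Ed} (h : (Finsupp.single g 1 : Ch1) g' ≠ 0) : g' = g := by
  by_contra h0
  apply h
  rw [Finsupp.single_apply, if_neg (fun h => h0 h.symm)]

/-- the middle part -/
lemma middle (Da Db : Finset Pt) (hdisj : ∀ x, x ∈ Da → x ∉ Db) (y : ℕ → Pt) (i j : ℕ)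
    (hij : i < j) (hstep : ∀ n, i ≤ n → n < j → Step (y n) (y (n + 1))) (hi : y i ∈ Da)
    (hj : y j ∈ Db) (hm : ∀ n, i < n → n < j → y n ∉ Da ∧ y n ∉ Db) :
    ∃ (c : Ch1) (g1 g2 : Ed), bd c = Finsupp.single (y i) 1 + Finsupp.single (y j) 1 ∧
      c g1 ≠ 0 ∧ c g2 ≠ 0 ∧ Cr Da g1 ∧ Cr Db g2 ∧ (∀ g, c g ≠ 0 → Cr Da g → g = g1) ∧
      (∀ g, c g ≠ 0 → Cr Db g → g = g2) ∧
      ∀ g, c g ≠ 0 →
        (src g ∈ Da ∨ src g ∈ (Finset.Ioo i j).image y ∨ src g ∈ Db) ∧
        (tgt g ∈ Da ∨ tgt g ∈ (Finset.Ioo i j).image y ∨ tgt g ∈ Db) := by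
  by_cases hij1 : j = i + 1
  · subst hij1
    have hne : y i ≠ y (i + 1) := fun h => hdisj _ hi (by rw [h]; exact hj)
    obtain ⟨g, hg⟩ : ∃ g, Lk g (y i) (y (i + 1)) := by
      rcases hstep i le_rfl (by omega) with h | h
      · exact absurd h hne
      · exact h
    have hjn : y (i + 1) ∉ Da := fun h => hdisj _ h hj
    have hin : y i ∉ Db := hdisj _ hi
    refine ⟨Finsupp.single g 1, g, g, bd_Lk hg, by simp, by simp, Cr_of_Lk hg hi hjn,
      Cr_of_Lk' hg hin hj, fun g' h _ => single_ne h, fun g' h _ => single_ne h, ?_⟩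
    intro g' h
    rw [single_ne h]
    rcases hg with ⟨h1, h2⟩ | ⟨h1, h2⟩
    · rw [h1, h2]; exact ⟨Or.inl hi, Or.inr (Or.inr hj)⟩
    · rw [h1, h2]; exact ⟨Or.inr (Or.inr hj), Or.inl hi⟩
  · set K := (Finset.Ioo i j).image y with hK
    have hKD : ∀ x ∈ K, x ∉ Da ∧ x ∉ Db := by
      intro x hx
      simp only [hK, mem_image, mem_Ioo] at hx
      obtain ⟨n, ⟨h1, h2⟩, rfl⟩ := hx
      exact hm n h1 h2
    have hyK : ∀ n, i < n → n < j → y n ∈ K := by
      intro n h1 h2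
      simp only [hK, mem_image, mem_Ioo]
      exact ⟨n, ⟨h1, h2⟩, rfl⟩
    obtain ⟨j', hj'⟩ : ∃ j', j = j' + 1 := ⟨j - 1, by omega⟩
    subst hj'
    have hi1 : y (i + 1) ∈ K := hyK _ (by omega) (by omega)
    have hj1 : y j' ∈ K := hyK _ (by omega) (by omega)
    obtain ⟨g1, hg1⟩ : ∃ g, Lk g (y i) (y (i + 1)) := by
      rcases hstep i le_rfl (by omega) with h | h
      · exact absurd hi (by rw [h]; exact (hKD _ hi1).1)
      · exact h
    obtain ⟨g2, hg2⟩ : ∃ g, Lk g (y j') (y (j' + 1)) := by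
      rcases hstep j' (by omega) (by omega) with h | h
      · exact absurd hj (by rw [← h]; exact (hKD _ hj1).2)
      · exact h
    have hwalk : ∀ n, i + 1 ≤ n → n ≤ j' → Joined (K : Set Pt) (y (i + 1)) (y n) := by
      intro n hn
      induction n, hn using Nat.le_induction with
      | base => intro _; exact Joined.refl _ _
      | succ n hn ih =>
        intro hn'
        refine (ih (by omega)).trans (Joined.step ?_ ?_ (hstep n (by omega) (by omega)))
        · exact hyK n (by omega) (by omega)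
        · exact hyK (n + 1) (by omega) (by omega)
    obtain ⟨cK, hcK, hsK⟩ := hwalk j' (by omega) le_rfl
    have hjn : y (j' + 1) ∉ Da := fun h => hdisj _ h hj
    have hin : y i ∉ Db := hdisj _ hi
    have n1 : ¬ Cr Db g1 := not_Cr_of_Lk hg1 hin (hKD _ hi1).2
    have n2 : ¬ Cr Da g2 := not_Cr_of_Lk hg2 (hKD _ hj1).1 hjn
    have c1 : Cr Da g1 := Cr_of_Lk hg1 hi (hKD _ hi1).1
    have c2 : Cr Db g2 := Cr_of_Lk' hg2 (hKD _ hj1).2 hj
    have n12 : g1 ≠ g2 := fun h => n1 (by rw [h]; exact c2)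
    have nKa : ∀ g, cK g ≠ 0 → ¬ Cr Da g := fun g h =>
      not_Cr_out (hKD _ (hsK g h).1).1 (hKD _ (hsK g h).2).1
    have nKb : ∀ g, cK g ≠ 0 → ¬ Cr Db g := fun g h =>
      not_Cr_out (hKD _ (hsK g h).1).2 (hKD _ (hsK g h).2).2
    have z1 : cK g1 = 0 := by
      by_contra h; exact nKa g1 h c1
    have z2 : cK g2 = 0 := by
      by_contra h; exact nKb g2 h c2
    have split : ∀ g, (Finsupp.single g1 1 + cK + Finsupp.single g2 1 : Ch1) g ≠ 0 →
        g = g1 ∨ cK g ≠ 0 ∨ g = g2 := by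
      intro g h
      rw [Finsupp.add_apply, Finsupp.add_apply] at h
      rcases ne_zero_add h with h | h
      · rcases ne_zero_add h with h | h
        · left; exact single_ne h
        · right; left; exact h
      · right; right; exact single_ne h
    refine ⟨Finsupp.single g1 1 + cK + Finsupp.single g2 1, g1, g2, ?_, ?_, ?_, c1, c2,
      ?_, ?_, ?_⟩
    · rw [map_add, map_add, bd_Lk hg1, hcK, bd_Lk hg2, ch0_cancel, ch0_cancel]
    · rw [Finsupp.add_apply, Finsupp.add_apply, z1, Finsupp.single_eq_same,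
        Finsupp.single_apply, if_neg n12.symm]
      decide
    · rw [Finsupp.add_apply, Finsupp.add_apply, z2, Finsupp.single_eq_same,
        Finsupp.single_apply, if_neg n12]
      decide
    · intro g h hc
      rcases split g h with h | h | h
      · exact h
      · exact absurd hc (nKa g h)
      · rw [h] at hc; exact absurd hc n2
    · intro g h hc
      rcases split g h with h | h | h
      · rw [h] at hc; exact absurd hc n1
      · exact absurd hc (nKb g h)
      · exact h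
    · intro g h
      rcases split g h with h | h | h
      · subst h
        rcases hg1 with ⟨h1, h2⟩ | ⟨h1, h2⟩
        · rw [h1, h2]; exact ⟨Or.inl hi, Or.inr (Or.inl hi1)⟩
        · rw [h1, h2]; exact ⟨Or.inr (Or.inl hi1), Or.inl hi⟩
      · exact ⟨Or.inr (Or.inl (hsK g h).1), Or.inr (Or.inl (hsK g h).2)⟩
      · subst h
        rcases hg2 with ⟨h1, h2⟩ | ⟨h1, h2⟩
        · rw [h1, h2]; exact ⟨Or.inr (Or.inl hj1), Or.inr (Or.inr hj)⟩
        · rw [h1, h2]; exact ⟨Or.inr (Or.inr hj), Or.inr (Or.inl hj1)⟩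

/-- the whole chain -/
lemma exists_chain (Da Db : Finset Pt) (hdisj : ∀ x, x ∈ Da → x ∉ Db)
    (ca : ∀ x ∈ Da, ∀ y ∈ Da, Joined (Da : Set Pt) x y)
    (cb : ∀ x ∈ Db, ∀ y ∈ Db, Joined (Db : Set Pt) x y) (y : ℕ → Pt) (L : ℕ)
    (hstep : ∀ n < L, Step (y n) (y (n + 1))) (h0 : y 0 ∈ Da) (hL : y L ∈ Db) :
    ∃ (K : Finset Pt) (c : Ch1) (g1 g2 : Ed),
      (∀ x ∈ K, x ∉ Da ∧ x ∉ Db ∧ ∃ n ≤ L, x = y n) ∧
      bd c = Finsupp.single (y 0) 1 + Finsupp.single (y L) 1 ∧
      c g1 ≠ 0 ∧ c g2 ≠ 0 ∧ Cr Da g1 ∧ Cr Db g2 ∧ (∀ g, c g ≠ 0 → Cr Da g → g = g1) ∧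
      (∀ g, c g ≠ 0 → Cr Db g → g = g2) ∧
      ∀ g, c g ≠ 0 →
        (src g ∈ Da ∨ src g ∈ K ∨ src g ∈ Db) ∧ (tgt g ∈ Da ∨ tgt g ∈ K ∨ tgt g ∈ Db) := by
  classical
  have hex : ∃ d, ∃ i, i + d ≤ L ∧ y i ∈ Da ∧ y (i + d) ∈ Db :=
    ⟨L, 0, by omega, h0, by rw [zero_add]; exact hL⟩
  set d := Nat.find hex with hd
  obtain ⟨i, hiL, hi, hj⟩ := Nat.find_spec hex
  rw [← hd] at hiL hj
  have hdpos : 0 < d := by
    rcases Nat.eq_zero_or_pos d with h | h
    · rw [h, add_zero] at hj; exact absurd hj (hdisj _ hi)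
    · exact h
  have hm : ∀ n, i < n → n < i + d → y n ∉ Da ∧ y n ∉ Db := by
    intro n h1 h2
    constructor
    · intro h
      have h3 : i + d - n < d := by omega
      exact Nat.find_min hex h3 ⟨n, by omega, h, by
        rw [show n + (i + d - n) = i + d by omega]; exact hj⟩
    · intro h
      have h3 : n - i < d := by omega
      exact Nat.find_min hex h3 ⟨i, by omega, hi, by
        rw [show i + (n - i) = n by omega]; exact h⟩
  obtain ⟨c, g1, g2, e1, e2, e3, e4, e5, e6, e7, e8⟩ := middle Da Db hdisj y i (i + d)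
    (by omega) (fun n _ h => hstep n (by omega)) hi hj hm
  obtain ⟨c0, f1, f2⟩ := ca _ h0 _ hi
  obtain ⟨c2, f3, f4⟩ := cb _ hj _ hL
  have n0a : ∀ g, c0 g ≠ 0 → ¬ Cr Da g := fun g h => not_Cr_in (f2 g h).1 (f2 g h).2
  have n0b : ∀ g, c0 g ≠ 0 → ¬ Cr Db g := fun g h =>
    not_Cr_out (hdisj _ (f2 g h).1) (hdisj _ (f2 g h).2)
  have n2a : ∀ g, c2 g ≠ 0 → ¬ Cr Da g := fun g h =>
    not_Cr_out (fun h' => hdisj _ h' (f4 g h).1) (fun h' => hdisj _ h' (f4 g h).2)
  have n2b : ∀ g, c2 g ≠ 0 → ¬ Cr Db g := fun g h => not_Cr_in (f4 g h).1 (f4 g h).2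
  have z0a : ∀ g, Cr Da g → c0 g = 0 := fun g h => by
    by_contra h'; exact n0a g h' h
  have z0b : ∀ g, Cr Db g → c0 g = 0 := fun g h => by
    by_contra h'; exact n0b g h' h
  have z2a : ∀ g, Cr Da g → c2 g = 0 := fun g h => by
    by_contra h'; exact n2a g h' h
  have z2b : ∀ g, Cr Db g → c2 g = 0 := fun g h => by
    by_contra h'; exact n2b g h' h
  have split : ∀ g, (c0 + c + c2) g ≠ 0 → c0 g ≠ 0 ∨ c g ≠ 0 ∨ c2 g ≠ 0 := by
    intro g h
    rw [Finsupp.add_apply, Finsupp.add_apply] at h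
    rcases ne_zero_add h with h | h
    · rcases ne_zero_add h with h | h
      · left; exact h
      · right; left; exact h
    · right; right; exact h
  refine ⟨(Finset.Ioo i (i + d)).image y, c0 + c + c2, g1, g2, ?_, ?_, ?_, ?_, e4, e5, ?_, ?_, ?_⟩
  · intro x hx
    simp only [mem_image, mem_Ioo] at hx
    obtain ⟨n, ⟨h1, h2⟩, rfl⟩ := hx
    exact ⟨(hm n h1 h2).1, (hm n h1 h2).2, n, by omega, rfl⟩
  · rw [map_add, map_add, f1, e1, f3, ch0_cancel, ch0_cancel]
  · rw [Finsupp.add_apply, Finsupp.add_apply, z0a g1 e4, z2a g1 e4, zero_add, add_zero]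
    exact e2
  · rw [Finsupp.add_apply, Finsupp.add_apply, z0b g2 e5, z2b g2 e5, zero_add, add_zero]
    exact e3
  · intro g h hc
    rcases split g h with h | h | h
    · exact absurd hc (n0a g h)
    · exact e6 g h hc
    · exact absurd hc (n2a g h)
  · intro g h hc
    rcases split g h with h | h | h
    · exact absurd hc (n0b g h)
    · exact e7 g h hc
    · exact absurd hc (n2b g h)
  · intro g h
    rcases split g h with h | h | h
    · exact ⟨Or.inl (f2 g h).1, Or.inl (f2 g h).2⟩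
    · exact e8 g h
    · exact ⟨Or.inr (Or.inr (f4 g h).1), Or.inr (Or.inr (f4 g h).2)⟩

lemma joined_hor (S : Set Pt) (j a : ℤ) (b : ℤ) (hab : a ≤ b)
    (h : ∀ t, a ≤ t → t ≤ b → (t, j) ∈ S) : Joined S (a, j) (b, j) := by
  induction b, hab using Int.leInduction with
  | base => exact Joined.refl _ _
  | succ b hb ih =>
    refine (ih (fun t h1 h2 => h t h1 (by omega))).trans
      (Joined.step (h b hb (by omega)) (h (b + 1) (by omega) le_rfl) (Or.inr ⟨(b, j, false), ?_⟩))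
    left; simp [src, tgt]

lemma joined_ver (S : Set Pt) (i a : ℤ) (b : ℤ) (hab : a ≤ b)
    (h : ∀ t, a ≤ t → t ≤ b → (i, t) ∈ S) : Joined S (i, a) (i, b) := by
  induction b, hab using Int.leInduction with
  | base => exact Joined.refl _ _
  | succ b hb ih =>
    refine (ih (fun t h1 h2 => h t h1 (by omega))).trans
      (Joined.step (h b hb (by omega)) (h (b + 1) (by omega) le_rfl) (Or.inr ⟨(i, b, true), ?_⟩))
    left; simp [src, tgt]

lemma joined_box (a b c d : ℤ) (x y : Pt) (hx : x ∈ Finset.Icc a b ×ˢ Finset.Icc c d)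
    (hy : y ∈ Finset.Icc a b ×ˢ Finset.Icc c d) :
    Joined ((Finset.Icc a b ×ˢ Finset.Icc c d : Finset Pt) : Set Pt) x y := by
  obtain ⟨x1, x2⟩ := x
  obtain ⟨y1, y2⟩ := y
  simp only [mem_product, mem_Icc] at hx hy
  have h1 : Joined ((Finset.Icc a b ×ˢ Finset.Icc c d : Finset Pt) : Set Pt) (x1, x2) (y1, x2) := by
    rcases le_total x1 y1 with h | h
    · apply joined_hor _ _ _ _ h
      intro t h1 h2
      simp only [coe_product, coe_Icc, Set.mem_prod, Set.mem_Icc]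
      omega
    · apply Joined.symm
      apply joined_hor _ _ _ _ h
      intro t h1 h2
      simp only [coe_product, coe_Icc, Set.mem_prod, Set.mem_Icc]
      omega
  have h2 : Joined ((Finset.Icc a b ×ˢ Finset.Icc c d : Finset Pt) : Set Pt) (y1, x2) (y1, y2) := by
    rcases le_total x2 y2 with h | h
    · apply joined_ver _ _ _ _ h
      intro t h1 h2
      simp only [coe_product, coe_Icc, Set.mem_prod, Set.mem_Icc]
      omega
    · apply Joined.symm
      apply joined_ver _ _ _ _ h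
      intro t h1 h2
      simp only [coe_product, coe_Icc, Set.mem_prod, Set.mem_Icc]
      omega
  exact h1.trans h2

end Pool.Agent.Helper531_Thick
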