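import Pool.Agent.Helper531_Thick.Design

set_option autoImplicit false

/-!
Every edge of the complete bipartite graph lies in one of the slices.
-/

namespace Pool.Agent.Helper531_Thick

namespace Slice

variable {U V : Type} (S : Slice U V)

lemma adj_gate0 {u : U} {v : V} {l : ℕ} (h : S.cix u = some l) (h2 : S.blk v = 0) :
    S.graph.Adj (Sum.inl u) (Sum.inr v) := Or.inr (Or.inl (Up.A u v l h h2))

lemma adj_left {u : U} {v : V} {l : ℕ} (h : S.cix u = some l) (hl : l ≤ S.q)
    (h2 : S.blk v = 2 * l + 2) : S.graph.Adj (Sum.inl u) (Sum.inr v) :=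
  Or.inr (Or.inr (Or.inl (Lo.C u v l h hl h2)))

lemma adj_right {u : U} {v : V} {l : ℕ} (h : S.cix u = some (l + 1))
    (h2 : S.blk v = 2 * l + 2) : S.graph.Adj (Sum.inl u) (Sum.inr v) :=
  Or.inr (Or.inl (Up.B u v l h h2))

lemma adj_up {u : U} {v : V} (h : S.cix u = some (S.q + 1)) (h2 : 2 * S.q + 5 ≤ S.blk v) :
    S.graph.Adj (Sum.inl u) (Sum.inr v) := Or.inl (Up.C u v h h2)

lemma adj_main0 {u : U} {v : V} (h : S.cix u = some 0) (h2 : S.blk v = 2 * S.q + 6) :
    S.graph.Adj (Sum.inl u) (Sum.inr v) := Or.inr (Or.inr (Or.inl (Lo.D u v h h2)))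

lemma adj_five {u : U} {v : V} {l : ℕ} (h : S.cix u = some l) (h1 : l ≤ S.t) (h2 : l ≤ S.q)
    (h3 : S.blk v = 2 * S.q + 5) : S.graph.Adj (Sum.inl u) (Sum.inr v) :=
  Or.inr (Or.inr (Or.inl (Lo.A u v l h h1 h2 h3)))

lemma adj_four {u : U} {v : V} {l : ℕ} (h : S.cix u = some l) (h1 : S.t ≤ l)
    (h3 : S.blk v = 2 * S.q + 4) : S.graph.Adj (Sum.inl u) (Sum.inr v) :=
  Or.inr (Or.inr (Or.inl (Lo.B u v l h h1 h3)))

lemma adj_att1 {u : U} {v v' : V} (h : S.att u = some (v, v')) :
    S.graph.Adj (Sum.inl u) (Sum.inr v) := Or.inr (Or.inl (Up.D u v v' h))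

lemma adj_att2 {u : U} {v v' : V} (h : S.att u = some (v, v')) :
    S.graph.Adj (Sum.inl u) (Sum.inr v') := Or.inr (Or.inr (Or.inl (Lo.E u v v' h)))

lemma graph_le : S.graph ≤ completeBipartiteGraph U V := by
  intro a b h
  rcases h with h | h | h | h <;> cases h <;> simp

end Slice

namespace Design

variable {k m d n : ℕ} (D : Design k m d n)

lemma adj_hub_main (h : Fin k) (c : Bool) (v : VV k n)
    (hb : D.blk h v = 2 * (4 * m + 2 * d + 1) + 6) :
    (D.slice h).graph.Adj (Sum.inl (Sum.inl (h, c))) (Sum.inr v) := by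
  cases c
  · refine (D.slice h).adj_main0 ?_ hb
    simp [slice, cix]
  · refine (D.slice h).adj_up ?_ ?_
    · simp [slice, cix]
    · change _ ≤ D.blk h v
      rw [hb]; simp [slice]

lemma adj_hub_false (h : Fin k) (v : VV k n) (hb : D.blk h v = 2) :
    (D.slice h).graph.Adj (Sum.inl (Sum.inl (h, false))) (Sum.inr v) :=
  (D.slice h).adj_left (l := 0) (by simp [slice, cix]) (Nat.zero_le _) hb

lemma adj_hub_true (h : Fin k) (v : VV k n) (hb : D.blk h v = 2 * (4 * m + 2 * d + 1) + 2) :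
    (D.slice h).graph.Adj (Sum.inl (Sum.inl (h, true))) (Sum.inr v) :=
  (D.slice h).adj_right (l := 4 * m + 2 * d + 1) (by simp [slice, cix]) hb

lemma adj_z_left (i : Fin k) (z : Fin (4 * m + 2 * d + 1)) (v : VV k n)
    (hb : D.blk i v = 2 * (z.val + 1) + 2) :
    (D.slice i).graph.Adj (Sum.inl (Sum.inr z)) (Sum.inr v) :=
  (D.slice i).adj_left (l := z.val + 1) (by simp [slice, cix])
    (by have := z.2; simp [slice]; omega) hb

lemma adj_z_right (i : Fin k) (z : Fin (4 * m + 2 * d + 1)) (v : VV k n)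
    (hb : D.blk i v = 2 * z.val + 2) :
    (D.slice i).graph.Adj (Sum.inl (Sum.inr z)) (Sum.inr v) :=
  (D.slice i).adj_right (l := z.val) (by simp [slice, cix]) hb

lemma att_spc (i : Fin k) (u : Fin k × Bool) (hu : u.1 ≠ i) (p : VV k n × VV k n)
    (h : spc m d n D.o i u = some p) : (D.slice i).att (Sum.inl u) = some p := by
  simp [slice, att, hu, h]

lemma att_f (i : Fin k) (u : Fin k × Bool) (hu : u.1 ≠ i) (T : Fin n)
    (h : spc m d n D.o i u = none) (h2 : D.f i u = some T) :
    (D.slice i).att (Sum.inl u) = some (tw T false, tw T true) := by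
  simp [slice, att, hu, h, h2]

lemma cover_gate (u : UU k (4 * m + 2 * d + 1)) (h : Fin k) (c : Bool)
    (hc : ¬ (h.val = 0 ∧ c = true)) :
    ∃ i, (D.slice i).graph.Adj (Sum.inl u) (Sum.inr (gt h c)) := by
  have own : ∀ (u : UU k (4 * m + 2 * d + 1)) (l : ℕ), (D.slice h).cix u = some l →
      (D.slice h).graph.Adj (Sum.inl u) (Sum.inr (gt h c)) := by
    intro u l hl
    cases c
    · exact (D.slice h).adj_gate0 hl (by simp [slice, blk])
    · have hle := (D.slice h).cix_le u l hl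
      have hh : h.val ≠ 0 := fun e => hc ⟨e, rfl⟩
      have ht : (D.slice h).t = 4 * m + 2 * d + 2 := by simp [slice, hh]
      have hq : (D.slice h).q = 4 * m + 2 * d + 1 := rfl
      have hb : (D.slice h).blk (gt h true) = 2 * (4 * m + 2 * d + 1) + 5 := by simp [slice, blk]
      by_cases e : l ≤ (D.slice h).q
      · exact (D.slice h).adj_five hl (by omega) e (by rw [hb, hq])
      · have : l = (D.slice h).q + 1 := by omega
        subst this
        exact (D.slice h).adj_up hl (by rw [hb, hq])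
  rcases u with ⟨h', c'⟩ | z
  · by_cases e : h' = h
    · subst e
      exact ⟨h', own _ _ (by simp only [slice, cix, if_true]; rfl)⟩
    · refine ⟨h', D.adj_hub_main h' c' _ ?_⟩
      have e' : ¬ h = h' := fun h2 => e h2.symm
      have e2 : ¬ (h.val = 0 ∧ c = true ∧ 3 ≤ h'.val + d ∧ h'.val ≤ m + 2) := by tauto
      simp only [blk, if_neg e', if_neg e2]
  · exact ⟨h, own _ _ (by simp only [slice, cix]; rfl)⟩

/-- the index with a given value -/
lemma exists_fin (i : ℕ) (hi : i < k) : ∃ j : Fin k, j.val = i := ⟨⟨i, hi⟩, rfl⟩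

lemma cover_gp (u : UU k (4 * m + 2 * d + 1)) :
    ∃ i, (D.slice i).graph.Adj (Sum.inl u) (Sum.inr (gt D.o true)) := by
  have hk := D.hk
  have hm := D.hm
  have hd := D.hd
  have ho := D.ho
  have hbo : (D.slice D.o).blk (gt D.o true) = 2 * (4 * m + 2 * d + 1) + 5 := by simp [slice, blk]
  have hq : (D.slice D.o).q = 4 * m + 2 * d + 1 := rfl
  have ht : (D.slice D.o).t = 2 * m + 1 := by simp [slice, ho]
  rcases u with ⟨h, c⟩ | z
  · by_cases e : h = D.o
    · subst e
      refine ⟨D.o, ?_⟩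
      cases c
      · exact (D.slice D.o).adj_five (l := 0) (by simp [slice, cix]) (Nat.zero_le _)
          (Nat.zero_le _) hbo
      · exact (D.slice D.o).adj_up (by simp [slice, cix]) (by rw [hbo, hq])
    · have h0 : h.val ≠ 0 := fun h2 => e (Fin.ext (by omega))
      by_cases e2 : 3 ≤ h.val + d ∧ h.val ≤ m + 2
      · by_cases e3 : 3 ≤ h.val
        · refine ⟨D.o, (D.slice D.o).adj_att2 (D.att_spc D.o (h, c) e (sw, gt D.o true) ?_)⟩
          have e4 : ¬ (D.o.val = 1) := by omega
          simp only [spc, if_neg e4, if_pos ho]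
          rw [if_pos ⟨e3, e2.2⟩]
        · have hd1 : d = 1 := by omega
          have h2 : h.val = 2 := by omega
          cases c
          · refine ⟨D.o, (D.slice D.o).adj_att1 (D.att_spc D.o (h, false) e (gt D.o true, sa) ?_)⟩
            have e4 : ¬ (D.o.val = 1) := by omega
            simp [spc, ho, h2, hd1]
          · obtain ⟨i, hi⟩ := exists_fin (k := k) 1 (by omega)
            have e5 : h ≠ i := fun h3 => by rw [h3] at h2; omega
            refine ⟨i, (D.slice i).adj_att2 (D.att_spc i (h, true) e5 (sb, gt D.o true) ?_)⟩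
            simp [spc, hi, h2, hd1]
      · refine ⟨h, D.adj_hub_main h c _ ?_⟩
        have e' : ¬ D.o = h := fun h2 => e h2.symm
        simp only [blk, if_neg e']
        rw [if_neg (by tauto)]
  · have hz := z.2
    by_cases e : z.val + 1 ≤ 2 * m + 1
    · refine ⟨D.o, (D.slice D.o).adj_five (l := z.val + 1) (by simp [slice, cix]) (by omega)
        (by omega) hbo⟩
    · obtain ⟨i, hi⟩ := exists_fin (k := k) ((z.val - (2 * m + 1)) / 2 + 3 - d) (by omega)
      have e' : ¬ D.o = i := fun h2 => by rw [h2] at ho; omega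
      have hb : D.blk i (gt D.o true) = 2 * (2 * m + 2 + 2 * (i.val + d - 3)) + 2 := by
        simp only [blk, if_neg e']
        rw [if_pos ⟨ho, trivial, by omega, by omega⟩]
      rcases Nat.even_or_odd' (z.val - (2 * m + 1)) with ⟨r, hr | hr⟩
      · exact ⟨i, D.adj_z_left i z _ (by rw [hb]; omega)⟩
      · exact ⟨i, D.adj_z_right i z _ (by rw [hb]; omega)⟩

lemma cover_w (u : UU k (4 * m + 2 * d + 1)) :
    ∃ i, (D.slice i).graph.Adj (Sum.inl u) (Sum.inr sw) := by
  have hk := D.hk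
  have hm := D.hm
  have hd := D.hd
  have ho := D.ho
  have hbo : (D.slice D.o).blk sw = 2 * (4 * m + 2 * d + 1) + 4 := by simp [slice, blk, ho]
  have hq : (D.slice D.o).q = 4 * m + 2 * d + 1 := rfl
  have ht : (D.slice D.o).t = 2 * m + 1 := by simp [slice, ho]
  rcases u with ⟨h, c⟩ | z
  · by_cases e : h = D.o
    · subst e
      cases c
      · obtain ⟨i, hi⟩ := exists_fin (k := k) 1 (by omega)
        have e5 : D.o ≠ i := fun h3 => by rw [h3] at ho; omega
        refine ⟨i, (D.slice i).adj_att2 (D.att_spc i (D.o, false) e5 (gt D.o true, sw) ?_)⟩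
        simp [spc, hi, ho]
      · refine ⟨D.o, (D.slice D.o).adj_four (l := 4 * m + 2 * d + 2) (by simp [slice, cix])
          (by omega) hbo⟩
    · have h0 : h.val ≠ 0 := fun h2 => e (Fin.ext (by omega))
      by_cases e2 : 3 ≤ h.val ∧ h.val ≤ m + 2
      · refine ⟨D.o, (D.slice D.o).adj_att1 (D.att_spc D.o (h, c) e (sw, gt D.o true) ?_)⟩
        have e4 : ¬ (D.o.val = 1) := by omega
        simp only [spc, if_neg e4, if_pos ho]
        rw [if_pos e2]
      · refine ⟨h, D.adj_hub_main h c _ ?_⟩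
        simp [blk, h0, e2]
  · have hz := z.2
    by_cases e : 2 * m + 1 ≤ z.val + 1
    · refine ⟨D.o, (D.slice D.o).adj_four (l := z.val + 1) (by simp [slice, cix]) (by omega) hbo⟩
    · obtain ⟨i, hi⟩ := exists_fin (k := k) (z.val / 2 + 3) (by omega)
      have hb : D.blk i (sw : VV k n) = 2 * (1 + 2 * (i.val - 3)) + 2 := by
        have h0 : ¬ i.val = 0 := by omega
        have e3 : 3 ≤ i.val ∧ i.val ≤ m + 2 := by omega
        simp only [blk, if_neg h0, if_pos e3, if_true]
      rcases Nat.even_or_odd' z.val with ⟨r, hr | hr⟩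
      · exact ⟨i, D.adj_z_left i z _ (by rw [hb]; omega)⟩
      · exact ⟨i, D.adj_z_right i z _ (by rw [hb]; omega)⟩

lemma blk_sa (i : Fin k) : D.blk i (sa : VV k n) =
      (if 3 ≤ i.val ∧ i.val ≤ 2 * m + d + 2 then
         (if d = 1 then 4 * (i.val - 3) + 4 else 4 * (i.val - 3) + 6)
       else if i.val = 2 ∧ d = 1 then 2 * (4 * m + 2 * d + 1) + 2
       else if i.val = 0 ∧ d = 0 then 2
       else 2 * (4 * m + 2 * d + 1) + 6) := by
  have : (1 : Fin 3) ≠ 0 := by decide
  simp only [blk, if_neg this, if_true]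

lemma blk_sb (i : Fin k) : D.blk i (sb : VV k n) =
      (if 3 ≤ i.val ∧ i.val ≤ 2 * m + d + 2 then 4 * (i.val - 3) + 6
       else if i.val = 2 ∧ d = 1 then 2
       else if i.val = 0 ∧ d = 0 then 2
       else 2 * (4 * m + 2 * d + 1) + 6) := by
  have h20 : (2 : Fin 3) ≠ 0 := by decide
  have h21 : (2 : Fin 3) ≠ 1 := by decide
  simp only [blk, if_neg h20, if_neg h21]

lemma cover_a (u : UU k (4 * m + 2 * d + 1)) :
    ∃ i, (D.slice i).graph.Adj (Sum.inl u) (Sum.inr sa) := by
  have hk := D.hk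
  have hm := D.hm
  have hd := D.hd
  have ho := D.ho
  obtain ⟨i1, hi1⟩ := exists_fin (k := k) 1 (by omega)
  rcases u with ⟨h, c⟩ | z
  · by_cases e : 3 ≤ h.val ∧ h.val ≤ 2 * m + d + 2
    · have e5 : h ≠ i1 := fun h3 => by rw [h3] at e; omega
      refine ⟨i1, (D.slice i1).adj_att1 (D.att_spc i1 (h, c) e5 (sa, sb) ?_)⟩
      simp only [spc, if_pos hi1]
      rw [if_pos e]
    · by_cases e2 : h.val = 2 ∧ d = 1
      · cases c
        · have e5 : h ≠ D.o := fun h3 => by rw [h3] at e2; omega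
          refine ⟨D.o, (D.slice D.o).adj_att2 (D.att_spc D.o (h, false) e5 (gt D.o true, sa) ?_)⟩
          simp [spc, ho, e2.1, e2.2]
        · refine ⟨h, D.adj_hub_true h _ ?_⟩
          rw [blk_sa, if_neg e, if_pos e2]
      · by_cases e3 : h.val = 0 ∧ d = 0
        · cases c
          · refine ⟨h, D.adj_hub_false h _ ?_⟩
            rw [blk_sa, if_neg e, if_neg e2, if_pos e3]
          · have e5 : h ≠ i1 := fun h3 => by rw [h3] at e3; omega
            refine ⟨i1, (D.slice i1).adj_att1 (D.att_spc i1 (h, true) e5 (sa, sb) ?_)⟩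
            simp [spc, hi1, e3.1, e3.2]
        · refine ⟨h, D.adj_hub_main h c _ ?_⟩
          rw [blk_sa, if_neg e, if_neg e2, if_neg e3]
  · have hz := z.2
    by_cases hd1 : d = 1
    · by_cases hz1 : z.val + 1 = 4 * m + 2 * d + 1
      · obtain ⟨i, hi⟩ := exists_fin (k := k) 2 (by omega)
        refine ⟨i, D.adj_z_left i z _ ?_⟩
        rw [blk_sa, if_neg (by omega), if_pos ⟨hi, hd1⟩, hz1]
      · obtain ⟨i, hi⟩ := exists_fin (k := k) (z.val / 2 + 3) (by omega)
        have hb : D.blk i (sa : VV k n) = 4 * (i.val - 3) + 4 := by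
          rw [blk_sa, if_pos (by omega), if_pos hd1]
        rcases Nat.even_or_odd' z.val with ⟨r, hr | hr⟩
        · exact ⟨i, D.adj_z_left i z _ (by rw [hb]; omega)⟩
        · exact ⟨i, D.adj_z_right i z _ (by rw [hb]; omega)⟩
    · by_cases hz1 : z.val = 0
      · refine ⟨D.o, D.adj_z_right D.o z _ ?_⟩
        rw [blk_sa, if_neg (by omega), if_neg (by omega), if_pos (by omega), hz1]
      · obtain ⟨i, hi⟩ := exists_fin (k := k) ((z.val - 1) / 2 + 3) (by omega)
        have hb : D.blk i (sa : VV k n) = 4 * (i.val - 3) + 6 := by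
          rw [blk_sa, if_pos (by omega), if_neg hd1]
        rcases Nat.even_or_odd' (z.val - 1) with ⟨r, hr | hr⟩
        · exact ⟨i, D.adj_z_left i z _ (by rw [hb]; omega)⟩
        · exact ⟨i, D.adj_z_right i z _ (by rw [hb]; omega)⟩

lemma cover_b (u : UU k (4 * m + 2 * d + 1)) :
    ∃ i, (D.slice i).graph.Adj (Sum.inl u) (Sum.inr sb) := by
  have hk := D.hk
  have hm := D.hm
  have hd := D.hd
  have ho := D.ho
  obtain ⟨i1, hi1⟩ := exists_fin (k := k) 1 (by omega)
  rcases u with ⟨h, c⟩ | z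
  · by_cases e : 3 ≤ h.val ∧ h.val ≤ 2 * m + d + 2
    · have e5 : h ≠ i1 := fun h3 => by rw [h3] at e; omega
      refine ⟨i1, (D.slice i1).adj_att2 (D.att_spc i1 (h, c) e5 (sa, sb) ?_)⟩
      simp only [spc, if_pos hi1]
      rw [if_pos e]
    · by_cases e2 : h.val = 2 ∧ d = 1
      · cases c
        · refine ⟨h, D.adj_hub_false h _ ?_⟩
          rw [blk_sb, if_neg e, if_pos e2]
        · have e5 : h ≠ i1 := fun h3 => by rw [h3] at e2; omega
          refine ⟨i1, (D.slice i1).adj_att1 (D.att_spc i1 (h, true) e5 (sb, gt D.o true) ?_)⟩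
          simp [spc, hi1, e2.1, e2.2]
      · by_cases e3 : h.val = 0 ∧ d = 0
        · cases c
          · refine ⟨h, D.adj_hub_false h _ ?_⟩
            rw [blk_sb, if_neg e, if_neg e2, if_pos e3]
          · have e5 : h ≠ i1 := fun h3 => by rw [h3] at e3; omega
            refine ⟨i1, (D.slice i1).adj_att2 (D.att_spc i1 (h, true) e5 (sa, sb) ?_)⟩
            simp [spc, hi1, e3.1, e3.2]
        · refine ⟨h, D.adj_hub_main h c _ ?_⟩
          rw [blk_sb, if_neg e, if_neg e2, if_neg e3]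
  · have hz := z.2
    by_cases hz1 : z.val = 0
    · by_cases hd1 : d = 1
      · obtain ⟨i, hi⟩ := exists_fin (k := k) 2 (by omega)
        refine ⟨i, D.adj_z_right i z _ ?_⟩
        rw [blk_sb, if_neg (by omega), if_pos (by omega), hz1]
      · refine ⟨D.o, D.adj_z_right D.o z _ ?_⟩
        rw [blk_sb, if_neg (by omega), if_neg (by omega), if_pos (by omega), hz1]
    · obtain ⟨i, hi⟩ := exists_fin (k := k) ((z.val - 1) / 2 + 3) (by omega)
      have hb : D.blk i (sb : VV k n) = 4 * (i.val - 3) + 6 := by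
        rw [blk_sb, if_pos (by omega)]
      rcases Nat.even_or_odd' (z.val - 1) with ⟨r, hr | hr⟩
      · exact ⟨i, D.adj_z_left i z _ (by rw [hb]; omega)⟩
      · exact ⟨i, D.adj_z_right i z _ (by rw [hb]; omega)⟩

lemma cover_tw (u : UU k (4 * m + 2 * d + 1)) (T : Fin n) (e : Bool) :
    ∃ i, (D.slice i).graph.Adj (Sum.inl u) (Sum.inr (tw T e)) := by
  have hk := D.hk
  have hm := D.hm
  have hd := D.hd
  have hb : ∀ i, D.blk i (tw T e) = D.tblk T i := fun i => rfl
  have attach : ∀ u : Fin k × Bool, (u.1 ∈ D.I T ∨ u = D.mh T) →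
      ∃ i, (D.slice i).graph.Adj (Sum.inl (Sum.inl u)) (Sum.inr (tw T e)) := by
    intro u hu
    obtain ⟨i, h1, h2, h3⟩ := D.hf T u hu
    have := D.att_f i u h1 T h2 h3
    cases e
    · exact ⟨i, (D.slice i).adj_att1 this⟩
    · exact ⟨i, (D.slice i).adj_att2 this⟩
  rcases u with ⟨h, c⟩ | z
  · by_cases e1 : (D.mh T).1 = h
    · by_cases e2 : (h, c) = D.mh T
      · exact attach (h, c) (Or.inr e2)
      · have e3 : (D.mh T).2 ≠ c := fun e4 => e2 (by rw [← e1, ← e4])
        cases c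
        · refine ⟨h, D.adj_hub_false h _ ?_⟩
          rw [hb, tblk, if_pos e1, if_pos (by simpa using e3)]
        · refine ⟨h, D.adj_hub_true h _ ?_⟩
          rw [hb, tblk, if_pos e1, if_neg (by simpa using e3)]
    · by_cases e2 : h ∈ D.I T
      · exact attach (h, c) (Or.inl e2)
      · refine ⟨h, D.adj_hub_main h c _ ?_⟩
        rw [hb, tblk, if_neg e1, if_neg e2]
  · have hz := z.2
    by_cases ht : (D.mh T).2 = true
    · by_cases hz1 : z.val = 0
      · refine ⟨(D.mh T).1, D.adj_z_right _ z _ ?_⟩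
        rw [hb, tblk, if_pos rfl, if_pos ht, hz1]
      · obtain ⟨i, hi, hi2⟩ := D.rk_surj T ((z.val - 1) / 2) (by omega)
        have hne : (D.mh T).1 ≠ i := fun h => D.hmh T (h ▸ hi)
        have hbb : D.blk i (tw T e) = 4 * D.rk T i + 6 := by
          rw [hb, tblk, if_neg hne, if_pos hi, if_pos ht]
        rcases Nat.even_or_odd' (z.val - 1) with ⟨r, hr | hr⟩
        · exact ⟨i, D.adj_z_left i z _ (by rw [hbb]; omega)⟩
        · exact ⟨i, D.adj_z_right i z _ (by rw [hbb]; omega)⟩
    · by_cases hz1 : z.val + 1 = 4 * m + 2 * d + 1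
      · refine ⟨(D.mh T).1, D.adj_z_left _ z _ ?_⟩
        rw [hb, tblk, if_pos rfl, if_neg ht, hz1]
      · obtain ⟨i, hi, hi2⟩ := D.rk_surj T (z.val / 2) (by omega)
        have hne : (D.mh T).1 ≠ i := fun h => D.hmh T (h ▸ hi)
        have hbb : D.blk i (tw T e) = 4 * D.rk T i + 4 := by
          rw [hb, tblk, if_neg hne, if_pos hi, if_neg ht]
        rcases Nat.even_or_odd' z.val with ⟨r, hr | hr⟩
        · exact ⟨i, D.adj_z_left i z _ (by rw [hbb]; omega)⟩
        · exact ⟨i, D.adj_z_right i z _ (by rw [hbb]; omega)⟩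

theorem cover (u : UU k (4 * m + 2 * d + 1)) (v : VV k n) :
    ∃ i, (D.slice i).graph.Adj (Sum.inl u) (Sum.inr v) := by
  rcases v with ⟨h, c⟩ | ⟨T, e⟩ | j
  · by_cases hc : h.val = 0 ∧ c = true
    · have : h = D.o := Fin.ext (by have := D.ho; omega)
      obtain ⟨-, rfl⟩ := hc
      subst this
      exact D.cover_gp u
    · exact D.cover_gate u h c hc
  · exact D.cover_tw u T e
  · have hj : j = 0 ∨ j = 1 ∨ j = 2 := by omega
    rcases hj with rfl | rfl | rfl
    · exact D.cover_w u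
    · exact D.cover_a u
    · exact D.cover_b u

end Design

end Pool.Agent.Helper531_Thick
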