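import Pool.Agent.Helper531_Thick.Slice

set_option autoImplicit false

/-!
The decomposition of a complete bipartite graph into `k` plane graphs, from combinatorial data.
-/

namespace Pool.Agent.Helper531_Thick

abbrev UU (k q : ℕ) := (Fin k × Bool) ⊕ Fin q
abbrev VV (k n : ℕ) := (Fin k × Bool) ⊕ ((Fin n × Bool) ⊕ Fin 3)

variable {k n : ℕ}

/-- gates -/
abbrev gt (h : Fin k) (c : Bool) : VV k n := Sum.inl (h, c)
/-- twins -/
abbrev tw (T : Fin n) (c : Bool) : VV k n := Sum.inr (Sum.inl (T, c))
/-- special labels -/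
abbrev sw : VV k n := Sum.inr (Sum.inr 0)
abbrev sa : VV k n := Sum.inr (Sum.inr 1)
abbrev sb : VV k n := Sum.inr (Sum.inr 2)

/-- special attachments -/
def spc (m d n : ℕ) (o i : Fin k) (u : Fin k × Bool) : Option (VV k n × VV k n) :=
  if i.val = 1 then
    if 3 ≤ u.1.val ∧ u.1.val ≤ 2 * m + d + 2 then some (sa, sb)
    else if u.1.val = 0 ∧ u.2 = false then some (gt o true, sw)
    else if u.1.val = 0 ∧ u.2 = true ∧ d = 0 then some (sa, sb)
    else if u.1.val = 2 ∧ u.2 = true ∧ d = 1 then some (sb, gt o true)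
    else none
  else if i.val = 0 then
    if 3 ≤ u.1.val ∧ u.1.val ≤ m + 2 then some (sw, gt o true)
    else if u.1.val = 2 ∧ u.2 = false ∧ d = 1 then some (gt o true, sa)
    else none
  else none

structure Design (k m d n : ℕ) where
  hd : d ≤ 1
  hm : 1 ≤ m
  hk : 2 * m + d + 3 ≤ k
  o : Fin k
  ho : o.val = 0
  I : Fin n → Finset (Fin k)
  hI : ∀ T, (I T).card = 2 * m + d
  mh : Fin n → Fin k × Bool
  hmh : ∀ T, (mh T).1 ∉ I T
  f : Fin k → Fin k × Bool → Option (Fin n)
  hf : ∀ T u, (u.1 ∈ I T ∨ u = mh T) →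
    ∃ i, u.1 ≠ i ∧ spc m d n o i u = none ∧ f i u = some T

namespace Design

variable {m d : ℕ} (D : Design k m d n)

/-- rank of a graph in the set of a twin pair -/
noncomputable def rk (T : Fin n) (i : Fin k) : ℕ :=
  if h : i ∈ D.I T then ((D.I T).equivFin ⟨i, h⟩ : ℕ) else 0

lemma rk_lt (T : Fin n) (i : Fin k) (h : i ∈ D.I T) : D.rk T i < 2 * m + d := by
  rw [rk, dif_pos h]
  have := ((D.I T).equivFin ⟨i, h⟩).2
  have h2 := D.hI T
  omega

lemma rk_surj (T : Fin n) (j : ℕ) (hj : j < 2 * m + d) : ∃ i, i ∈ D.I T ∧ D.rk T i = j := by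
  refine ⟨((D.I T).equivFin.symm ⟨j, by rw [D.hI T]; exact hj⟩).1,
    ((D.I T).equivFin.symm ⟨j, by rw [D.hI T]; exact hj⟩).2, ?_⟩
  rw [rk, dif_pos ((D.I T).equivFin.symm ⟨j, by rw [D.hI T]; exact hj⟩).2]
  simp

/-- block of a twin -/
noncomputable def tblk (T : Fin n) (i : Fin k) : ℕ :=
  if (D.mh T).1 = i then (if (D.mh T).2 then 2 else 2 * (4 * m + 2 * d + 1) + 2)
  else if i ∈ D.I T then (if (D.mh T).2 then 4 * D.rk T i + 6 else 4 * D.rk T i + 4)
  else 2 * (4 * m + 2 * d + 1) + 6

/-- block of a label in the graph `i` -/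
noncomputable def blk (i : Fin k) : VV k n → ℕ
  | Sum.inl (h, c) =>
    if h = i then (if c then 2 * (4 * m + 2 * d + 1) + 5 else 0)
    else if h.val = 0 ∧ c = true ∧ 3 ≤ i.val + d ∧ i.val ≤ m + 2 then
      2 * (2 * m + 2 + 2 * (i.val + d - 3)) + 2
    else 2 * (4 * m + 2 * d + 1) + 6
  | Sum.inr (Sum.inl (T, _)) => D.tblk T i
  | Sum.inr (Sum.inr j) =>
    if j = 0 then
      (if i.val = 0 then 2 * (4 * m + 2 * d + 1) + 4
       else if 3 ≤ i.val ∧ i.val ≤ m + 2 then 2 * (1 + 2 * (i.val - 3)) + 2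
       else 2 * (4 * m + 2 * d + 1) + 6)
    else if j = 1 then
      (if 3 ≤ i.val ∧ i.val ≤ 2 * m + d + 2 then
         (if d = 1 then 4 * (i.val - 3) + 4 else 4 * (i.val - 3) + 6)
       else if i.val = 2 ∧ d = 1 then 2 * (4 * m + 2 * d + 1) + 2
       else if i.val = 0 ∧ d = 0 then 2
       else 2 * (4 * m + 2 * d + 1) + 6)
    else
      (if 3 ≤ i.val ∧ i.val ≤ 2 * m + d + 2 then 4 * (i.val - 3) + 6
       else if i.val = 2 ∧ d = 1 then 2
       else if i.val = 0 ∧ d = 0 then 2
       else 2 * (4 * m + 2 * d + 1) + 6)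

/-- order of the labels -/
def ord : VV k n → ℕ
  | Sum.inl (h, c) => if h.val = 0 ∧ c = true then 2 else 4 + 2 * n + 2 * h.val + c.toNat
  | Sum.inr (Sum.inl (T, c)) => 4 + 2 * T.val + c.toNat
  | Sum.inr (Sum.inr j) => if j = 0 then 3 else if j = 1 then 0 else 1

/-- attachments -/
def att (i : Fin k) : UU k (4 * m + 2 * d + 1) → Option (VV k n × VV k n)
  | Sum.inl u => if u.1 = i then none else
      match spc m d n D.o i u with
      | some p => some p
      | none => match D.f i u with
        | some T => some (tw T false, tw T true)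
        | none => none
  | Sum.inr _ => none

/-- core index -/
def cix (i : Fin k) : UU k (4 * m + 2 * d + 1) → Option ℕ
  | Sum.inl u => if u.1 = i then some (if u.2 then 4 * m + 2 * d + 2 else 0) else none
  | Sum.inr z => some (z.val + 1)

lemma tblk_or (T : Fin n) (i : Fin k) :
    (∃ l, 1 ≤ l ∧ l ≤ 4 * m + 2 * d + 1 + 1 ∧ D.tblk T i = 2 * l) ∨
      D.tblk T i = 2 * (4 * m + 2 * d + 1) + 6 := by
  unfold tblk
  have := D.hm
  split_ifs with h1 h2 h3 h4
  · left; exact ⟨1, by omega, by omega, by omega⟩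
  · left; exact ⟨4 * m + 2 * d + 1 + 1, by omega, by omega, by omega⟩
  · left
    have := D.rk_lt T i h3
    exact ⟨2 * D.rk T i + 3, by omega, by omega, by omega⟩
  · left
    have := D.rk_lt T i h3
    exact ⟨2 * D.rk T i + 2, by omega, by omega, by omega⟩
  · right; rfl

lemma blk_cases (i : Fin k) (v : VV k n) :
    (∃ l, 1 ≤ l ∧ l ≤ 4 * m + 2 * d + 1 + 1 ∧ D.blk i v = 2 * l) ∨
      D.blk i v = 2 * (4 * m + 2 * d + 1) + 6 ∨
      (v = gt i false ∧ D.blk i v = 0) ∨
      (v = gt i true ∧ D.blk i v = 2 * (4 * m + 2 * d + 1) + 5) ∨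
      (v = sw ∧ i.val = 0 ∧ D.blk i v = 2 * (4 * m + 2 * d + 1) + 4) := by
  have hm := D.hm
  have hd := D.hd
  rcases v with ⟨h, c⟩ | ⟨T, c⟩ | j
  · by_cases e : h = i
    · subst e
      cases c
      · right; right; left; simp [blk]
      · right; right; right; left; simp [blk]
    · by_cases e2 : h.val = 0 ∧ c = true ∧ 3 ≤ i.val + d ∧ i.val ≤ m + 2
      · left
        refine ⟨2 * m + 2 + 2 * (i.val + d - 3) + 1, by omega, by omega, ?_⟩
        simp only [blk, if_neg e, if_pos e2]
        omega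
      · right; left
        simp only [blk, if_neg e, if_neg e2]
  · rcases D.tblk_or T i with h | h
    · left; exact h
    · right; left; exact h
  · have hj : j = 0 ∨ j = 1 ∨ j = 2 := by omega
    rcases hj with rfl | rfl | rfl
    · by_cases e : i.val = 0
      · right; right; right; right
        refine ⟨rfl, e, ?_⟩
        simp [blk, e]
      · by_cases e2 : 3 ≤ i.val ∧ i.val ≤ m + 2
        · left
          refine ⟨1 + 2 * (i.val - 3) + 1, by omega, by omega, ?_⟩
          simp only [blk, if_neg e, if_pos e2, if_true]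
          omega
        · right; left
          simp [blk, if_neg e, if_neg e2]
    · simp only [blk]
      have : (1 : Fin 3) ≠ 0 := by decide
      simp only [if_neg this, if_true]
      split_ifs with h1 h2 h3 h4
      · left; exact ⟨2 * (i.val - 3) + 2, by omega, by omega, by omega⟩
      · left; exact ⟨2 * (i.val - 3) + 3, by omega, by omega, by omega⟩
      · left; exact ⟨4 * m + 2 * d + 1 + 1, by omega, by omega, by omega⟩
      · left; exact ⟨1, by omega, by omega, by omega⟩
      · right; left; rfl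
    · simp only [blk]
      have h20 : (2 : Fin 3) ≠ 0 := by decide
      have h21 : (2 : Fin 3) ≠ 1 := by decide
      simp only [if_neg h20, if_neg h21]
      split_ifs with h1 h2 h3
      · left; exact ⟨2 * (i.val - 3) + 3, by omega, by omega, by omega⟩
      · left; exact ⟨1, by omega, by omega, by omega⟩
      · left; exact ⟨1, by omega, by omega, by omega⟩
      · right; left; rfl

lemma ord_inj : Function.Injective (ord : VV k n → ℕ) := by
  rintro (⟨h, c⟩ | ⟨T, c⟩ | j) (⟨h', c'⟩ | ⟨T', c'⟩ | j') e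
  · have key : ∀ (h h' : Fin k) (c c' : Bool), ord (gt h c : VV k n) = ord (gt h' c' : VV k n) →
        h = h' ∧ c = c' := by
      intro h h' c c' e
      simp only [ord] at e
      cases c <;> cases c' <;> simp at e ⊢ <;>
        first | omega | exact Fin.ext e | (split_ifs at e <;> omega)
    obtain ⟨rfl, rfl⟩ := key _ _ _ _ e
    rfl
  · exfalso
    simp only [ord] at e
    have := T'.2
    have : c'.toNat ≤ 1 := by cases c' <;> simp
    split_ifs at e <;> omega
  · exfalso
    simp only [ord] at e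
    split_ifs at e <;> omega
  · exfalso
    simp only [ord] at e
    have := T.2
    have : c.toNat ≤ 1 := by cases c <;> simp
    split_ifs at e <;> omega
  · simp only [ord] at e
    cases c <;> cases c' <;> simp at e ⊢ <;> first | omega | exact Fin.ext (by omega)
  · exfalso
    simp only [ord] at e
    split_ifs at e <;> omega
  · exfalso
    simp only [ord] at e
    split_ifs at e <;> omega
  · exfalso
    simp only [ord] at e
    split_ifs at e <;> omega
  · simp only [ord] at e
    have : j = j' := by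
      split_ifs at e <;> omega
    rw [this]

lemma att_cases (i : Fin k) (u : UU k (4 * m + 2 * d + 1)) (v v' : VV k n)
    (h : D.att i u = some (v, v')) :
    (∃ w : Fin k × Bool, u = Sum.inl w ∧ w.1 ≠ i) ∧
    ((∃ T, v = tw T false ∧ v' = tw T true) ∨ (i.val = 1 ∧ v = sa ∧ v' = sb) ∨
      (i.val = 1 ∧ v = gt D.o true ∧ v' = sw) ∨ (i.val = 1 ∧ v = sb ∧ v' = gt D.o true) ∨
      (i.val = 0 ∧ v = sw ∧ v' = gt D.o true) ∨
      (i.val = 0 ∧ d = 1 ∧ v = gt D.o true ∧ v' = sa)) := by
  rcases u with u | z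
  · by_cases e : u.1 = i
    · simp [att, e] at h
    · refine ⟨⟨u, rfl, e⟩, ?_⟩
      simp only [att, if_neg e] at h
      cases hs : spc m d n D.o i u with
      | some p =>
        rw [hs] at h
        simp only [Option.some.injEq] at h
        rw [h] at hs
        simp only [spc] at hs
        split_ifs at hs with h1 h2 h3 h4 h5 h6 h7 h8
        all_goals simp only [Option.some.injEq, Prod.mk.injEq] at hs
        · right; left; exact ⟨h1, hs.1.symm, hs.2.symm⟩
        · right; right; left; exact ⟨h1, hs.1.symm, hs.2.symm⟩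
        · right; left; exact ⟨h1, hs.1.symm, hs.2.symm⟩
        · right; right; right; left; exact ⟨h1, hs.1.symm, hs.2.symm⟩
        · right; right; right; right; left; exact ⟨h6, hs.1.symm, hs.2.symm⟩
        · right; right; right; right; right; exact ⟨h6, h8.2.2, hs.1.symm, hs.2.symm⟩
      | none =>
        rw [hs] at h
        simp only at h
        cases hf : D.f i u with
        | some T =>
          rw [hf] at h
          simp only [Option.some.injEq, Prod.mk.injEq] at h
          left; exact ⟨T, h.1.symm, h.2.symm⟩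
        | none => rw [hf] at h; simp at h
  · simp [att] at h

lemma att_props (i : Fin k) (u : UU k (4 * m + 2 * d + 1)) (v v' : VV k n)
    (h : D.att i u = some (v, v')) :
    (D.blk i v = D.blk i v' ∧ ord v' = ord v + 1) ∨
    (v = sw ∧ v' = gt i true ∧ i.val = 0) ∨ (v = gt i true ∧ v' = sa ∧ i.val = 0 ∧ d = 1) := by
  have hk := D.hk
  have hm := D.hm
  have hd := D.hd
  have ho := D.ho
  obtain ⟨-, h0⟩ := D.att_cases i u v v' h
  clear h
  rcases h0 with ⟨T, rfl, rfl⟩ | ⟨h, rfl, rfl⟩ | ⟨h, rfl, rfl⟩ | ⟨h, rfl, rfl⟩ | ⟨h, rfl, rfl⟩ |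
    ⟨h, h', rfl, rfl⟩
  · left
    refine ⟨rfl, ?_⟩
    simp [ord]
  · left
    refine ⟨?_, ?_⟩
    · simp [blk, h]
    · simp [ord]
  · left
    have e : D.o ≠ i := fun e => by rw [e] at ho; omega
    have e1 : ¬ (3 ≤ 1 + d) := by omega
    refine ⟨?_, ?_⟩
    · simp [blk, h, e, ho, e1]
    · simp [ord, ho]
  · left
    have e : D.o ≠ i := fun e => by rw [e] at ho; omega
    have e1 : ¬ (3 ≤ 1 + d) := by omega
    refine ⟨?_, ?_⟩
    · simp [blk, h, e, ho, e1]
    · simp [ord, ho]
  · have e : D.o = i := Fin.ext (by omega)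
    right; left; exact ⟨rfl, by rw [e], h⟩
  · have e : D.o = i := Fin.ext (by omega)
    right; right; exact ⟨by rw [e], rfl, h, h'⟩

/-- the slice of the graph `i` -/
noncomputable def slice (i : Fin k) : Slice (UU k (4 * m + 2 * d + 1)) (VV k n) where
  q := 4 * m + 2 * d + 1
  t := if i.val = 0 then 2 * m + 1 else 4 * m + 2 * d + 2
  cix := cix i
  idx := fun u => (Fintype.equivFin _ u : ℕ)
  blk := D.blk i
  ord := ord
  att := D.att i
  tq := by split_ifs <;> omega
  cix_le := by
    rintro (u | z) l h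
    · simp only [cix] at h
      by_cases e : u.1 = i
      · rw [if_pos e] at h
        simp only [Option.some.injEq] at h
        rw [← h]; split_ifs <;> omega
      · rw [if_neg e] at h; simp at h
    · simp only [cix, Option.some.injEq] at h
      have := z.2
      omega
  cix_inj := by
    rintro (u | z) (u' | z') l h h'
    · simp only [cix] at h h'
      by_cases e : u.1 = i
      · by_cases e' : u'.1 = i
        · rw [if_pos e] at h
          rw [if_pos e'] at h'
          simp only [Option.some.injEq] at h h'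
          have : u.2 = u'.2 := by
            cases h2 : u.2 <;> cases h2' : u'.2 <;> rw [h2] at h <;> rw [h2'] at h' <;>
              simp at h h' ⊢ <;> omega
          rw [Prod.ext (e.trans e'.symm) this]
        · rw [if_neg e'] at h'; simp at h'
      · rw [if_neg e] at h; simp at h
    · simp only [cix] at h h'
      by_cases e : u.1 = i
      · rw [if_pos e] at h
        simp only [Option.some.injEq] at h h'
        have := z'.2
        split_ifs at h <;> omega
      · rw [if_neg e] at h; simp at h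
    · simp only [cix] at h h'
      by_cases e : u'.1 = i
      · rw [if_pos e] at h'
        simp only [Option.some.injEq] at h h'
        have := z.2
        split_ifs at h' <;> omega
      · rw [if_neg e] at h'; simp at h'
    · simp only [cix, Option.some.injEq] at h h'
      rw [Fin.ext (show z.val = z'.val by omega)]
  idx_inj := by
    intro u u' h
    exact (Fintype.equivFin _).injective (Fin.ext h)
  ord_inj := ord_inj
  blk_le := by
    intro v
    rcases D.blk_cases i v with ⟨l, h1, h2, h3⟩ | h | ⟨-, h⟩ | ⟨-, h⟩ | ⟨-, -, h⟩ <;> omega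
  blk_core := by
    intro v l hl
    rcases D.blk_cases i v with ⟨l, h1, h2, h3⟩ | h | ⟨-, h⟩ | ⟨-, h⟩ | ⟨-, -, h⟩ <;> omega
  uniq0 := by
    intro v v' h h'
    have k1 : v = gt i false := by
      rcases D.blk_cases i v with ⟨l, h1, h2, h3⟩ | h2 | ⟨h1, h2⟩ | ⟨h1, h2⟩ | ⟨h1, -, h2⟩
      · omega
      · omega
      · exact h1
      · omega
      · omega
    have k2 : v' = gt i false := by
      rcases D.blk_cases i v' with ⟨l, h1, h2, h3⟩ | h2 | ⟨h1, h2⟩ | ⟨h1, h2⟩ | ⟨h1, -, h2⟩
      · omega
      · omega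
      · exact h1
      · omega
      · omega
    rw [k1, k2]
  uniq4 := by
    intro v v' h h'
    have k1 : v = sw := by
      rcases D.blk_cases i v with ⟨l, h1, h2, h3⟩ | h2 | ⟨h1, h2⟩ | ⟨h1, h2⟩ | ⟨h1, -, h2⟩
      · omega
      · omega
      · omega
      · omega
      · exact h1
    have k2 : v' = sw := by
      rcases D.blk_cases i v' with ⟨l, h1, h2, h3⟩ | h2 | ⟨h1, h2⟩ | ⟨h1, h2⟩ | ⟨h1, -, h2⟩
      · omega
      · omega
      · omega
      · omega
      · exact h1
    rw [k1, k2]
  uniq5 := by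
    intro v v' h h'
    have k1 : v = gt i true := by
      rcases D.blk_cases i v with ⟨l, h1, h2, h3⟩ | h2 | ⟨h1, h2⟩ | ⟨h1, h2⟩ | ⟨h1, -, h2⟩
      · omega
      · omega
      · omega
      · exact h1
      · omega
    have k2 : v' = gt i true := by
      rcases D.blk_cases i v' with ⟨l, h1, h2, h3⟩ | h2 | ⟨h1, h2⟩ | ⟨h1, h2⟩ | ⟨h1, -, h2⟩
      · omega
      · omega
      · omega
      · exact h1
      · omega
    rw [k1, k2]
  att_cix := by
    intro u v v' h
    obtain ⟨⟨w, rfl, hw⟩, -⟩ := D.att_cases i u v v' h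
    simp [cix, hw]
  att_lt := by
    intro u v v' h
    rcases D.att_props i u v v' h with ⟨h1, h2⟩ | ⟨rfl, rfl, h1⟩ | ⟨rfl, rfl, h1, h2⟩
    · omega
    · left; simp [blk, h1]
    · left; simp [blk, h1, h2]
  att_core := by
    intro u v v' l h hl
    rcases D.att_props i u v v' h with ⟨h1, h2⟩ | ⟨rfl, rfl, h1⟩ | ⟨rfl, rfl, h1, h2⟩
    · omega
    · simp [blk, h1]
    · simp [blk]; omega
  att_cons := by
    intro u v v' w h
    rcases D.att_props i u v v' h with ⟨h1, h2⟩ | ⟨rfl, rfl, h1⟩ | ⟨rfl, rfl, h1, h2⟩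
    · omega
    · have e1 : D.blk i (sw : VV k n) = 2 * (4 * m + 2 * d + 1) + 4 := by simp [blk, h1]
      have e2 : D.blk i (gt i true : VV k n) = 2 * (4 * m + 2 * d + 1) + 5 := by simp [blk]
      rcases D.blk_cases i w with ⟨l, h1, h2, h3⟩ | h2 | ⟨h1, h2⟩ | ⟨rfl, h2⟩ | ⟨rfl, -, h2⟩
      · omega
      · omega
      · omega
      · omega
      · omega
    · have e1 : D.blk i (sa : VV k n) = 2 * (4 * m + 2 * d + 1) + 6 := by simp [blk, h1, h2]
      have e2 : D.blk i (gt i true : VV k n) = 2 * (4 * m + 2 * d + 1) + 5 := by simp [blk]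
      have e3 : ord (sa : VV k n) = 0 := by simp [ord]
      rcases D.blk_cases i w with ⟨l, h1, h2, h3⟩ | h2 | ⟨h1, h2⟩ | ⟨rfl, h2⟩ | ⟨rfl, -, h2⟩
      · omega
      · omega
      · omega
      · omega
      · omega

end Design

end Pool.Agent.Helper531_Thick
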