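import Pool.Agent.Helper531_Thick.Model

set_option autoImplicit false
set_option linter.unusedSectionVars false

/-!
Counting: a bipartite graph modelled in the grid has at most `2 n - 4` edges.
-/

namespace Pool.Agent.Helper531_Thick

open Finset

namespace Model

variable {A B : Type} [Fintype A] [Fintype B] [DecidableEq A] [DecidableEq B]
  {E : Finset (A × B)} (M : Model A B E)

/-- incidence -/
def inc (w : A ⊕ B) (e : A × B) : ZMod 2 :=
  (if w = Sum.inl e.1 then 1 else 0) + (if w = Sum.inr e.2 then 1 else 0)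

/-- boundary of a set of edges of the graph -/
noncomputable def bG (E : Finset (A × B)) : (E → ZMod 2) →ₗ[ZMod 2] (A ⊕ B → ZMod 2) where
  toFun σ w := ∑ e : E, σ e * inc w e.1
  map_add' σ τ := by
    ext w
    simp only [Pi.add_apply, add_mul, Finset.sum_add_distrib]
  map_smul' c σ := by
    ext w
    simp only [Pi.smul_apply, smul_eq_mul, RingHom.id_apply, Finset.mul_sum, mul_assoc]

/-- the grid chain of a set of edges -/
noncomputable def cyc : (E → ZMod 2) →ₗ[ZMod 2] Ch1 where
  toFun σ := ∑ e : E, σ e • M.C e.1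
  map_add' σ τ := by
    simp only [Pi.add_apply, add_smul, Finset.sum_add_distrib]
  map_smul' c σ := by
    simp only [Pi.smul_apply, smul_eq_mul, RingHom.id_apply, Finset.smul_sum, mul_smul]

lemma bd_cyc (σ : E → ZMod 2) :
    bd (M.cyc σ) = ∑ w : A ⊕ B, bG E σ w • (Finsupp.single (M.o w) 1 : Ch0) := by
  simp only [cyc, bG, LinearMap.coe_mk, AddHom.coe_mk, map_sum, map_smul, Finset.sum_smul]
  rw [Finset.sum_comm]
  apply Finset.sum_congr rfl
  intro e _
  rw [M.bdC e.1 e.2]
  simp only [inc, mul_add, add_smul, Finset.sum_add_distrib, mul_ite, mul_one, mul_zero, ite_smul,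
    zero_smul]
  simp only [Finset.sum_ite_eq', Finset.mem_univ, if_true, smul_add]

lemma bd_cyc_ker (σ : LinearMap.ker (bG E)) : bd (M.cyc σ.1) = 0 := by
  rw [M.bd_cyc]
  have : bG E σ.1 = 0 := σ.2
  simp [this]

/-- the potential of a cell, as a functional on the cycle space -/
noncomputable def F (x : Pt) : LinearMap.ker (bG E) →ₗ[ZMod 2] ZMod 2 :=
  (pot x).comp (M.cyc.comp (LinearMap.ker (bG E)).subtype)

lemma F_edge (g : Ed) (σ : LinearMap.ker (bG E)) :
    M.F (cell1 g) σ + M.F (cell2 g) σ = M.cyc σ.1 g := by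
  have := pot_cycle (M.cyc σ.1) (M.bd_cyc_ker σ) g
  exact this

lemma cyc_apply (σ : E → ZMod 2) (g : Ed) : M.cyc σ g = ∑ e : E, σ e * M.C e.1 g := by
  simp [cyc, Finsupp.finsetSum_apply]

lemma cyc_ra (σ : E → ZMod 2) (e : E) : M.cyc σ (M.ra e.1) = σ e := by
  rw [M.cyc_apply, Finset.sum_eq_single e]
  · have h1 := M.ra_ne e.1 e.2
    have h2 : ∀ a : ZMod 2, a ≠ 0 → a = 1 := by decide
    rw [h2 _ h1, mul_one]
  · intro e' _ hne
    have : M.C e'.1 (M.ra e.1) = 0 := by
      by_contra h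
      exact hne (Subtype.ext (M.ra_only e.2 e'.2 h).symm)
    rw [this, mul_zero]
  · simp

lemma F_ra (e : E) (σ : LinearMap.ker (bG E)) :
    M.F (cell1 (M.ra e.1)) σ + M.F (cell2 (M.ra e.1)) σ = σ.1 e := by
  rw [M.F_edge, M.cyc_ra]

lemma rank_ge [Nonempty (A ⊕ B)] : E.card + 1 ≤
    Fintype.card (A ⊕ B) + Module.finrank (ZMod 2) (LinearMap.ker (bG E)) := by
  have h1 := LinearMap.finrank_range_add_finrank_ker (bG E)
  have h2 : Module.finrank (ZMod 2) (E → ZMod 2) = E.card := by simp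
  -- the sum functional
  let φ : (A ⊕ B → ZMod 2) →ₗ[ZMod 2] ZMod 2 :=
    { toFun := fun f => ∑ w, f w
      map_add' := fun f g => by simp [Finset.sum_add_distrib]
      map_smul' := fun c f => by
        simp only [Pi.smul_apply, smul_eq_mul, RingHom.id_apply, Finset.mul_sum] }
  have h3 : LinearMap.range (bG E) ≤ LinearMap.ker φ := by
    rintro _ ⟨σ, rfl⟩
    rw [LinearMap.mem_ker]
    change ∑ w, ∑ e : E, σ e * inc w e.1 = 0
    rw [Finset.sum_comm]
    apply Finset.sum_eq_zero
    intro e _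
    rw [← Finset.mul_sum]
    simp only [inc, Finset.sum_add_distrib, Finset.sum_ite_eq', Finset.mem_univ, if_true]
    have : (1 : ZMod 2) + 1 = 0 := by decide
    rw [this, mul_zero]
  have h4 := Submodule.finrank_mono h3
  have h5 := LinearMap.finrank_range_add_finrank_ker φ
  have h6 : LinearMap.range φ = ⊤ := by
    rw [LinearMap.range_eq_top]
    intro c
    obtain ⟨w⟩ := (inferInstance : Nonempty (A ⊕ B))
    refine ⟨Pi.single w c, ?_⟩
    change ∑ w', (Pi.single w c : A ⊕ B → ZMod 2) w' = c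
    simp
  rw [h6, finrank_top, Module.finrank_self, Module.finrank_fintype_fun_eq_card] at h5
  omega

open Classical in
/-- the values of the potential at the edges -/
noncomputable def vals : Finset (LinearMap.ker (bG E) →ₗ[ZMod 2] ZMod 2) :=
  (Finset.univ.filter (fun e : E => ∃ σ : LinearMap.ker (bG E), σ.1 e ≠ 0)).biUnion
    (fun e => {M.F (cell1 (M.ra e.1)), M.F (cell2 (M.ra e.1))})

open Classical in
/-- the indicator of a region -/
noncomputable def ind (ψ : LinearMap.ker (bG E) →ₗ[ZMod 2] ZMod 2) (x : Pt) : ZMod 2 :=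
  if M.F x = ψ then 1 else 0

lemma ind_supp (ψ : LinearMap.ker (bG E) →ₗ[ZMod 2] ZMod 2) (g : Ed)
    (h : M.ind ψ (cell1 g) + M.ind ψ (cell2 g) ≠ 0) : ∃ e ∈ E, M.C e g ≠ 0 := by
  by_contra hc
  push Not at hc
  apply h
  have h1 : M.F (cell1 g) = M.F (cell2 g) := by
    ext σ
    have h2 := M.F_edge g σ
    rw [M.cyc_apply, Finset.sum_eq_zero (fun e _ => by rw [hc e.1 e.2, mul_zero])] at h2
    have h3 : ∀ a b : ZMod 2, a + b = 0 → a = b := by decide
    exact h3 _ _ h2
  unfold ind
  rw [h1]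
  exact z2 _

lemma ind_mem (ψ : LinearMap.ker (bG E) →ₗ[ZMod 2] ZMod 2) (g : Ed)
    (h : M.ind ψ (cell1 g) + M.ind ψ (cell2 g) ≠ 0) :
    ψ = M.F (cell1 g) ∨ ψ = M.F (cell2 g) := by
  by_contra hc
  push Not at hc
  apply h
  unfold ind
  rw [if_neg (fun h => hc.1 h.symm), if_neg (fun h => hc.2 h.symm)]
  rfl

lemma four_vals : 4 * M.vals.card ≤ 2 * E.card := by
  classical
  have h1 : ∀ ψ ∈ M.vals, 4 ≤ (E.filter (fun e =>
      M.ind ψ (cell1 (M.ra e)) + M.ind ψ (cell2 (M.ra e)) ≠ 0)).card := by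
    intro ψ hψ
    simp only [vals, mem_biUnion, mem_filter, mem_univ, true_and, mem_insert,
      mem_singleton] at hψ
    obtain ⟨e, ⟨σ, hσ⟩, hψ⟩ := hψ
    have hne : M.F (cell1 (M.ra e.1)) ≠ M.F (cell2 (M.ra e.1)) := by
      intro h
      apply hσ
      rw [← M.F_ra e σ, h]
      exact z2 _
    apply M.four_le (M.ind ψ) (M.ind_supp ψ) e.1 e.2
    rcases hψ with rfl | rfl
    · unfold ind
      rw [if_pos rfl, if_neg hne.symm]
      decide
    · unfold ind
      rw [if_neg hne, if_pos rfl]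
      decide
  have h2 : ∑ ψ ∈ M.vals, (E.filter (fun e =>
      M.ind ψ (cell1 (M.ra e)) + M.ind ψ (cell2 (M.ra e)) ≠ 0)).card =
      ∑ e ∈ E, (M.vals.filter (fun ψ =>
        M.ind ψ (cell1 (M.ra e)) + M.ind ψ (cell2 (M.ra e)) ≠ 0)).card :=
    Finset.sum_card_bipartiteAbove_eq_sum_card_bipartiteBelow _
  have h3 : ∀ e ∈ E, (M.vals.filter (fun ψ =>
      M.ind ψ (cell1 (M.ra e)) + M.ind ψ (cell2 (M.ra e)) ≠ 0)).card ≤ 2 := by
    intro e _
    have : (M.vals.filter (fun ψ =>
      M.ind ψ (cell1 (M.ra e)) + M.ind ψ (cell2 (M.ra e)) ≠ 0)) ⊆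
      {M.F (cell1 (M.ra e)), M.F (cell2 (M.ra e))} := by
      intro ψ hψ
      simp only [mem_filter] at hψ
      simp only [mem_insert, mem_singleton]
      exact M.ind_mem ψ _ hψ.2
    exact (Finset.card_le_card this).trans Finset.card_le_two
  have h4 := Finset.sum_le_sum h1
  have h5 := Finset.sum_le_sum h3
  rw [h2] at h4
  simp only [Finset.sum_const, smul_eq_mul] at h4 h5
  omega

lemma rank_le (hne : M.vals.Nonempty) :
    Module.finrank (ZMod 2) (LinearMap.ker (bG E)) + 1 ≤ M.vals.card := by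
  classical
  obtain ⟨ψ0, hψ0⟩ := hne
  have key : ∀ σ : LinearMap.ker (bG E), (∀ ψ ∈ M.vals, ψ σ + ψ0 σ = 0) → σ = 0 := by
    intro σ h
    have : σ.1 = 0 := by
      ext e
      by_contra h0
      have m1 : M.F (cell1 (M.ra e.1)) ∈ M.vals := by
        simp only [vals, mem_biUnion, mem_filter, mem_univ, true_and, mem_insert, mem_singleton]
        exact ⟨e, ⟨σ, h0⟩, Or.inl rfl⟩
      have m2 : M.F (cell2 (M.ra e.1)) ∈ M.vals := by
        simp only [vals, mem_biUnion, mem_filter, mem_univ, true_and, mem_insert, mem_singleton]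
        exact ⟨e, ⟨σ, h0⟩, Or.inr rfl⟩
      apply h0
      rw [← M.F_ra e σ]
      have e1 := h _ m1
      have e2 := h _ m2
      have : ∀ a b c : ZMod 2, a + c = 0 → b + c = 0 → a + b = 0 := by decide
      exact this _ _ _ e1 e2
    exact Subtype.ext this
  let T : LinearMap.ker (bG E) →ₗ[ZMod 2] ({ψ // ψ ∈ M.vals.erase ψ0} → ZMod 2) :=
    { toFun := fun σ ψ => ψ.1 σ + ψ0 σ
      map_add' := fun σ τ => by
        ext ψ
        simp only [map_add, Pi.add_apply]
        ring
      map_smul' := fun c σ => by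
        ext ψ
        simp only [map_smul, Pi.smul_apply, smul_eq_mul, RingHom.id_apply]
        ring }
  have hT : Function.Injective T := by
    rw [← LinearMap.ker_eq_bot, LinearMap.ker_eq_bot']
    intro σ hσ
    apply key
    intro ψ hψ
    by_cases e : ψ = ψ0
    · rw [e]; exact z2 _
    · have := congrFun hσ ⟨ψ, Finset.mem_erase.2 ⟨e, hψ⟩⟩
      exact this
  have h1 := LinearMap.finrank_le_finrank_of_injective hT
  rw [Module.finrank_fintype_fun_eq_card, Fintype.card_coe, Finset.card_erase_of_mem hψ0] at h1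
  have h2 : 0 < M.vals.card := Finset.card_pos.2 ⟨ψ0, hψ0⟩
  omega

lemma rank_zero (hne : ¬ M.vals.Nonempty) :
    Module.finrank (ZMod 2) (LinearMap.ker (bG E)) = 0 := by
  classical
  rw [Module.finrank_eq_zero_iff_of_free]
  refine ⟨fun σ τ => ?_⟩
  have key : ∀ σ : LinearMap.ker (bG E), σ = 0 := by
    intro σ
    apply Subtype.ext
    ext e
    by_contra h0
    apply hne
    refine ⟨M.F (cell1 (M.ra e.1)), ?_⟩
    simp only [vals, mem_biUnion, mem_filter, mem_univ, true_and, mem_insert, mem_singleton]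
    exact ⟨e, ⟨σ, h0⟩, Or.inl rfl⟩
  rw [key σ, key τ]

include M in
/-- **Edge bound.** -/
theorem card_le (h3 : 3 ≤ Fintype.card A + Fintype.card B) :
    E.card + 4 ≤ 2 * (Fintype.card A + Fintype.card B) := by
  have hcard : Fintype.card (A ⊕ B) = Fintype.card A + Fintype.card B := Fintype.card_sum
  have : Nonempty (A ⊕ B) := Fintype.card_pos_iff.1 (by omega)
  have h1 := rank_ge (A := A) (B := B) (E := E)
  by_cases hne : M.vals.Nonempty
  · have h2 := M.rank_le hne
    have h4 := M.four_vals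
    omega
  · have h2 := M.rank_zero hne
    omega

end Model

end Pool.Agent.Helper531_Thick
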