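import Mathlib

set_option autoImplicit false

/-!
Choosing sets with prescribed degrees.
-/

namespace Pool.Agent.Helper531_Thick

open Finset

lemma exists_le_sum {ι : Type} [Fintype ι] [DecidableEq ι] (f : ι → ℕ) (D N : ℕ)
    (h : ∑ i, f i = N + D) : ∃ g : ι → ℕ, (∀ i, g i ≤ f i) ∧ ∑ i, g i = N := by
  induction D generalizing N with
  | zero => exact ⟨f, fun _ => le_rfl, by simpa using h⟩
  | succ D ih =>
    obtain ⟨g, hg, hs⟩ := ih (N + 1) (by omega)
    have : ∃ i, 0 < g i := by
      by_contra hc
      push Not at hc
      have : ∑ i, g i = 0 := Finset.sum_eq_zero (fun i _ => by have := hc i; omega)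
      omega
    obtain ⟨i, hi⟩ := this
    refine ⟨Function.update g i (g i - 1), fun j => ?_, ?_⟩
    · by_cases e : j = i
      · subst e; simp; have := hg j; omega
      · simp [e, hg j]
    · rw [Finset.sum_update_of_mem (Finset.mem_univ i)]
      have := Finset.add_sum_erase Finset.univ g (Finset.mem_univ i)
      rw [Finset.sdiff_singleton_eq_erase]
      omega

lemma exists_fibers {ι : Type} [Fintype ι] [DecidableEq ι] (n : ℕ) (B : ι → ℕ)
    (h : ∑ i, B i = n) :
    ∃ u : Fin n → ι, ∀ x, (univ.filter (fun T => u T = x)).card = B x := by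
  have hc : Fintype.card (Fin n) = Fintype.card (Σ x, Fin (B x)) := by simp [h]
  obtain ⟨e⟩ := Fintype.card_eq.1 hc
  refine ⟨fun T => (e T).1, fun x => ?_⟩
  rw [← Fintype.card_fin (B x), ← Finset.card_univ]
  symm
  apply Finset.card_bij (fun (j : Fin (B x)) _ => e.symm ⟨x, j⟩)
  · intro j _; simp
  · intro j _ j' _ hj
    have := e.symm.injective hj
    simpa using this
  · intro T hT
    simp only [mem_filter, mem_univ, true_and] at hT
    subst hT
    exact ⟨(e T).2, mem_univ _, by simp⟩

/-- Filling lemma. -/
lemma fill {ι : Type} [Fintype ι] [DecidableEq ι] (α : ℕ) :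
    ∀ (n : ℕ) (ρ : Fin n → ι) (a : ι → ℕ), ∑ h, a h = α * n →
      (∀ h, a h + ∑ T, (if ρ T = h then 1 else 0) ≤ n) →
      ∃ I : Fin n → Finset ι, (∀ T, (I T).card = α) ∧ (∀ T, ρ T ∉ I T) ∧
        ∀ h, ∑ T, (if h ∈ I T then 1 else 0) = a h := by
  intro n
  induction n with
  | zero =>
    intro ρ a hs _
    refine ⟨fun _ => ∅, fun T => T.elim0, fun T => T.elim0, fun h => ?_⟩
    have : a h ≤ ∑ h, a h := Finset.single_le_sum (fun _ _ => Nat.zero_le _) (mem_univ h)
    simp; omega
  | succ n ih =>
    intro ρ a hs hb
    set f := ρ 0 with hf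
    set c : ι → ℕ := fun h => ∑ T : Fin n, (if ρ T.succ = h then 1 else 0) with hc
    have hb' : ∀ h, a h + ((if f = h then 1 else 0) + c h) ≤ n + 1 := by
      intro h
      have := hb h
      rw [Fin.sum_univ_succ] at this
      exact this
    have hcs : ∑ h, c h = n := by
      simp only [hc]
      rw [Finset.sum_comm]
      simp
    set Q : Finset ι := univ.filter (fun h => h ≠ f ∧ 0 < a h) with hQ
    set S : Finset ι := univ.filter (fun h => h ≠ f ∧ 0 < a h ∧ a h + c h = n + 1) with hS
    have hSQ : S ⊆ Q := by
      intro h hh
      simp only [hQ, hS, mem_filter, mem_univ, true_and] at hh ⊢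
      exact ⟨hh.1, hh.2.1⟩
    have hQc : α ≤ Q.card := by
      have h1 : ∑ h, a h ≤ ∑ h ∈ Q, a h + a f := by
        rw [← Finset.add_sum_erase univ a (mem_univ f), add_comm]
        apply Nat.add_le_add_right
        have : ∑ h ∈ univ.erase f, a h = ∑ h ∈ Q, a h := by
          symm
          apply Finset.sum_subset
          · intro h hh
            simp only [hQ, mem_filter, mem_univ, true_and] at hh
            simp [hh.1]
          · intro h hh hh2
            simp only [hQ, mem_filter, mem_univ, true_and, mem_erase, and_true] at hh hh2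
            by_contra h0
            exact hh2 ⟨hh, by omega⟩
        rw [this]
      have h2 : ∑ h ∈ Q, a h ≤ Q.card * (n + 1) := by
        apply Finset.sum_le_card_nsmul
        intro h _
        have := hb' h
        omega
      have h3 : a f ≤ n := by
        have := hb' f
        simp only [if_true] at this
        omega
      by_contra hlt
      push Not at hlt
      have h4 : (Q.card + 1) * (n + 1) ≤ α * (n + 1) := Nat.mul_le_mul_right _ hlt
      rw [hs] at h1
      nlinarith
    have hSc : S.card ≤ α := by
      have h1 : ∑ h ∈ S, (a h + c h) = S.card * (n + 1) := by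
        rw [Finset.sum_const_nat]
        intro h hh
        simp only [hS, mem_filter, mem_univ, true_and] at hh
        exact hh.2.2
      rw [Finset.sum_add_distrib] at h1
      have h2 : ∑ h ∈ S, a h ≤ ∑ h, a h :=
        Finset.sum_le_sum_of_subset (Finset.subset_univ _)
      have h3 : ∑ h ∈ S, c h ≤ ∑ h, c h :=
        Finset.sum_le_sum_of_subset (Finset.subset_univ _)
      by_contra hlt
      push Not at hlt
      have h4 : (α + 1) * (n + 1) ≤ S.card * (n + 1) := Nat.mul_le_mul_right _ hlt
      rw [hs] at h2
      rw [hcs] at h3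
      nlinarith
    obtain ⟨I0, hSI, hIQ, hI0⟩ := Finset.exists_subsuperset_card_eq hSQ hSc hQc
    have hIf : f ∉ I0 := by
      intro h
      have := hIQ h
      simp [hQ] at this
    have hIpos : ∀ h ∈ I0, 0 < a h := by
      intro h hh
      have := hIQ hh
      simp only [hQ, mem_filter, mem_univ, true_and] at this
      exact this.2
    set a' : ι → ℕ := fun h => a h - (if h ∈ I0 then 1 else 0) with ha'
    have ha'' : ∀ h, a' h + (if h ∈ I0 then 1 else 0) = a h := by
      intro h
      simp only [ha']
      split_ifs with hh
      · have := hIpos h hh; omega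
      · simp
    obtain ⟨I, hI1, hI2, hI3⟩ := ih (fun T => ρ T.succ) a' (by
      have h1 : ∑ h, a' h + ∑ h, (if h ∈ I0 then 1 else 0) = ∑ h, a h := by
        rw [← Finset.sum_add_distrib]
        exact Finset.sum_congr rfl (fun h _ => ha'' h)
      have h2 : ∑ h, (if h ∈ I0 then 1 else 0) = α := by
        rw [← hI0]
        simp
      rw [h2, hs] at h1
      have : α * (n + 1) = α * n + α := by ring
      omega) (by
      intro h
      have h1 := hb' h
      have h2 := ha'' h
      change a' h + c h ≤ n
      by_cases e1 : h ∈ I0
      · rw [if_pos e1] at h2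
        omega
      · rw [if_neg e1] at h2
        by_cases e2 : f = h
        · rw [if_pos e2] at h1
          omega
        · rw [if_neg e2] at h1
          by_contra hgt
          have e3 : a h + c h = n + 1 := by omega
          have e4 : c h ≤ n := by
            rw [← hcs]
            exact Finset.single_le_sum (fun _ _ => Nat.zero_le _) (mem_univ h)
          apply e1
          apply hSI
          simp only [hS, mem_filter, mem_univ, true_and]
          exact ⟨fun e => e2 e.symm, by omega, e3⟩)
    refine ⟨Fin.cons I0 I, ?_, ?_, ?_⟩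
    · intro T
      refine Fin.cases ?_ (fun T => ?_) T
      · simpa using hI0
      · simpa using hI1 T
    · intro T
      refine Fin.cases ?_ (fun T => ?_) T
      · simpa using hIf
      · simpa using hI2 T
    · intro h
      rw [Fin.sum_univ_succ]
      simp only [Fin.cons_zero, Fin.cons_succ]
      rw [hI3 h]
      have := ha'' h
      omega

end Pool.Agent.Helper531_Thick
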