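import Pool.Agent.Helper531_Thick.Book
import Pool.Agent.Helper531_Thick.Chain
import Pool.Agent.Helper531_Thick.Euler

set_option autoImplicit false

/-!
From a plane drawing of a bipartite graph to a model in the square grid.
-/

namespace Pool.Agent.Helper531_Thick

open Finset

lemma exists_pos_le {ι : Type} [Finite ι] (f : ι → ℝ) (hf : ∀ i, 0 < f i) :
    ∃ ρ > 0, ∀ i, ρ ≤ f i := by
  cases isEmpty_or_nonempty ι
  · exact ⟨1, one_pos, fun i => isEmptyElim i⟩
  · obtain ⟨i, hi⟩ := Finite.exists_min f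
    exact ⟨f i, hf i, hi⟩

lemma exists_pos_forall {ι : Type} [Finite ι] (P : ι → ℝ → Prop)
    (hmono : ∀ i ρ ρ', ρ' ≤ ρ → P i ρ → P i ρ') (h : ∀ i, ∃ ρ > 0, P i ρ) :
    ∃ ρ > 0, ∀ i, P i ρ := by
  choose f hf hP using h
  obtain ⟨ρ, hρ, hle⟩ := exists_pos_le f hf
  exact ⟨ρ, hρ, fun i => hmono i _ _ (hle i) (hP i)⟩

/-- rounding -/
noncomputable def rd (δ : ℝ) (z : ℝ × ℝ) : Pt := (⌊z.1 / δ⌋, ⌊z.2 / δ⌋)

def emb (δ : ℝ) (x : Pt) : ℝ × ℝ := (δ * x.1, δ * x.2)

lemma floor_close {δ : ℝ} (hδ : 0 < δ) (a : ℝ) : |δ * (⌊a / δ⌋ : ℤ) - a| ≤ δ := by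
  have h1 := Int.floor_le (a / δ)
  have h2 := Int.lt_floor_add_one (a / δ)
  rw [le_div_iff₀ hδ] at h1
  rw [div_lt_iff₀ hδ] at h2
  rw [abs_le]
  constructor <;> nlinarith

lemma floor_step {δ : ℝ} (hδ : 0 < δ) (a b : ℝ) (h : |a - b| < δ) :
    ⌊a / δ⌋ = ⌊b / δ⌋ ∨ ⌊a / δ⌋ + 1 = ⌊b / δ⌋ ∨ ⌊b / δ⌋ + 1 = ⌊a / δ⌋ := by
  have h1 := Int.floor_le (a / δ)
  have h2 := Int.lt_floor_add_one (a / δ)
  have h3 := Int.floor_le (b / δ)
  have h4 := Int.lt_floor_add_one (b / δ)
  have h5 : |a / δ - b / δ| < 1 := by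
    rw [← sub_div, abs_div, abs_of_pos hδ, div_lt_one hδ]
    exact h
  rw [abs_lt] at h5
  have h6 : (⌊a / δ⌋ : ℝ) < ⌊b / δ⌋ + 2 := by linarith
  have h7 : (⌊b / δ⌋ : ℝ) < ⌊a / δ⌋ + 2 := by linarith
  have h8 : ⌊a / δ⌋ < ⌊b / δ⌋ + 2 := by exact_mod_cast h6
  have h9 : ⌊b / δ⌋ < ⌊a / δ⌋ + 2 := by exact_mod_cast h7
  omega

lemma step_hor (i i' j : ℤ) (h : i = i' ∨ i + 1 = i' ∨ i' + 1 = i) : Step (i, j) (i', j) := by
  rcases h with rfl | rfl | rfl
  · left; rfl
  · right; exact ⟨(i, j, false), Or.inl (by simp [src, tgt])⟩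
  · right; exact ⟨(i', j, false), Or.inr (by simp [src, tgt])⟩

lemma step_ver (i j j' : ℤ) (h : j = j' ∨ j + 1 = j' ∨ j' + 1 = j) : Step (i, j) (i, j') := by
  rcases h with rfl | rfl | rfl
  · left; rfl
  · right; exact ⟨(i, j, true), Or.inl (by simp [src, tgt])⟩
  · right; exact ⟨(i, j', true), Or.inr (by simp [src, tgt])⟩

lemma dist_prod_le {x y : ℝ × ℝ} {r : ℝ} : dist x y ≤ r ↔ |x.1 - y.1| ≤ r ∧ |x.2 - y.2| ≤ r := by
  rw [Prod.dist_eq, max_le_iff, Real.dist_eq, Real.dist_eq]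

lemma dist_prod_lt {x y : ℝ × ℝ} {r : ℝ} : dist x y < r ↔ |x.1 - y.1| < r ∧ |x.2 - y.2| < r := by
  rw [Prod.dist_eq, max_lt_iff, Real.dist_eq, Real.dist_eq]

/-- the grid points in the box of radius `R` about `z` -/
noncomputable def box (δ R : ℝ) (z : ℝ × ℝ) : Finset Pt :=
  Finset.Icc ⌈(z.1 - R) / δ⌉ ⌊(z.1 + R) / δ⌋ ×ˢ Finset.Icc ⌈(z.2 - R) / δ⌉ ⌊(z.2 + R) / δ⌋

lemma mem_box {δ R : ℝ} (hδ : 0 < δ) (z : ℝ × ℝ) (x : Pt) :
    x ∈ box δ R z ↔ dist (emb δ x) z ≤ R := by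
  have key : ∀ (a : ℝ) (n : ℤ), n ∈ Finset.Icc ⌈(a - R) / δ⌉ ⌊(a + R) / δ⌋ ↔
      |δ * n - a| ≤ R := by
    intro a n
    rw [mem_Icc, Int.ceil_le, Int.le_floor, div_le_iff₀ hδ, le_div_iff₀ hδ, abs_le]
    constructor
    · rintro ⟨h1, h2⟩; constructor <;> linarith
    · rintro ⟨h1, h2⟩; constructor <;> linarith
  rw [box, mem_product, key, key, dist_prod_le]
  rfl

/-- a continuous arc gives a grid walk -/
lemma exists_walk (g : unitInterval → ℝ × ℝ) (hg : Continuous g) {δ : ℝ} (hδ : 0 < δ) :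
    ∃ (y : ℕ → Pt) (L : ℕ), (∀ n < L, Step (y n) (y (n + 1))) ∧ y 0 = rd δ (g 0) ∧
      y L = rd δ (g 1) ∧ ∀ n ≤ L, ∃ t, dist (emb δ (y n)) (g t) ≤ 2 * δ := by
  have hu : UniformContinuous g := CompactSpace.uniformContinuous_of_continuous hg
  rw [Metric.uniformContinuous_iff] at hu
  obtain ⟨ρ, hρ, hu⟩ := hu δ hδ
  obtain ⟨N, hN⟩ := exists_nat_one_div_lt hρ
  -- sample points
  let τ : ℕ → unitInterval := fun i => Set.projIcc 0 1 zero_le_one ((i : ℝ) / (N + 1))
  have hτ : ∀ i, dist (g (τ i)) (g (τ (i + 1))) < δ := by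
    intro i
    apply hu
    have h1 : dist (τ i) (τ (i + 1)) ≤ dist ((i : ℝ) / (N + 1)) (((i + 1 : ℕ) : ℝ) / (N + 1)) := by
      have := (LipschitzWith.projIcc (zero_le_one (α := ℝ))).dist_le_mul ((i : ℝ) / (N + 1))
        (((i + 1 : ℕ) : ℝ) / (N + 1))
      simpa [τ] using this
    refine lt_of_le_of_lt h1 ?_
    rw [Real.dist_eq, ← sub_div]
    have h2 : ((i : ℝ) - ((i + 1 : ℕ) : ℝ)) = -1 := by push_cast; ring
    rw [h2, abs_div, abs_neg, abs_one, abs_of_pos (by positivity)]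
    exact hN
  let x : ℕ → Pt := fun i => rd δ (g (τ i))
  have hclose : ∀ z : ℝ × ℝ, |δ * ((rd δ z).1 : ℝ) - z.1| ≤ δ ∧ |δ * ((rd δ z).2 : ℝ) - z.2| ≤ δ :=
    fun z => ⟨floor_close hδ _, floor_close hδ _⟩
  refine ⟨fun n => if n % 2 = 0 then x (n / 2) else ((x (n / 2 + 1)).1, (x (n / 2)).2),
    2 * (N + 1), ?_, ?_, ?_, ?_⟩
  · intro n _
    have hd := hτ (n / 2)
    rw [dist_prod_lt] at hd
    rcases Nat.mod_two_eq_zero_or_one n with h | h
    · have h1 : (n + 1) % 2 = 1 := by omega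
      have h2 : (n + 1) / 2 = n / 2 := by omega
      simp only [h, h1, h2, if_true, one_ne_zero, if_false]
      exact step_hor _ _ _ (floor_step hδ _ _ hd.1)
    · have h1 : (n + 1) % 2 = 0 := by omega
      have h2 : (n + 1) / 2 = n / 2 + 1 := by omega
      simp only [h, h1, h2, if_true, one_ne_zero, if_false]
      exact step_ver _ _ _ (floor_step hδ _ _ hd.2)
  · simp only [Nat.zero_mod, if_true, Nat.zero_div, x, τ, Nat.cast_zero, zero_div]
    rw [Set.projIcc_left]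
    rfl
  · have h1 : (2 * (N + 1)) % 2 = 0 := by omega
    have h2 : (2 * (N + 1)) / 2 = N + 1 := by omega
    simp only [h1, h2, if_true, x, τ]
    have h3 : (((N + 1 : ℕ) : ℝ) / ((N : ℝ) + 1)) = 1 := by
      push_cast
      exact div_self (by positivity)
    rw [h3, Set.projIcc_right]
    rfl
  · intro n _
    refine ⟨τ (n / 2), ?_⟩
    have hd := hτ (n / 2)
    rw [dist_prod_lt] at hd
    rw [dist_prod_le]
    have c1 := hclose (g (τ (n / 2)))
    have c2 := hclose (g (τ (n / 2 + 1)))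
    rcases Nat.mod_two_eq_zero_or_one n with h | h
    · simp only [h, if_true, emb]
      exact ⟨by have := c1.1; simp only [x]; linarith, by have := c1.2; simp only [x]; linarith⟩
    · simp only [h, one_ne_zero, if_false, emb]
      refine ⟨?_, by have := c1.2; simp only [x]; linarith⟩
      have h4 := c2.1
      have h5 := hd.1
      have e : δ * ((x (n / 2 + 1)).1 : ℝ) - (g (τ (n / 2))).1 =
        (δ * ((x (n / 2 + 1)).1 : ℝ) - (g (τ (n / 2 + 1))).1) +
          ((g (τ (n / 2 + 1))).1 - (g (τ (n / 2))).1) := by ring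
      rw [e]
      refine (abs_add_le _ _).trans ?_
      rw [abs_sub_comm] at h5
      simp only [x]
      linarith

/-- positive distance of two disjoint compact pieces -/
lemma exists_sep {P : Type} [TopologicalSpace P] [CompactSpace P] (g : P → ℝ) (hg : Continuous g)
    (S : Set P) (hS : IsClosed S) (hpos : ∀ t ∈ S, 0 < g t) : ∃ ρ > 0, ∀ t ∈ S, ρ ≤ g t := by
  obtain ⟨ρ, h1, h2⟩ := hS.isCompact.exists_forall_le' hg.continuousOn hpos
  exact ⟨ρ, h1, h2⟩

/-- **A plane drawing gives a grid model.** -/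
theorem exists_model {A B : Type} [Fintype A] [Fintype B] (G : SimpleGraph (A ⊕ B))
    (hplane : IsPlane G) (E : Finset (A × B))
    (hE : ∀ e ∈ E, G.Adj (Sum.inl e.1) (Sum.inr e.2)) : Nonempty (Model A B E) := by
  classical
  obtain ⟨p, hp, γ, h1, h2⟩ := hplane
  -- the arcs
  let Γ : A × B → unitInterval → ℝ × ℝ := fun e => γ (Sum.inl e.1) (Sum.inr e.2)
  have gc : ∀ e ∈ E, Continuous (Γ e) := fun e he => (h1 _ _ (hE e he)).1
  have gi : ∀ e ∈ E, Function.Injective (Γ e) := fun e he => (h1 _ _ (hE e he)).2.1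
  have g0 : ∀ e ∈ E, Γ e 0 = p (Sum.inl e.1) := fun e he => (h1 _ _ (hE e he)).2.2.1
  have g1 : ∀ e ∈ E, Γ e 1 = p (Sum.inr e.2) := fun e he => (h1 _ _ (hE e he)).2.2.2.1
  have gn : ∀ e ∈ E, ∀ t, t ≠ 0 → t ≠ 1 → ∀ w, Γ e t ≠ p w :=
    fun e he => (h1 _ _ (hE e he)).2.2.2.2
  have gd : ∀ e ∈ E, ∀ e' ∈ E, e ≠ e' → ∀ t t', t ≠ 0 → t ≠ 1 → t' ≠ 0 → t' ≠ 1 →
      Γ e t ≠ Γ e' t' := by
    intro e he e' he' hne t t' a b c d heq
    rcases h2 _ _ _ _ (hE e he) (hE e' he') t t' a b c d heq with ⟨q1, q2⟩ | ⟨q1, q2⟩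
    · exact hne (Prod.ext (Sum.inl.inj q1) (Sum.inr.inj q2))
    · simp at q1
  -- first radius: distinct vertices
  obtain ⟨R1, hR1, hR1'⟩ := exists_pos_forall
    (fun (w : (A ⊕ B) × (A ⊕ B)) ρ => w.1 ≠ w.2 → ρ ≤ dist (p w.1) (p w.2))
    (fun _ _ _ h h' hw => h.trans (h' hw)) (by
      intro w
      by_cases hw : w.1 = w.2
      · exact ⟨1, one_pos, fun h => absurd hw h⟩
      · exact ⟨dist (p w.1) (p w.2), dist_pos.2 (fun h => hw (hp h)), fun _ => le_rfl⟩)
  -- second radius: arcs and other vertices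
  obtain ⟨R2, hR2, hR2'⟩ := exists_pos_forall
    (fun (w : (A × B) × (A ⊕ B)) ρ => w.1 ∈ E → w.2 ≠ Sum.inl w.1.1 → w.2 ≠ Sum.inr w.1.2 →
      ∀ t, ρ ≤ dist (Γ w.1 t) (p w.2))
    (fun _ _ _ h h' a b c t => h.trans (h' a b c t)) (by
      rintro ⟨e, w⟩
      by_cases hw : e ∈ E ∧ w ≠ Sum.inl e.1 ∧ w ≠ Sum.inr e.2
      · obtain ⟨he, hw1, hw2⟩ := hw
        obtain ⟨ρ, hρ, h⟩ := exists_sep (fun t => dist (Γ e t) (p w))
          ((gc e he).dist continuous_const) Set.univ isClosed_univ (by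
            intro t _
            apply dist_pos.2
            by_cases e0 : t = 0
            · rw [e0, g0 e he]; exact fun h => hw1 (hp h).symm
            · by_cases e1 : t = 1
              · rw [e1, g1 e he]; exact fun h => hw2 (hp h).symm
              · exact gn e he t e0 e1 w)
        exact ⟨ρ, hρ, fun _ _ _ t => h t trivial⟩
      · exact ⟨1, one_pos, fun a b c => absurd ⟨a, b, c⟩ hw⟩)
  obtain ⟨R, hR, hRR1, hRR2⟩ : ∃ R > 0, 8 * R ≤ R1 ∧ 8 * R ≤ R2 :=
    ⟨min R1 R2 / 8, by positivity, by linarith [min_le_left R1 R2],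
      by linarith [min_le_right R1 R2]⟩
  -- distance of the middle parts of two arcs
  obtain ⟨η, hη, hη'⟩ := exists_pos_forall
    (fun (w : (A × B) × (A × B)) ρ => w.1 ∈ E → w.2 ∈ E → w.1 ≠ w.2 → ∀ t t',
      (∀ v, R / 2 ≤ dist (Γ w.1 t) (p v)) → (∀ v, R / 2 ≤ dist (Γ w.2 t') (p v)) →
      ρ ≤ dist (Γ w.1 t) (Γ w.2 t'))
    (fun _ _ _ h h' a b c t t' d d' => h.trans (h' a b c t t' d d')) (by
      rintro ⟨e, e'⟩
      by_cases hw : e ∈ E ∧ e' ∈ E ∧ e ≠ e'
      · obtain ⟨he, he', hne⟩ := hw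
        have c1 : Continuous (fun t : unitInterval × unitInterval => Γ e t.1) :=
          (gc e he).comp continuous_fst
        have c2 : Continuous (fun t : unitInterval × unitInterval => Γ e' t.2) :=
          (gc e' he').comp continuous_snd
        obtain ⟨ρ, hρ, h⟩ := exists_sep (fun t : unitInterval × unitInterval =>
            dist (Γ e t.1) (Γ e' t.2)) (c1.dist c2)
          {t | (∀ v, R / 2 ≤ dist (Γ e t.1) (p v)) ∧ ∀ v, R / 2 ≤ dist (Γ e' t.2) (p v)} (by
            rw [Set.ofPred_and]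
            apply IsClosed.inter
            · rw [Set.ofPred_forall]
              exact isClosed_iInter (fun v =>
                isClosed_le continuous_const (c1.dist continuous_const))
            · rw [Set.ofPred_forall]
              exact isClosed_iInter (fun v =>
                isClosed_le continuous_const (c2.dist continuous_const))) (by
            rintro ⟨t, t'⟩ ⟨ht, ht'⟩
            apply dist_pos.2
            have a0 : t ≠ 0 := by
              intro h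
              have := ht (Sum.inl e.1)
              simp only [h, g0 e he, dist_self] at this
              linarith
            have a1 : t ≠ 1 := by
              intro h
              have := ht (Sum.inr e.2)
              simp only [h, g1 e he, dist_self] at this
              linarith
            have b0 : t' ≠ 0 := by
              intro h
              have := ht' (Sum.inl e'.1)
              simp only [h, g0 e' he', dist_self] at this
              linarith
            have b1 : t' ≠ 1 := by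
              intro h
              have := ht' (Sum.inr e'.2)
              simp only [h, g1 e' he', dist_self] at this
              linarith
            exact gd e he e' he' hne t t' a0 a1 b0 b1)
        exact ⟨ρ, hρ, fun _ _ _ t t' d d' => h (t, t') ⟨d, d'⟩⟩
      · exact ⟨1, one_pos, fun a b c => absurd ⟨a, b, c⟩ hw⟩)
  obtain ⟨δ, hδ, hδR, hδη⟩ : ∃ δ > 0, 8 * δ ≤ R ∧ 8 * δ ≤ η :=
    ⟨min R η / 8, by positivity, by linarith [min_le_left R η],
      by linarith [min_le_right R η]⟩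
  -- boxes
  let D : A ⊕ B → Finset Pt := fun w => box δ R (p w)
  have hD : ∀ w x, x ∈ D w ↔ dist (emb δ x) (p w) ≤ R := fun w x => mem_box hδ (p w) x
  have hDdisj : ∀ w w' x, x ∈ D w → x ∈ D w' → w = w' := by
    intro w w' x hx hx'
    by_contra hne
    rw [hD] at hx hx'
    have := hR1' (w, w') hne
    simp only at this
    have h3 := dist_triangle_left (p w) (p w') (emb δ x)
    linarith
  have hDj : ∀ w, ∀ x ∈ D w, ∀ y ∈ D w, Joined (D w : Set Pt) x y :=
    fun w x hx y hy => joined_box _ _ _ _ x y hx hy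
  have hrd : ∀ z : ℝ × ℝ, dist (emb δ (rd δ z)) z ≤ δ := by
    intro z
    rw [dist_prod_le]
    exact ⟨floor_close hδ _, floor_close hδ _⟩
  have hoD : ∀ w, rd δ (p w) ∈ D w := by
    intro w
    rw [hD]
    have := hrd (p w)
    linarith
  -- data of an edge
  have hdata : ∀ e ∈ E, ∃ (K : Finset Pt) (c : Ch1) (r1 r2 : Ed),
      (∀ x ∈ K, x ∉ D (Sum.inl e.1) ∧ x ∉ D (Sum.inr e.2) ∧
        ∃ t, dist (emb δ x) (Γ e t) ≤ 2 * δ) ∧
      bd c = Finsupp.single (rd δ (p (Sum.inl e.1))) 1 +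
        Finsupp.single (rd δ (p (Sum.inr e.2))) 1 ∧
      c r1 ≠ 0 ∧ c r2 ≠ 0 ∧ Cr (D (Sum.inl e.1)) r1 ∧ Cr (D (Sum.inr e.2)) r2 ∧
      (∀ g, c g ≠ 0 → Cr (D (Sum.inl e.1)) g → g = r1) ∧
      (∀ g, c g ≠ 0 → Cr (D (Sum.inr e.2)) g → g = r2) ∧
      ∀ g, c g ≠ 0 →
        (src g ∈ D (Sum.inl e.1) ∨ src g ∈ K ∨ src g ∈ D (Sum.inr e.2)) ∧
        (tgt g ∈ D (Sum.inl e.1) ∨ tgt g ∈ K ∨ tgt g ∈ D (Sum.inr e.2)) := by
    intro e he
    obtain ⟨y, L, s1, s2, s3, s4⟩ := exists_walk (Γ e) (gc e he) hδ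
    rw [g0 e he] at s2
    rw [g1 e he] at s3
    obtain ⟨K, c, r1, r2, f1, f2, f3⟩ := exists_chain (D (Sum.inl e.1)) (D (Sum.inr e.2))
      (fun x hx hx' => by
        have := hDdisj _ _ x hx hx'
        simp at this) (hDj _) (hDj _) y L s1
      (by rw [s2]; exact hoD _) (by rw [s3]; exact hoD _)
    refine ⟨K, c, r1, r2, ?_, by rw [f2, s2, s3], f3⟩
    intro x hx
    obtain ⟨k1, k2, n, hn, rfl⟩ := f1 x hx
    exact ⟨k1, k2, s4 n hn⟩
  choose! K C ra rb k1 k2 k3 k4 k5 k6 k7 k8 k9 using hdata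
  have hDK : ∀ w, ∀ e ∈ E, ∀ x, x ∈ D w → x ∉ K e := by
    intro w e he x hx hxK
    obtain ⟨m1, m2, t, m3⟩ := k1 e he x hxK
    by_cases hw1 : w = Sum.inl e.1
    · rw [hw1] at hx; exact m1 hx
    · by_cases hw2 : w = Sum.inr e.2
      · rw [hw2] at hx; exact m2 hx
      · have h3 := hR2' (e, w) he hw1 hw2 t
        simp only at h3
        rw [hD] at hx
        have h4 := dist_triangle_left (Γ e t) (p w) (emb δ x)
        linarith
  refine ⟨{
    D := D
    K := K
    o := fun w => rd δ (p w)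
    C := C
    ra := ra
    rb := rb
    bdC := k2
    sup := k9
    disjD := hDdisj
    disjK := ?_
    disjDK := hDK
    ra_ne := k3
    ra_cross := k5
    ra_uniq := k7
    rb_ne := k4
    rb_cross := k6
    rb_uniq := k8 }⟩
  intro e he e' he' x hx hx'
  by_contra hne
  obtain ⟨-, -, t, m3⟩ := k1 e he x hx
  obtain ⟨-, -, t', m3'⟩ := k1 e' he' x hx'
  have far : ∀ w, R < dist (emb δ x) (p w) := by
    intro w
    by_contra h
    push Not at h
    exact hDK w e he x ((hD w x).2 h) hx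
  have h5 := hη' (e, e') he he' hne t t' (by
    intro v
    have h6 := far v
    have h7 := dist_triangle (emb δ x) (Γ e t) (p v)
    simp only
    linarith) (by
    intro v
    have h6 := far v
    have h7 := dist_triangle (emb δ x) (Γ e' t') (p v)
    simp only
    linarith)
  simp only at h5
  have h8 := dist_triangle_left (Γ e t) (Γ e' t') (emb δ x)
  linarith

/-- **Edge bound for plane bipartite graphs.** -/
theorem plane_bip {A B : Type} [Fintype A] [Fintype B] (G : SimpleGraph (A ⊕ B))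
    (hplane : IsPlane G) (E : Finset (A × B))
    (hE : ∀ e ∈ E, G.Adj (Sum.inl e.1) (Sum.inr e.2))
    (h3 : 3 ≤ Fintype.card A + Fintype.card B) :
    E.card + 4 ≤ 2 * (Fintype.card A + Fintype.card B) := by
  classical
  obtain ⟨M⟩ := exists_model G hplane E hE
  exact M.card_le h3

end Pool.Agent.Helper531_Thick
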