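import Pool.Agent.Helper531_Thick.Upper
import Pool.Agent.Helper531_Thick.Topo

set_option autoImplicit false

/-!
The thickness of the complete bipartite graphs of the exceptional pairs.
-/

namespace Pool.Agent.Helper531_Thick

open Finset

/-- Lower bound for the number of plane graphs. -/
theorem lower (r s m : ℕ) (h3 : 3 ≤ r + s) (H : Fin m → SimpleGraph (Fin r ⊕ Fin s))
    (hp : ∀ i, IsPlane (H i)) (hH : (⨆ i, H i) = completeBipartiteGraph (Fin r) (Fin s)) :
    r * s + 4 * m ≤ 2 * m * (r + s) := by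
  classical
  let E : Fin m → Finset (Fin r × Fin s) := fun i =>
    univ.filter (fun e => (H i).Adj (Sum.inl e.1) (Sum.inr e.2))
  have h1 : ∀ i, (E i).card + 4 ≤ 2 * (r + s) := by
    intro i
    have := plane_bip (H i) (hp i) (E i) (fun e he => (mem_filter.1 he).2) (by simpa using h3)
    simpa using this
  have h2 : (univ : Finset (Fin r × Fin s)) ⊆ univ.biUnion E := by
    intro e _
    have : (⨆ i, H i).Adj (Sum.inl e.1) (Sum.inr e.2) := by rw [hH]; simp
    rw [SimpleGraph.iSup_adj] at this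
    obtain ⟨i, hi⟩ := this
    exact mem_biUnion.2 ⟨i, mem_univ _, mem_filter.2 ⟨mem_univ _, hi⟩⟩
  have h4 : r * s ≤ ∑ i, (E i).card := by
    have h5 := (Finset.card_le_card h2).trans Finset.card_biUnion_le
    simpa using h5
  have h6 : ∑ i : Fin m, ((E i).card + 4) ≤ ∑ i : Fin m, 2 * (r + s) :=
    Finset.sum_le_sum (fun i _ => h1 i)
  rw [Finset.sum_add_distrib] at h6
  simp only [Finset.sum_const, Finset.card_univ, Fintype.card_fin, smul_eq_mul] at h6
  have e : m * (2 * (r + s)) = 2 * m * (r + s) := by ring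
  omega

theorem main (r s k : ℕ) (hr : Odd r) (hs : Odd s) (h1 : r + 5 ≤ 4 * k)
    (h2 : 2 * k + 3 ≤ r) (h3 : s = (2 * k * (r - 2)) / (r - 2 * k)) :
    sInf {m : ℕ | ∃ H : Fin m → SimpleGraph (Fin r ⊕ Fin s),
      (∀ i, IsPlane (H i)) ∧ (⨆ i, H i) = completeBipartiteGraph (Fin r) (Fin s)}
    = ⌈((r : ℚ) * s / (2 * ((r : ℚ) + s - 2)))⌉₊ := by
  obtain ⟨q, hq⟩ : ∃ q, r = 2 * k + q := ⟨r - 2 * k, by omega⟩
  obtain ⟨R, hR⟩ : ∃ R, r = R + 2 := ⟨r - 2, by omega⟩
  have hq3 : 3 ≤ q := by omega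
  have hs' : s = (2 * k * R) / q := by
    rw [h3]
    congr 1
    · rw [hR]; rfl
    · omega
  have hs1 : s * q ≤ 2 * k * R := by
    rw [hs']; exact Nat.div_mul_le_self _ _
  have hs2 : 2 * k * R < (s + 1) * q := by
    have := Nat.lt_mul_div_succ (2 * k * R) (show 0 < q by omega)
    rw [← hs'] at this
    linarith
  have hs0 : 0 < s := hs.pos
  have hk : 2 ≤ k := by omega
  obtain ⟨K, hK⟩ : ∃ K, k = K + 1 := ⟨k - 1, by omega⟩
  -- value of the bound
  have hup : r * s ≤ 2 * k * (R + s) := by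
    have : r * s = 2 * k * s + s * q := by rw [hq]; ring
    rw [this]; nlinarith
  have hlow : 2 * K * (R + s) < r * s := by
    have e1 : r * s = 2 * k * s + s * q := by rw [hq]; ring
    have e2 : 2 * k * s = 2 * K * s + 2 * s := by rw [hK]; ring
    have e3 : 2 * k * R = 2 * K * R + 2 * R := by rw [hK]; ring
    have e4 : (s + 1) * q = s * q + q := by ring
    have e5 : 2 * K * (R + s) = 2 * K * R + 2 * K * s := by ring
    omega
  have hceil : ⌈((r : ℚ) * s / (2 * ((r : ℚ) + s - 2)))⌉₊ = k := by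
    have hden : (0 : ℚ) < 2 * ((r : ℚ) + s - 2) := by
      have : (2 : ℚ) < (r : ℚ) := by exact_mod_cast (show 2 < r by omega)
      have : (0 : ℚ) ≤ s := by positivity
      linarith
    have hr2 : (r : ℚ) + s - 2 = (R : ℚ) + s := by
      rw [hR]; push_cast; ring
    rw [hr2] at hden ⊢
    rw [Nat.ceil_eq_iff (by omega)]
    constructor
    · rw [lt_div_iff₀ hden]
      have hk1 : k - 1 = K := by omega
      rw [hk1]
      have : (2 * K * (R + s) : ℚ) < r * s := by exact_mod_cast hlow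
      linarith
    · rw [div_le_iff₀ hden]
      have : (r * s : ℚ) ≤ 2 * k * (R + s) := by exact_mod_cast hup
      linarith
  rw [hceil]
  set S := {m : ℕ | ∃ H : Fin m → SimpleGraph (Fin r ⊕ Fin s),
      (∀ i, IsPlane (H i)) ∧ (⨆ i, H i) = completeBipartiteGraph (Fin r) (Fin s)} with hS
  have hmem : k ∈ S := upper r s k hr hs h1 h2 h3
  apply le_antisymm
  · exact Nat.sInf_le hmem
  · have hne : S.Nonempty := ⟨k, hmem⟩
    obtain ⟨H, hp, hH⟩ := Nat.sInf_mem hne
    have h5 := lower r s (sInf S) (by omega) H hp hH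
    by_contra hlt
    push Not at hlt
    have h6 : sInf S ≤ K := by omega
    have h7 : 2 * sInf S * (R + s) ≤ 2 * K * (R + s) :=
      Nat.mul_le_mul_right _ (Nat.mul_le_mul_left _ h6)
    have h8 : 2 * sInf S * (r + s) = 2 * sInf S * (R + s) + 4 * sInf S := by
      rw [hR]; ring
    omega

end Pool.Agent.Helper531_Thick
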