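import Mathlib

set_option autoImplicit false

/-!
Chains mod 2 on the square grid.
-/

namespace Pool.Agent.Helper531_Thick

open Finset

/-- grid points (also used for cells: the cell (i,j) has lower left corner (i,j)) -/
abbrev Pt := ℤ × ℤ
/-- grid edges: (i,j,false) joins (i,j) and (i+1,j); (i,j,true) joins (i,j) and (i,j+1) -/
abbrev Ed := ℤ × ℤ × Bool

def src (g : Ed) : Pt := (g.1, g.2.1)
def tgt (g : Ed) : Pt := if g.2.2 then (g.1, g.2.1 + 1) else (g.1 + 1, g.2.1)
/-- the two cells at an edge -/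
def cell1 (g : Ed) : Pt := (g.1, g.2.1)
def cell2 (g : Ed) : Pt := if g.2.2 then (g.1 - 1, g.2.1) else (g.1, g.2.1 - 1)

abbrev Ch1 := Ed →₀ ZMod 2
abbrev Ch0 := Pt →₀ ZMod 2

noncomputable def bd : Ch1 →ₗ[ZMod 2] Ch0 :=
  Finsupp.linearCombination (ZMod 2)
    (fun g => (Finsupp.single (src g) 1 + Finsupp.single (tgt g) 1 : Ch0))

noncomputable def pot (x : Pt) : Ch1 →ₗ[ZMod 2] ZMod 2 :=
  Finsupp.linearCombination (ZMod 2)
    (fun g : Ed => if g.2.2 = false ∧ g.1 = x.1 ∧ x.2 < g.2.1 then (1 : ZMod 2) else 0)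

noncomputable def pot0 (x : Pt) : Ch0 →ₗ[ZMod 2] ZMod 2 :=
  Finsupp.linearCombination (ZMod 2)
    (fun y : Pt => if y.1 = x.1 ∧ x.2 < y.2 then (1 : ZMod 2) else 0)

lemma bd_single (g : Ed) : bd (Finsupp.single g 1) =
    (Finsupp.single (src g) 1 + Finsupp.single (tgt g) 1 : Ch0) := by
  simp [bd]

lemma z2 (a : ZMod 2) : a + a = 0 := CharTwo.add_self_eq_zero a

lemma ch2 (a : Ch0) : a + a = 0 := by
  ext x; simp [z2]

lemma pot_cell (c : Ch1) (g : Ed) : pot (cell1 g) c + pot (cell2 g) c =
    c g + (if g.2.2 then pot0 (g.1, g.2.1) (bd c) else 0) := by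
  obtain ⟨i, j, b⟩ := g
  induction c using Finsupp.induction_linear with
  | zero => simp
  | add c c' h h' =>
    simp only [map_add, Finsupp.add_apply] at h h' ⊢
    have e1 : ∀ a b c d : ZMod 2, a + b + (c + d) = (a + c) + (b + d) := by intros; ring
    rw [e1, h, h']
    split_ifs <;> ring
  | single g' a =>
    obtain ⟨i', j', b'⟩ := g'
    have ha : Finsupp.single (i', j', b') a = a • (Finsupp.single (i', j', b') 1 : Ch1) := by simp
    rw [ha]
    simp only [map_smul, bd_single, Finsupp.smul_apply]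
    rw [← smul_add, ← smul_ite_zero, ← smul_add]
    congr 1
    cases b <;> cases b'
    · simp only [pot, cell1, cell2, Finsupp.linearCombination_single, one_smul]
      simp only [Finsupp.single_apply, Prod.mk.injEq]
      simp only [Bool.false_eq_true, if_false, true_and, and_true]
      split_ifs <;> first | rfl | (exfalso; omega)
    · simp [pot, cell1, cell2, Finsupp.linearCombination_single]
    · simp only [pot, pot0, cell1, cell2, src, tgt, map_add, Finsupp.linearCombination_single,
        one_smul, Finsupp.single_apply, Prod.mk.injEq]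
      simp only [Bool.false_eq_true, if_false, true_and, if_true, and_false]
      split_ifs <;> first | rfl | (exfalso; omega)
    · simp only [pot, pot0, cell1, cell2, src, tgt, map_add, Finsupp.linearCombination_single,
        one_smul, Finsupp.single_apply, Prod.mk.injEq]
      simp only [Bool.true_eq_false, if_false, and_true, if_true, false_and]
      split_ifs <;> first | rfl | (exfalso; omega)

/-- crossing an edge changes the potential of a cycle by the coefficient of the edge -/
lemma pot_cycle (c : Ch1) (hc : bd c = 0) (g : Ed) :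
    pot (cell1 g) c + pot (cell2 g) c = c g := by
  rw [pot_cell, hc]; simp

/-- the four edges at a grid point -/
noncomputable def st (x : Pt) : Ch1 :=
  Finsupp.single (x.1, x.2, false) 1 + Finsupp.single (x.1 - 1, x.2, false) 1 +
    Finsupp.single (x.1, x.2, true) 1 + Finsupp.single (x.1, x.2 - 1, true) 1

lemma st_apply (x : Pt) (g : Ed) : st x g =
    (if src g = x then 1 else 0) + (if tgt g = x then 1 else 0) := by
  obtain ⟨i, j, b⟩ := g
  obtain ⟨a, c⟩ := x
  cases b
  · simp only [st, src, tgt, Finsupp.add_apply, Finsupp.single_apply, Prod.mk.injEq]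
    simp only [Bool.false_eq_true, Bool.true_eq_false, if_false, and_true, and_false,
      Prod.mk.injEq]
    split_ifs <;> first | rfl | (exfalso; omega)
  · simp only [st, src, tgt, Finsupp.add_apply, Finsupp.single_apply, Prod.mk.injEq]
    simp only [Bool.false_eq_true, if_false, and_true, and_false, if_true, Prod.mk.injEq]
    split_ifs <;> first | rfl | (exfalso; omega)

noncomputable def bf (f : Pt → ZMod 2) : Ch1 →ₗ[ZMod 2] ZMod 2 :=
  Finsupp.linearCombination (ZMod 2) (fun g : Ed => f (cell1 g) + f (cell2 g))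

lemma bf_st (f : Pt → ZMod 2) (x : Pt) : bf f (st x) = 0 := by
  obtain ⟨a, c⟩ := x
  simp only [bf, st, map_add, Finsupp.linearCombination_single, cell1, cell2, one_smul]
  simp only [Bool.false_eq_true, if_false, if_true]
  have e : ∀ p q r s : ZMod 2, (p + q) + (r + s) + (p + r) + (q + s) = 0 := by decide
  exact e _ _ _ _

noncomputable def cob (X : Finset Pt) : Ch1 := ∑ x ∈ X, st x

lemma cob_apply (X : Finset Pt) (g : Ed) : cob X g =
    (if src g ∈ X then 1 else 0) + (if tgt g ∈ X then 1 else 0) := by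
  rw [cob, Finsupp.finsetSum_apply]
  simp only [st_apply, Finset.sum_add_distrib]
  simp

lemma bf_cob (f : Pt → ZMod 2) (X : Finset Pt) : bf f (cob X) = 0 := by
  rw [cob, map_sum]
  exact Finset.sum_eq_zero (fun x _ => bf_st f x)

lemma cross_sum (f : Pt → ZMod 2) (X : Finset Pt) (R : Finset Ed)
    (hR : ∀ g ∈ R, ¬ (src g ∈ X ↔ tgt g ∈ X))
    (h : ∀ g, ¬ (src g ∈ X ↔ tgt g ∈ X) → f (cell1 g) + f (cell2 g) ≠ 0 → g ∈ R) :
    ∑ g ∈ R, (f (cell1 g) + f (cell2 g)) = 0 := by
  have h1 : ∀ g, cob X g ≠ 0 ↔ ¬ (src g ∈ X ↔ tgt g ∈ X) := by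
    intro g
    rw [cob_apply]
    by_cases e1 : src g ∈ X <;> by_cases e2 : tgt g ∈ X <;> simp [e1, e2, z2]
  have h2 : ∀ g, cob X g ≠ 0 → cob X g = 1 := by
    intro g hg
    have : ∀ a : ZMod 2, a ≠ 0 → a = 1 := by decide
    exact this _ hg
  have h3 := bf_cob f X
  rw [bf, Finsupp.linearCombination_apply, Finsupp.sum] at h3
  rw [← h3]
  symm
  rw [Finset.sum_congr rfl (g := fun g => f (cell1 g) + f (cell2 g)) (fun g hg => by
    rw [h2 g (Finsupp.mem_support_iff.1 hg), one_smul])]
  symm
  apply Finset.sum_subset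
  · intro g hg
    rw [Finsupp.mem_support_iff, h1]
    exact hR g hg
  · intro g hg hg2
    rw [Finsupp.mem_support_iff, h1] at hg
    by_contra h0
    exact hg2 (h g hg h0)

/-- `x` and `y` are joined by a chain inside `S` -/
def Joined (S : Set Pt) (x y : Pt) : Prop :=
  ∃ c : Ch1, bd c = Finsupp.single x 1 + Finsupp.single y 1 ∧
    ∀ g, c g ≠ 0 → src g ∈ S ∧ tgt g ∈ S

lemma Joined.refl (S : Set Pt) (x : Pt) : Joined S x x :=
  ⟨0, by simp [ch2], by simp⟩

lemma Joined.trans {S : Set Pt} {x y z : Pt} (h : Joined S x y) (h' : Joined S y z) :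
    Joined S x z := by
  obtain ⟨c, h1, h2⟩ := h
  obtain ⟨c', h1', h2'⟩ := h'
  refine ⟨c + c', ?_, ?_⟩
  · rw [map_add, h1, h1']
    have : (Finsupp.single x 1 + Finsupp.single y 1 + (Finsupp.single y 1 + Finsupp.single z 1) :
      Ch0) = Finsupp.single x 1 + Finsupp.single z 1 +
        (Finsupp.single y 1 + Finsupp.single y 1) := by abel
    rw [this, ch2, add_zero]
  · intro g hg
    by_cases h0 : c g = 0
    · apply h2'
      intro h3
      apply hg
      simp [h0, h3]
    · exact h2 g h0

lemma Joined.symm {S : Set Pt} {x y : Pt} (h : Joined S x y) : Joined S y x := by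
  obtain ⟨c, h1, h2⟩ := h
  exact ⟨c, by rw [h1, add_comm], h2⟩

/-- `g` joins `x` and `y` -/
def Lk (g : Ed) (x y : Pt) : Prop := (src g = x ∧ tgt g = y) ∨ (src g = y ∧ tgt g = x)

/-- equal or adjacent grid points -/
def Step (x y : Pt) : Prop := x = y ∨ ∃ g, Lk g x y

lemma Joined.step {S : Set Pt} {x y : Pt} (hx : x ∈ S) (hy : y ∈ S) (h : Step x y) :
    Joined S x y := by
  rcases h with rfl | ⟨g, hg⟩
  · exact Joined.refl S x
  · refine ⟨Finsupp.single g 1, ?_, ?_⟩
    · rw [bd_single]
      rcases hg with ⟨h1, h2⟩ | ⟨h1, h2⟩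
      · rw [h1, h2]
      · rw [h1, h2, add_comm]
    · intro g' hg'
      have : g = g' := by
        by_contra h0
        apply hg'
        simp [h0]
      subst this
      rcases hg with ⟨h1, h2⟩ | ⟨h1, h2⟩
      · rw [h1, h2]; exact ⟨hx, hy⟩
      · rw [h1, h2]; exact ⟨hy, hx⟩

end Pool.Agent.Helper531_Thick
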