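import Pool.Agent.Helper531_Thick.Cover
import Pool.Agent.Helper531_Thick.Fill

set_option autoImplicit false

/-!
Existence of the combinatorial data.
-/

namespace Pool.Agent.Helper531_Thick

open Finset

/-- number of free slots of a hub -/
def cap {k : ℕ} (m d n : ℕ) (o : Fin k) (u : Fin k × Bool) : ℕ :=
  (univ.filter (fun i => u.1 ≠ i ∧ spc m d n o i u = none)).card

lemma card_ge {k : ℕ} (E : Finset (Fin k)) (P : Fin k → Prop) [DecidablePred P]
    (h : ∀ i, i ∉ E → P i) : k ≤ (univ.filter P).card + E.card := by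
  have h1 : Eᶜ ⊆ univ.filter P := by
    intro i hi
    simp only [mem_compl] at hi
    simp [h i hi]
  have h2 := Finset.card_le_card h1
  rw [Finset.card_compl, Fintype.card_fin] at h2
  omega

/-- load defect of a hub pair -/
def ee (m d B0 p e : ℕ) (h : ℕ) : ℕ :=
  B0 + (if 1 ≤ h ∧ h < p + 1 then 1 else 0) + (if 3 ≤ h ∧ h < m + 3 then 1 else 0) +
    (if 3 ≤ h ∧ h < 2 * m + d + 3 then 1 else 0) + (if 2 ≤ h ∧ h < 3 then d else 0) +
    (if 0 ≤ h ∧ h < 1 then 1 + (1 - d) * e else 0)

/-- single loads -/
def bb (B0 p e : ℕ) (h : ℕ) (c : Bool) : ℕ :=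
  B0 + (if 1 ≤ h ∧ h < p + 1 then 1 else 0) + (if 0 ≤ h ∧ h < 1 then (if c then e else 0) else 0)

lemma sum_ind {k : ℕ} (a b v : ℕ) (hb : b ≤ k) :
    ∑ h : Fin k, (if a ≤ h.val ∧ h.val < b then v else 0) = (b - a) * v := by
  rw [Fin.sum_univ_eq_sum_range (fun h => if a ≤ h ∧ h < b then v else 0) k,
    ← Finset.sum_filter, Finset.sum_const, smul_eq_mul]
  congr 1
  have : (Finset.range k).filter (fun h => a ≤ h ∧ h < b) = Finset.Ico a b := by
    ext h
    simp only [mem_filter, mem_range, mem_Ico]
    omega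
  rw [this, Nat.card_Ico]

lemma sum_ee {k : ℕ} (m d B0 p e : ℕ) (hk : 2 * m + d + 3 ≤ k) (hp : p + 1 ≤ k) :
    ∑ h : Fin k, ee m d B0 p e h.val = k * B0 + p + m + (2 * m + d) + d + (1 + (1 - d) * e) := by
  simp only [ee, Finset.sum_add_distrib]
  rw [sum_ind 1 (p + 1) 1 (by omega), sum_ind 3 (m + 3) 1 (by omega),
    sum_ind 3 (2 * m + d + 3) 1 (by omega), sum_ind 2 3 d (by omega),
    sum_ind 0 1 _ (by omega)]
  simp

lemma sum_bb {k : ℕ} (B0 p e : ℕ) (hk : 1 ≤ k) (hp : p + 1 ≤ k) :
    ∑ u : Fin k × Bool, bb B0 p e u.1.val u.2 = 2 * (k * B0) + 2 * p + e := by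
  rw [Fintype.sum_prod_type]
  simp only [Fintype.sum_bool, bb, Finset.sum_add_distrib, if_true]
  rw [sum_ind 1 (p + 1) 1 (by omega), sum_ind 0 1 e (by omega),
    sum_ind 0 1 (if false = true then e else 0) (by omega)]
  simp
  ring

lemma cap_ge {k m d n : ℕ} (hd : d ≤ 1) (hk : 2 * m + d + 3 ≤ k) (B0 p e : ℕ)
    (he : e ≤ 1) (hB : B0 + 4 ≤ k) (o : Fin k) (u : Fin k × Bool) :
    (k - 1 - ee m d B0 p e u.1.val) + bb B0 p e u.1.val u.2 ≤ cap m d n o u := by
  obtain ⟨h, c⟩ := u
  obtain ⟨i0, hi0⟩ : ∃ i : Fin k, i.val = 0 := ⟨⟨0, by omega⟩, rfl⟩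
  obtain ⟨i1, hi1⟩ : ∃ i : Fin k, i.val = 1 := ⟨⟨1, by omega⟩, rfl⟩
  have ne0 : ∀ i : Fin k, i ≠ i0 → i.val ≠ 0 := fun i hi h => hi (Fin.ext (by omega))
  have ne1 : ∀ i : Fin k, i ≠ i1 → i.val ≠ 1 := fun i hi h => hi (Fin.ext (by omega))
  have c3 : ∀ a b c : Fin k, ({a, b, c} : Finset (Fin k)).card ≤ 3 := fun a b c =>
    Finset.card_le_three
  have c2 : ∀ a b : Fin k, ({a, b} : Finset (Fin k)).card ≤ 2 := fun a b => Finset.card_le_two
  unfold cap
  simp only
  by_cases h1 : 3 ≤ h.val ∧ h.val ≤ m + 2
  · have := card_ge {h, i0, i1} (fun i => h ≠ i ∧ spc m d n o i (h, c) = none) (by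
      intro i hi
      simp only [mem_insert, mem_singleton, not_or] at hi
      refine ⟨fun e => hi.1 e.symm, ?_⟩
      simp only [spc, if_neg (ne1 i hi.2.2), if_neg (ne0 i hi.2.1)])
    have h3 := c3 h i0 i1
    unfold ee bb
    split_ifs <;> omega
  · by_cases h2 : 3 ≤ h.val ∧ h.val ≤ 2 * m + d + 2
    · have := card_ge {h, i1} (fun i => h ≠ i ∧ spc m d n o i (h, c) = none) (by
        intro i hi
        simp only [mem_insert, mem_singleton, not_or] at hi
        refine ⟨fun e => hi.1 e.symm, ?_⟩
        have e2 : ¬ (h.val = 2 ∧ c = false ∧ d = 1) := by omega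
        simp only [spc, if_neg (ne1 i hi.2), if_neg h1, if_neg e2]
        simp)
      have h3 := c2 h i1
      unfold ee bb
      split_ifs <;> omega
    · by_cases h3 : h.val = 0
      · by_cases h4 : c = true ∧ d = 1
        · have := card_ge {h} (fun i => h ≠ i ∧ spc m d n o i (h, c) = none) (by
            intro i hi
            simp only [mem_singleton] at hi
            refine ⟨fun e => hi e.symm, ?_⟩
            simp [spc, h3, h4.1, h4.2])
          have h5 : ({h} : Finset (Fin k)).card = 1 := Finset.card_singleton h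
          revert this
          generalize (univ.filter (fun i => h ≠ i ∧ spc m d n o i (h, c) = none)).card = N
          intro this
          unfold ee bb
          rw [h4.1, h4.2]
          simp only [h3]
          simp
          omega
        · have := card_ge {h, i1} (fun i => h ≠ i ∧ spc m d n o i (h, c) = none) (by
            intro i hi
            simp only [mem_insert, mem_singleton, not_or] at hi
            refine ⟨fun e => hi.1 e.symm, ?_⟩
            simp [spc, ne1 i hi.2, h3])
          have h5 := c2 h i1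
          revert this
          generalize (univ.filter (fun i => h ≠ i ∧ spc m d n o i (h, c) = none)).card = N
          intro this
          unfold ee bb
          simp only [h3]
          have hd' : d = 0 ∨ d = 1 := by omega
          rcases hd' with rfl | rfl
          · cases c <;> simp <;> omega
          · cases c
            · simp; omega
            · exact absurd ⟨rfl, rfl⟩ h4
      · by_cases h5 : h.val = 2 ∧ d = 1
        · cases c
          · have := card_ge {h, i0} (fun i => h ≠ i ∧ spc m d n o i (h, false) = none) (by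
              intro i hi
              simp only [mem_insert, mem_singleton, not_or] at hi
              refine ⟨fun e => hi.1 e.symm, ?_⟩
              simp [spc, ne0 i hi.2, h5.1])
            have h6 := c2 h i0
            unfold ee bb
            split_ifs <;> omega
          · have := card_ge {h, i1} (fun i => h ≠ i ∧ spc m d n o i (h, true) = none) (by
              intro i hi
              simp only [mem_insert, mem_singleton, not_or] at hi
              refine ⟨fun e => hi.1 e.symm, ?_⟩
              simp [spc, ne1 i hi.2, h5.1])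
            have h6 := c2 h i1
            unfold ee bb
            split_ifs <;> omega
        · have := card_ge {h} (fun i => h ≠ i ∧ spc m d n o i (h, c) = none) (by
            intro i hi
            simp only [mem_singleton] at hi
            refine ⟨fun e => hi e.symm, ?_⟩
            have e1 : ¬ (h.val = 0 ∧ c = false) := by omega
            have e2 : ¬ (h.val = 0 ∧ c = true ∧ d = 0) := by omega
            have e3 : ¬ (h.val = 2 ∧ c = true ∧ d = 1) := by omega
            have e4 : ¬ (h.val = 2 ∧ c = false ∧ d = 1) := by omega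
            simp only [spc, if_neg h1, if_neg h2, if_neg e1, if_neg e2, if_neg e3, if_neg e4]
            simp)
          have h6 : ({h} : Finset (Fin k)).card = 1 := Finset.card_singleton h
          unfold ee bb
          split_ifs <;> omega

theorem exists_design (k m d n : ℕ) (hd : d ≤ 1) (hm : 1 ≤ m) (hk : 2 * m + d + 3 ≤ k)
    (hn : k ≤ n) (hq : (4 * m + 2 * d + 1) * (2 * n + 3) ≤ 4 * (k * (k - 1))) :
    Nonempty (Design k m d n) := by
  obtain ⟨o, ho⟩ : ∃ o : Fin k, o.val = 0 := ⟨⟨0, by omega⟩, rfl⟩
  set B0 := n / (2 * k) with hB0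
  set R := n % (2 * k) with hR
  have hRlt : R < 2 * k := Nat.mod_lt _ (by omega)
  have hnR : 2 * (k * B0) + R = n := by
    have := Nat.div_add_mod n (2 * k)
    rw [← hB0, ← hR] at this
    rw [← this]; ring
  clear_value B0 R
  clear hB0 hR
  set p := R / 2 with hp
  set e := R % 2 with he
  have hpe : R = 2 * p + e := by omega
  have he1 : e ≤ 1 := by omega
  have hp1 : p + 1 ≤ k := by omega
  -- bound on B0
  have hB4 : B0 + 4 ≤ k := by
    by_contra hc
    push Not at hc
    have h1 : k ≤ B0 + 3 := by omega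
    have h2 : 5 * (2 * n + 3) ≤ (4 * m + 2 * d + 1) * (2 * n + 3) :=
      Nat.mul_le_mul_right _ (by omega)
    have h3 : k * k ≤ k * (B0 + 3) := Nat.mul_le_mul_left _ h1
    have h4 : 5 * (2 * (2 * (k * B0)) + 3) ≤ 5 * (2 * n + 3) := by omega
    have h5 : k * (k - 1) + k = k * k := by
      obtain ⟨k', rfl⟩ : ∃ k', k = k' + 1 := ⟨k - 1, by omega⟩
      simp; ring
    have h6 : k * (B0 + 3) = k * B0 + 3 * k := by ring
    have h7 : 5 * k ≤ k * k := Nat.mul_le_mul_right _ (by omega)
    omega
  -- single loads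
  obtain ⟨mh, hmh⟩ := exists_fibers (ι := Fin k × Bool) n (fun u => bb B0 p e u.1.val u.2) (by
    rw [sum_bb B0 p e (by omega) hp1]
    omega)
  -- pair loads
  have hee : ∀ h : Fin k, ee m d B0 p e h.val ≤ k - 1 := by
    intro h
    unfold ee
    have hd' : d = 0 ∨ d = 1 := by omega
    rcases hd' with rfl | rfl
    · simp only [Nat.sub_zero, one_mul]
      split_ifs <;> omega
    · simp only [Nat.sub_self, zero_mul]
      split_ifs <;> omega
  have hsA : ∑ h : Fin k, (k - 1 - ee m d B0 p e h.val) +
      (k * B0 + p + m + (2 * m + d) + d + (1 + (1 - d) * e)) = k * (k - 1) := by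
    rw [← sum_ee m d B0 p e hk hp1, ← Finset.sum_add_distrib]
    rw [Finset.sum_congr rfl (g := fun _ => k - 1) (fun h _ => by have := hee h; omega)]
    simp
  have htot : (2 * m + d) * n ≤ ∑ h : Fin k, (k - 1 - ee m d B0 p e h.val) := by
    have h1 : (4 * m + 2 * d + 1) * (2 * n + 3) =
        4 * ((2 * m + d) * n) + 6 * (2 * m + d) + 2 * n + 3 := by ring
    rw [h1] at hq
    have hd' : d = 0 ∨ d = 1 := by omega
    rcases hd' with rfl | rfl
    · simp only [Nat.sub_zero, one_mul] at hsA
      omega
    · simp only [Nat.sub_self, zero_mul] at hsA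
      omega
  obtain ⟨a, haA, has⟩ := exists_le_sum (fun h : Fin k => k - 1 - ee m d B0 p e h.val)
    (∑ h : Fin k, (k - 1 - ee m d B0 p e h.val) - (2 * m + d) * n) ((2 * m + d) * n) (by omega)
  -- counts of single loads on a pair
  have hcnt : ∀ h : Fin k, ∑ T, (if (mh T).1 = h then 1 else 0) =
      bb B0 p e h.val false + bb B0 p e h.val true := by
    intro h
    rw [← hmh (h, false), ← hmh (h, true), Finset.card_filter, Finset.card_filter,
      ← Finset.sum_add_distrib]
    apply Finset.sum_congr rfl
    intro T _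
    rcases hT : mh T with ⟨h', c'⟩
    by_cases e1 : h' = h
    · subst e1; cases c' <;> simp
    · simp [e1]
  obtain ⟨I, hI1, hI2, hI3⟩ := fill (2 * m + d) n (fun T => (mh T).1) a has (by
    intro h
    rw [hcnt h]
    have h1 := haA h
    have h2 : k + B0 ≤ n := by
      by_cases hb : B0 = 0
      · omega
      · have h3 : k * 1 + 1 * B0 ≤ k * B0 + k * B0 :=
          Nat.add_le_add (Nat.mul_le_mul_left _ (by omega)) (Nat.mul_le_mul_right _ (by omega))
        omega
    have h3 : bb B0 p e h.val false + bb B0 p e h.val true ≤ ee m d B0 p e h.val + B0 + 1 := by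
      unfold bb ee
      simp only [if_true]
      split_ifs <;> omega
    have h4 := hee h
    omega)
  -- counts
  have hM : ∀ u : Fin k × Bool, (univ.filter (fun T => u.1 ∈ I T ∨ u = mh T)).card ≤
      cap m d n o u := by
    intro u
    have h1 : (univ.filter (fun T => u.1 ∈ I T ∨ u = mh T)).card =
        a u.1 + bb B0 p e u.1.val u.2 := by
      rw [← hI3 u.1, ← hmh u, Finset.card_filter, Finset.card_filter, ← Finset.sum_add_distrib]
      apply Finset.sum_congr rfl
      intro T _
      by_cases e1 : u.1 ∈ I T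
      · have e2 : ¬ mh T = u := by
          intro e2
          apply hI2 T
          rw [e2]
          exact e1
        simp [e1, e2]
      · simp only [e1, false_or, if_false, zero_add]
        by_cases e2 : u = mh T
        · simp [e2]
        · have : ¬ mh T = u := fun h => e2 h.symm
          simp [e2, this]
    rw [h1]
    have h2 := haA u.1
    have h3 := cap_ge (n := n) hd hk B0 p e he1 hB4 o u
    omega
  have hinj : ∀ u : Fin k × Bool, Nonempty ({T : Fin n // u.1 ∈ I T ∨ u = mh T} ↪
      {i : Fin k // u.1 ≠ i ∧ spc m d n o i u = none}) := by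
    intro u
    apply Function.Embedding.nonempty_of_card_le
    rw [Fintype.card_subtype, Fintype.card_subtype]
    exact hM u
  choose emb _ using fun u => (⟨(hinj u).some, trivial⟩ :
    ∃ _ : ({T : Fin n // u.1 ∈ I T ∨ u = mh T} ↪
      {i : Fin k // u.1 ≠ i ∧ spc m d n o i u = none}), True)
  classical
  refine ⟨{
    hd := hd
    hm := hm
    hk := hk
    o := o
    ho := ho
    I := I
    hI := hI1
    mh := mh
    hmh := hI2
    f := fun i u => if h : ∃ T, (emb u T).1 = i then some h.choose.1 else none
    hf := ?_ }⟩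
  intro T u hu
  refine ⟨(emb u ⟨T, hu⟩).1, (emb u ⟨T, hu⟩).2.1, (emb u ⟨T, hu⟩).2.2, ?_⟩
  have hex : ∃ T', (emb u T').1 = (emb u ⟨T, hu⟩).1 := ⟨⟨T, hu⟩, rfl⟩
  rw [dif_pos hex]
  have h1 : hex.choose = ⟨T, hu⟩ := (emb u).injective (Subtype.ext hex.choose_spec)
  rw [h1]

end Pool.Agent.Helper531_Thick
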