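import Pool.Agent.Helper531_Thick.Grid

set_option autoImplicit false
set_option linter.unusedSectionVars false

/-!
A bipartite graph modelled in the square grid has at most `2 n - 4` edges.
-/

namespace Pool.Agent.Helper531_Thick

open Finset

/-- `g` has exactly one end in `X` -/
def Cr (X : Finset Pt) (g : Ed) : Prop := ¬ (src g ∈ X ↔ tgt g ∈ X)

/-- A bipartite graph with edge set `E` modelled in the grid. -/
structure Model (A B : Type) (E : Finset (A × B)) where
  D : A ⊕ B → Finset Pt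
  K : A × B → Finset Pt
  o : A ⊕ B → Pt
  C : A × B → Ch1
  ra : A × B → Ed
  rb : A × B → Ed
  bdC : ∀ e ∈ E, bd (C e) =
    Finsupp.single (o (Sum.inl e.1)) 1 + Finsupp.single (o (Sum.inr e.2)) 1
  sup : ∀ e ∈ E, ∀ g, C e g ≠ 0 →
    (src g ∈ D (Sum.inl e.1) ∨ src g ∈ K e ∨ src g ∈ D (Sum.inr e.2)) ∧
    (tgt g ∈ D (Sum.inl e.1) ∨ tgt g ∈ K e ∨ tgt g ∈ D (Sum.inr e.2))
  disjD : ∀ w w' x, x ∈ D w → x ∈ D w' → w = w'
  disjK : ∀ e ∈ E, ∀ e' ∈ E, ∀ x, x ∈ K e → x ∈ K e' → e = e'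
  disjDK : ∀ w, ∀ e ∈ E, ∀ x, x ∈ D w → x ∉ K e
  ra_ne : ∀ e ∈ E, C e (ra e) ≠ 0
  ra_cross : ∀ e ∈ E, Cr (D (Sum.inl e.1)) (ra e)
  ra_uniq : ∀ e ∈ E, ∀ g, C e g ≠ 0 → Cr (D (Sum.inl e.1)) g → g = ra e
  rb_ne : ∀ e ∈ E, C e (rb e) ≠ 0
  rb_cross : ∀ e ∈ E, Cr (D (Sum.inr e.2)) (rb e)
  rb_uniq : ∀ e ∈ E, ∀ g, C e g ≠ 0 → Cr (D (Sum.inr e.2)) g → g = rb e

namespace Model

variable {A B : Type} {E : Finset (A × B)} (M : Model A B E)

lemma in_Da {e e' : A × B} (he' : e' ∈ E) {x : Pt} (hx : x ∈ M.D (Sum.inl e.1))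
    (h : x ∈ M.D (Sum.inl e'.1) ∨ x ∈ M.K e' ∨ x ∈ M.D (Sum.inr e'.2)) : e.1 = e'.1 := by
  rcases h with h | h | h
  · have := M.disjD _ _ x hx h
    simpa using this
  · exact absurd h (M.disjDK _ e' he' x hx)
  · have := M.disjD _ _ x hx h
    simp at this

lemma in_Db {e e' : A × B} (he' : e' ∈ E) {x : Pt} (hx : x ∈ M.D (Sum.inr e.2))
    (h : x ∈ M.D (Sum.inl e'.1) ∨ x ∈ M.K e' ∨ x ∈ M.D (Sum.inr e'.2)) : e.2 = e'.2 := by
  rcases h with h | h | h
  · have := M.disjD _ _ x hx h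
    simp at this
  · exact absurd h (M.disjDK _ e' he' x hx)
  · have := M.disjD _ _ x hx h
    simpa using this

lemma in_K {e e' : A × B} (he : e ∈ E) (he' : e' ∈ E) {x : Pt} (hx : x ∈ M.K e)
    (h : x ∈ M.D (Sum.inl e'.1) ∨ x ∈ M.K e' ∨ x ∈ M.D (Sum.inr e'.2)) : e = e' := by
  rcases h with h | h | h
  · exact absurd hx (M.disjDK _ e he x h)
  · exact M.disjK e he e' he' x hx h
  · exact absurd hx (M.disjDK _ e he x h)

/-- two ends -/
lemma ends_a {e : A × B} (he : e ∈ E) :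
    ∃ x y, Lk (M.ra e) x y ∧ x ∈ M.D (Sum.inl e.1) ∧ y ∉ M.D (Sum.inl e.1) ∧
      (y ∈ M.K e ∨ y ∈ M.D (Sum.inr e.2)) := by
  have h1 := M.ra_cross e he
  have h2 := M.sup e he _ (M.ra_ne e he)
  unfold Cr at h1
  by_cases h3 : src (M.ra e) ∈ M.D (Sum.inl e.1)
  · have h4 : tgt (M.ra e) ∉ M.D (Sum.inl e.1) := by tauto
    exact ⟨_, _, Or.inl ⟨rfl, rfl⟩, h3, h4, by tauto⟩
  · have h4 : tgt (M.ra e) ∈ M.D (Sum.inl e.1) := by tauto
    exact ⟨_, _, Or.inr ⟨rfl, rfl⟩, h4, h3, by tauto⟩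

lemma ends_b {e : A × B} (he : e ∈ E) :
    ∃ x y, Lk (M.rb e) x y ∧ x ∈ M.D (Sum.inr e.2) ∧ y ∉ M.D (Sum.inr e.2) ∧
      (y ∈ M.K e ∨ y ∈ M.D (Sum.inl e.1)) := by
  have h1 := M.rb_cross e he
  have h2 := M.sup e he _ (M.rb_ne e he)
  unfold Cr at h1
  by_cases h3 : src (M.rb e) ∈ M.D (Sum.inr e.2)
  · have h4 : tgt (M.rb e) ∉ M.D (Sum.inr e.2) := by tauto
    exact ⟨_, _, Or.inl ⟨rfl, rfl⟩, h3, h4, by tauto⟩
  · have h4 : tgt (M.rb e) ∈ M.D (Sum.inr e.2) := by tauto
    exact ⟨_, _, Or.inr ⟨rfl, rfl⟩, h4, h3, by tauto⟩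

lemma Lk_sup {e : A × B} (he : e ∈ E) {g : Ed} (h : M.C e g ≠ 0) {x y : Pt} (hl : Lk g x y) :
    (x ∈ M.D (Sum.inl e.1) ∨ x ∈ M.K e ∨ x ∈ M.D (Sum.inr e.2)) ∧
    (y ∈ M.D (Sum.inl e.1) ∨ y ∈ M.K e ∨ y ∈ M.D (Sum.inr e.2)) := by
  have h2 := M.sup e he g h
  rcases hl with ⟨h3, h4⟩ | ⟨h3, h4⟩
  · rw [h3, h4] at h2; exact h2
  · rw [h3, h4] at h2; exact ⟨h2.2, h2.1⟩

lemma ra_only {e e' : A × B} (he : e ∈ E) (he' : e' ∈ E) (h : M.C e' (M.ra e) ≠ 0) : e = e' := by
  obtain ⟨x, y, hl, hx, -, hy⟩ := M.ends_a he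
  obtain ⟨h1, h2⟩ := M.Lk_sup he' h hl
  rcases hy with hy | hy
  · exact M.in_K he he' hy h2
  · exact Prod.ext (M.in_Da he' hx h1) (M.in_Db he' hy h2)

lemma rb_only {e e' : A × B} (he : e ∈ E) (he' : e' ∈ E) (h : M.C e' (M.rb e) ≠ 0) : e = e' := by
  obtain ⟨x, y, hl, hx, -, hy⟩ := M.ends_b he
  obtain ⟨h1, h2⟩ := M.Lk_sup he' h hl
  rcases hy with hy | hy
  · exact M.in_K he he' hy h2
  · exact Prod.ext (M.in_Da he' hy h2) (M.in_Db he' hx h1)

lemma ra_inj {e e' : A × B} (he : e ∈ E) (he' : e' ∈ E) (h : M.ra e = M.ra e') : e = e' :=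
  M.ra_only he he' (by rw [h]; exact M.ra_ne e' he')

lemma rb_inj {e e' : A × B} (he : e ∈ E) (he' : e' ∈ E) (h : M.rb e = M.rb e') : e = e' :=
  M.rb_only he he' (by rw [h]; exact M.rb_ne e' he')

variable [DecidableEq A] [DecidableEq B]

section even

variable (f : Pt → ZMod 2)
  (hf : ∀ g, f (cell1 g) + f (cell2 g) ≠ 0 → ∃ e ∈ E, M.C e g ≠ 0)

include hf

lemma even_a (a : A) :
    ∑ e ∈ E.filter (fun e => e.1 = a), (f (cell1 (M.ra e)) + f (cell2 (M.ra e))) = 0 := by
  classical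
  rw [← Finset.sum_image (f := fun g => f (cell1 g) + f (cell2 g)) (g := M.ra)]
  · apply cross_sum f (M.D (Sum.inl a))
    · intro g hg
      simp only [mem_image, mem_filter] at hg
      obtain ⟨e, ⟨he, rfl⟩, rfl⟩ := hg
      exact M.ra_cross e he
    · intro g hg h0
      obtain ⟨e, he, hC⟩ := hf g h0
      simp only [mem_image, mem_filter]
      have h1 := M.sup e he g hC
      have ha : a = e.1 := by
        by_cases h3 : src g ∈ M.D (Sum.inl a)
        · exact M.in_Da (e := (a, e.2)) he h3 h1.1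
        · have h4 : tgt g ∈ M.D (Sum.inl a) := by tauto
          exact M.in_Da (e := (a, e.2)) he h4 h1.2
      subst ha
      exact ⟨e, ⟨he, rfl⟩, (M.ra_uniq e he g hC hg).symm⟩
  · intro e he e' he' h
    simp only [coe_filter, Set.mem_ofPred_eq] at he he'
    exact M.ra_inj he.1 he'.1 h

lemma even_b' (b : B) :
    ∑ e ∈ E.filter (fun e => e.2 = b), (f (cell1 (M.rb e)) + f (cell2 (M.rb e))) = 0 := by
  classical
  rw [← Finset.sum_image (f := fun g => f (cell1 g) + f (cell2 g)) (g := M.rb)]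
  · apply cross_sum f (M.D (Sum.inr b))
    · intro g hg
      simp only [mem_image, mem_filter] at hg
      obtain ⟨e, ⟨he, rfl⟩, rfl⟩ := hg
      exact M.rb_cross e he
    · intro g hg h0
      obtain ⟨e, he, hC⟩ := hf g h0
      simp only [mem_image, mem_filter]
      have h1 := M.sup e he g hC
      have hb : b = e.2 := by
        by_cases h3 : src g ∈ M.D (Sum.inr b)
        · exact M.in_Db (e := (e.1, b)) he h3 h1.1
        · have h4 : tgt g ∈ M.D (Sum.inr b) := by tauto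
          exact M.in_Db (e := (e.1, b)) he h4 h1.2
      subst hb
      exact ⟨e, ⟨he, rfl⟩, (M.rb_uniq e he g hC hg).symm⟩
  · intro e he e' he' h
    simp only [coe_filter, Set.mem_ofPred_eq] at he he'
    exact M.rb_inj he.1 he'.1 h

lemma ra_rb {e : A × B} (he : e ∈ E) :
    f (cell1 (M.ra e)) + f (cell2 (M.ra e)) = f (cell1 (M.rb e)) + f (cell2 (M.rb e)) := by
  classical
  by_cases hne : M.ra e = M.rb e
  · rw [hne]
  have key : ∑ g ∈ {M.ra e, M.rb e}, (f (cell1 g) + f (cell2 g)) = 0 := by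
    apply cross_sum f (M.K e)
    · intro g hg
      simp only [mem_insert, mem_singleton] at hg
      rcases hg with rfl | rfl
      · obtain ⟨x, y, hl, hx, hx', hy⟩ := M.ends_a he
        have hxK : x ∉ M.K e := M.disjDK _ e he x hx
        have hyK : y ∈ M.K e := by
          rcases hy with hy | hy
          · exact hy
          · exfalso
            apply hne
            apply M.rb_uniq e he _ (M.ra_ne e he)
            have hxD : x ∉ M.D (Sum.inr e.2) := fun h => by
              have := M.disjD _ _ x hx h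
              simp at this
            unfold Cr
            rcases hl with ⟨h1, h2⟩ | ⟨h1, h2⟩ <;> rw [h1, h2] <;> simp [hxD, hy]
        rcases hl with ⟨h1, h2⟩ | ⟨h1, h2⟩ <;> rw [h1, h2] <;> simp [hxK, hyK]
      · obtain ⟨x, y, hl, hx, hx', hy⟩ := M.ends_b he
        have hxK : x ∉ M.K e := M.disjDK _ e he x hx
        have hyK : y ∈ M.K e := by
          rcases hy with hy | hy
          · exact hy
          · exfalso
            apply hne
            symm
            apply M.ra_uniq e he _ (M.rb_ne e he)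
            have hxD : x ∉ M.D (Sum.inl e.1) := fun h => by
              have := M.disjD _ _ x hx h
              simp at this
            unfold Cr
            rcases hl with ⟨h1, h2⟩ | ⟨h1, h2⟩ <;> rw [h1, h2] <;> simp [hxD, hy]
        rcases hl with ⟨h1, h2⟩ | ⟨h1, h2⟩ <;> rw [h1, h2] <;> simp [hxK, hyK]
    · intro g hg h0
      obtain ⟨e', he', hC⟩ := hf g h0
      have h1 := M.sup e' he' g hC
      have h2 : e = e' := by
        by_cases h3 : src g ∈ M.K e
        · exact M.in_K he he' h3 h1.1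
        · have h4 : tgt g ∈ M.K e := by tauto
          exact M.in_K he he' h4 h1.2
      subst h2
      simp only [mem_insert, mem_singleton]
      by_cases h5 : Cr (M.D (Sum.inl e.1)) g
      · left; exact M.ra_uniq e he g hC h5
      · right
        apply M.rb_uniq e he g hC
        unfold Cr at h5 ⊢
        intro h6
        have h5' := not_not.1 h5
        by_cases h3 : src g ∈ M.K e
        · have h4 : tgt g ∉ M.K e := fun h4 => hg ⟨fun _ => h4, fun _ => h3⟩
          rcases h1.2 with h7 | h7 | h7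
          · exact M.disjDK _ e he _ (h5'.2 h7) h3
          · exact h4 h7
          · exact M.disjDK _ e he _ (h6.2 h7) h3
        · have h4 : tgt g ∈ M.K e := by
            by_contra h4
            exact hg ⟨fun h => absurd h h3, fun h => absurd h h4⟩
          rcases h1.1 with h7 | h7 | h7
          · exact M.disjDK _ e he _ (h5'.1 h7) h4
          · exact h3 h7
          · exact M.disjDK _ e he _ (h6.1 h7) h4
  rw [Finset.sum_pair hne] at key
  have e2 : ∀ a b : ZMod 2, a + b = 0 → a = b := by decide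
  exact e2 _ _ key

lemma even_b (b : B) :
    ∑ e ∈ E.filter (fun e => e.2 = b), (f (cell1 (M.ra e)) + f (cell2 (M.ra e))) = 0 := by
  rw [← M.even_b' f hf b]
  apply Finset.sum_congr rfl
  intro e he
  exact M.ra_rb f hf (Finset.mem_filter.1 he).1

/-- the boundary of a region is empty or has at least four edges -/
lemma four_le (e0 : A × B) (he0 : e0 ∈ E)
    (h0 : f (cell1 (M.ra e0)) + f (cell2 (M.ra e0)) ≠ 0) :
    4 ≤ (E.filter (fun e => f (cell1 (M.ra e)) + f (cell2 (M.ra e)) ≠ 0)).card := by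
  classical
  have oa : ∀ e ∈ E, f (cell1 (M.ra e)) + f (cell2 (M.ra e)) ≠ 0 →
      ∃ e' ∈ E, f (cell1 (M.ra e')) + f (cell2 (M.ra e')) ≠ 0 ∧ e'.1 = e.1 ∧ e'.2 ≠ e.2 := by
    intro e he h
    by_contra hc
    push Not at hc
    have h1 := M.even_a f hf e.1
    rw [Finset.sum_eq_single e] at h1
    · exact h h1
    · intro e' he' hne
      simp only [mem_filter] at he'
      by_contra h2
      apply hne
      exact Prod.ext he'.2 (hc e' he'.1 h2 he'.2)
    · intro h2
      simp [he] at h2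
  have ob : ∀ e ∈ E, f (cell1 (M.ra e)) + f (cell2 (M.ra e)) ≠ 0 →
      ∃ e' ∈ E, f (cell1 (M.ra e')) + f (cell2 (M.ra e')) ≠ 0 ∧ e'.2 = e.2 ∧ e'.1 ≠ e.1 := by
    intro e he h
    by_contra hc
    push Not at hc
    have h1 := M.even_b f hf e.2
    rw [Finset.sum_eq_single e] at h1
    · exact h h1
    · intro e' he' hne
      simp only [mem_filter] at he'
      by_contra h2
      apply hne
      exact Prod.ext (hc e' he'.1 h2 he'.2) he'.2
    · intro h2
      simp [he] at h2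
  obtain ⟨e1, he1, h1, k1, k1'⟩ := oa e0 he0 h0
  obtain ⟨e2, he2, h2, k2, k2'⟩ := ob e0 he0 h0
  obtain ⟨e3, he3, h3, k3, k3'⟩ := ob e1 he1 h1
  have hsub : ({e0, e1, e2, e3} : Finset (A × B)) ⊆
      E.filter (fun e => f (cell1 (M.ra e)) + f (cell2 (M.ra e)) ≠ 0) := by
    intro e he
    simp only [mem_insert, mem_singleton] at he
    rw [mem_filter]
    rcases he with rfl | rfl | rfl | rfl
    · exact ⟨he0, h0⟩
    · exact ⟨he1, h1⟩
    · exact ⟨he2, h2⟩
    · exact ⟨he3, h3⟩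
  refine le_trans ?_ (Finset.card_le_card hsub)
  rw [Finset.card_insert_of_notMem, Finset.card_insert_of_notMem, Finset.card_insert_of_notMem,
    Finset.card_singleton]
  · intro h
    simp only [mem_singleton] at h
    apply k1'
    rw [← k3, ← k2, h]
  · intro h
    simp only [mem_insert, mem_singleton] at h
    rcases h with h | h
    · apply k1'
      rw [← k2, h]
    · apply k3'
      rw [← h]
  · intro h
    simp only [mem_insert, mem_singleton] at h
    rcases h with h | h | h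
    · apply k1'; rw [← h]
    · apply k2'; rw [← h]
    · apply k1'; rw [← k3, h]

end even

end Model

end Pool.Agent.Helper531_Thick
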