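import Pool.Agent.Helper531_Thick.Book

set_option autoImplicit false

/-!
One graph of the decomposition: a cycle of core vertices, with labels placed in the gaps, and
further vertices (hubs) attached to two consecutive labels.
-/

namespace Pool.Agent.Helper531_Thick

/-- Data of one graph. `cix u = some l`: `u` is the core vertex number `l`. `blk v`: the block of
the label `v`: `0` first gate; `2 l + 2` gap `l`; `2 q + 4` special label; `2 q + 5` second gate;
`2 q + 6` main gap. `att u = some (v, v')`: the hub `u` is attached to `v` and `v'`. -/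
structure Slice (U V : Type) where
  q : ℕ
  t : ℕ
  cix : U → Option ℕ
  idx : U → ℕ
  blk : V → ℕ
  ord : V → ℕ
  att : U → Option (V × V)
  tq : t ≤ q + 1
  cix_le : ∀ u l, cix u = some l → l ≤ q + 1
  cix_inj : ∀ u u' l, cix u = some l → cix u' = some l → u = u'
  idx_inj : Function.Injective idx
  ord_inj : Function.Injective ord
  blk_le : ∀ v, blk v ≤ 2 * q + 6
  blk_core : ∀ v l, l ≤ q + 1 → blk v ≠ 2 * l + 1
  uniq0 : ∀ v v', blk v = 0 → blk v' = 0 → v = v'
  uniq4 : ∀ v v', blk v = 2 * q + 4 → blk v' = 2 * q + 4 → v = v'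
  uniq5 : ∀ v v', blk v = 2 * q + 5 → blk v' = 2 * q + 5 → v = v'
  att_cix : ∀ u v v', att u = some (v, v') → cix u = none
  att_lt : ∀ u v v', att u = some (v, v') → blk v < blk v' ∨ (blk v = blk v' ∧ ord v < ord v')
  att_core : ∀ u v v' l, att u = some (v, v') → l ≤ q + 1 → ¬ (blk v < 2 * l + 1 ∧ 2 * l + 1 < blk v')
  att_cons : ∀ u v v' w, att u = some (v, v') →
    ¬ ((blk v < blk w ∨ (blk v = blk w ∧ ord v < ord w)) ∧
      (blk w < blk v' ∨ (blk w = blk v' ∧ ord w < ord v')))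

namespace Slice

variable {U V : Type} (S : Slice U V)

/-- position of a vertex, as a triple ordered lexicographically -/
def key : U ⊕ V → ℕ ×ₗ (ℕ ×ₗ ℕ)
  | Sum.inl u => match S.cix u with
    | some l => toLex (2 * l + 1, toLex (0, 0))
    | none => match S.att u with
      | some (v, _) => toLex (S.blk v, toLex (S.ord v, S.idx u + 1))
      | none => toLex (2 * S.q + 7, toLex (0, S.idx u))
  | Sum.inr v => toLex (S.blk v, toLex (S.ord v, 0))

lemma key_core {u : U} {l : ℕ} (h : S.cix u = some l) :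
    S.key (Sum.inl u) = toLex (2 * l + 1, toLex (0, 0)) := by
  simp [key, h]

lemma key_att {u : U} {v v' : V} (h : S.att u = some (v, v')) :
    S.key (Sum.inl u) = toLex (S.blk v, toLex (S.ord v, S.idx u + 1)) := by
  simp [key, S.att_cix u v v' h, h]

lemma key_label (v : V) : S.key (Sum.inr v) = toLex (S.blk v, toLex (S.ord v, 0)) := rfl

/-- edges on the upper page -/
inductive Up : U ⊕ V → U ⊕ V → Prop
  | A (u : U) (v : V) (l : ℕ) : S.cix u = some l → S.blk v = 0 → Up (Sum.inr v) (Sum.inl u)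
  | B (u : U) (v : V) (l : ℕ) : S.cix u = some (l + 1) → S.blk v = 2 * l + 2 →
      Up (Sum.inr v) (Sum.inl u)
  | C (u : U) (v : V) : S.cix u = some (S.q + 1) → 2 * S.q + 5 ≤ S.blk v →
      Up (Sum.inl u) (Sum.inr v)
  | D (u : U) (v v' : V) : S.att u = some (v, v') → Up (Sum.inr v) (Sum.inl u)

/-- edges on the lower page -/
inductive Lo : U ⊕ V → U ⊕ V → Prop
  | A (u : U) (v : V) (l : ℕ) : S.cix u = some l → l ≤ S.t → l ≤ S.q → S.blk v = 2 * S.q + 5 →
      Lo (Sum.inl u) (Sum.inr v)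
  | B (u : U) (v : V) (l : ℕ) : S.cix u = some l → S.t ≤ l → S.blk v = 2 * S.q + 4 →
      Lo (Sum.inl u) (Sum.inr v)
  | C (u : U) (v : V) (l : ℕ) : S.cix u = some l → l ≤ S.q → S.blk v = 2 * l + 2 →
      Lo (Sum.inl u) (Sum.inr v)
  | D (u : U) (v : V) : S.cix u = some 0 → S.blk v = 2 * S.q + 6 → Lo (Sum.inl u) (Sum.inr v)
  | E (u : U) (v v' : V) : S.att u = some (v, v') → Lo (Sum.inl u) (Sum.inr v')

lemma lt3 {a b c a' b' c' : ℕ} : (toLex (a, toLex (b, c)) : ℕ ×ₗ (ℕ ×ₗ ℕ)) <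
    toLex (a', toLex (b', c')) ↔ a < a' ∨ (a = a' ∧ (b < b' ∨ (b = b' ∧ c < c'))) := by
  rw [Prod.Lex.toLex_lt_toLex, Prod.Lex.toLex_lt_toLex]

lemma up_lt (a b : U ⊕ V) (h : S.Up a b) : S.key a < S.key b := by
  rcases h with ⟨u, v, l, h1, h2⟩ | ⟨u, v, l, h1, h2⟩ | ⟨u, v, h1, h2⟩ | ⟨u, v, v', h1⟩
  · rw [S.key_core h1, S.key_label, lt3]; omega
  · rw [S.key_core h1, S.key_label, lt3]; omega
  · rw [S.key_core h1, S.key_label, lt3]; omega
  · rw [S.key_att h1, S.key_label, lt3]; omega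

lemma lo_lt (a b : U ⊕ V) (h : S.Lo a b) : S.key a < S.key b := by
  rcases h with ⟨u, v, l, h1, h2, h3, h4⟩ | ⟨u, v, l, h1, h2, h3⟩ | ⟨u, v, l, h1, h2, h3⟩ |
    ⟨u, v, h1, h2⟩ | ⟨u, v, v', h1⟩
  · rw [S.key_core h1, S.key_label, lt3]; omega
  · have := S.cix_le _ _ h1
    rw [S.key_core h1, S.key_label, lt3]; omega
  · rw [S.key_core h1, S.key_label, lt3]; omega
  · rw [S.key_core h1, S.key_label, lt3]; omega
  · have := S.att_lt _ _ _ h1
    rw [S.key_att h1, S.key_label, lt3]; omega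

lemma up_nc (a b c d : U ⊕ V) (h : S.Up a b) (h' : S.Up c d) :
    ¬ (S.key a < S.key c ∧ S.key c < S.key b ∧ S.key b < S.key d) := by
  rcases h with ⟨u, v, l, h1, h2⟩ | ⟨u, v, l, h1, h2⟩ | ⟨u, v, h1, h2⟩ | ⟨u, v, v', h1⟩
  · have e1 := S.cix_le _ _ h1
    rw [S.key_core h1, S.key_label]
    rcases h' with ⟨u2, v2, l2, k1, k2⟩ | ⟨u2, v2, l2, k1, k2⟩ | ⟨u2, v2, k1, k2⟩ | ⟨u2, v2, v2', k1⟩
    · have := S.uniq0 v v2 h2 k2
      subst this
      rw [S.key_label, lt3, lt3]; omega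
    · rw [S.key_core k1, S.key_label, lt3, lt3, lt3]; omega
    · rw [S.key_core k1, S.key_label, lt3, lt3, lt3]; omega
    · have := S.blk_core v2 l e1
      rw [S.key_att k1, S.key_label, lt3, lt3, lt3]; omega
  · have e1 := S.cix_le _ _ h1
    rw [S.key_core h1, S.key_label]
    rcases h' with ⟨u2, v2, l2, k1, k2⟩ | ⟨u2, v2, l2, k1, k2⟩ | ⟨u2, v2, k1, k2⟩ | ⟨u2, v2, v2', k1⟩
    · rw [S.key_core k1, S.key_label, lt3, lt3, lt3]; omega
    · rw [S.key_core k1, S.key_label, lt3, lt3, lt3]; omega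
    · rw [S.key_core k1, S.key_label, lt3, lt3, lt3]; omega
    · have := S.blk_core v2 (l + 1) e1
      rw [S.key_att k1, S.key_label, lt3, lt3, lt3]; omega
  · rw [S.key_core h1, S.key_label]
    rcases h' with ⟨u2, v2, l2, k1, k2⟩ | ⟨u2, v2, l2, k1, k2⟩ | ⟨u2, v2, k1, k2⟩ | ⟨u2, v2, v2', k1⟩
    · rw [S.key_core k1, S.key_label, lt3, lt3, lt3]; omega
    · have := S.cix_le _ _ k1
      rw [S.key_core k1, S.key_label, lt3, lt3, lt3]; omega
    · rw [S.key_core k1, S.key_label, lt3, lt3, lt3]; omega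
    · rw [S.key_att k1, S.key_label, lt3, lt3, lt3]; omega
  · rw [S.key_att h1, S.key_label]
    rcases h' with ⟨u2, v2, l2, k1, k2⟩ | ⟨u2, v2, l2, k1, k2⟩ | ⟨u2, v2, k1, k2⟩ | ⟨u2, v2, v2', k1⟩
    · rw [S.key_core k1, S.key_label, lt3, lt3, lt3]; omega
    · rw [S.key_core k1, S.key_label, lt3, lt3, lt3]; omega
    · rw [S.key_core k1, S.key_label, lt3, lt3, lt3]; omega
    · rw [S.key_att k1, S.key_label, lt3, lt3, lt3]; omega

lemma lo_nc (a b c d : U ⊕ V) (h : S.Lo a b) (h' : S.Lo c d) :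
    ¬ (S.key a < S.key c ∧ S.key c < S.key b ∧ S.key b < S.key d) := by
  rcases h with ⟨u, v, l, h1, h2, h3, h4⟩ | ⟨u, v, l, h1, h2, h3⟩ | ⟨u, v, l, h1, h2, h3⟩ |
    ⟨u, v, h1, h2⟩ | ⟨u, v, v', h1⟩
  · rw [S.key_core h1, S.key_label]
    rcases h' with ⟨u2, v2, l2, k1, k2, k3, k4⟩ | ⟨u2, v2, l2, k1, k2, k3⟩ |
      ⟨u2, v2, l2, k1, k2, k3⟩ | ⟨u2, v2, k1, k2⟩ | ⟨u2, v2, v2', k1⟩
    · have := S.uniq5 v v2 h4 k4
      subst this
      rw [S.key_core k1, S.key_label, lt3, lt3, lt3]; omega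
    · rw [S.key_core k1, S.key_label, lt3, lt3, lt3]; omega
    · rw [S.key_core k1, S.key_label, lt3, lt3, lt3]; omega
    · rw [S.key_core k1, S.key_label, lt3, lt3, lt3]; omega
    · have := S.att_cons _ _ _ v k1
      rw [S.key_att k1, S.key_label, lt3, lt3, lt3]; omega
  · rw [S.key_core h1, S.key_label]
    rcases h' with ⟨u2, v2, l2, k1, k2, k3, k4⟩ | ⟨u2, v2, l2, k1, k2, k3⟩ |
      ⟨u2, v2, l2, k1, k2, k3⟩ | ⟨u2, v2, k1, k2⟩ | ⟨u2, v2, v2', k1⟩
    · rw [S.key_core k1, S.key_label, lt3, lt3, lt3]; omega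
    · have := S.uniq4 v v2 h3 k3
      subst this
      rw [S.key_core k1, S.key_label, lt3, lt3, lt3]; omega
    · rw [S.key_core k1, S.key_label, lt3, lt3, lt3]; omega
    · rw [S.key_core k1, S.key_label, lt3, lt3, lt3]; omega
    · have := S.att_cons _ _ _ v k1
      rw [S.key_att k1, S.key_label, lt3, lt3, lt3]; omega
  · rw [S.key_core h1, S.key_label]
    rcases h' with ⟨u2, v2, l2, k1, k2, k3, k4⟩ | ⟨u2, v2, l2, k1, k2, k3⟩ |
      ⟨u2, v2, l2, k1, k2, k3⟩ | ⟨u2, v2, k1, k2⟩ | ⟨u2, v2, v2', k1⟩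
    · rw [S.key_core k1, S.key_label, lt3, lt3, lt3]; omega
    · rw [S.key_core k1, S.key_label, lt3, lt3, lt3]; omega
    · rw [S.key_core k1, S.key_label, lt3, lt3, lt3]; omega
    · rw [S.key_core k1, S.key_label, lt3, lt3, lt3]; omega
    · have := S.att_cons _ _ _ v k1
      rw [S.key_att k1, S.key_label, lt3, lt3, lt3]; omega
  · rw [S.key_core h1, S.key_label]
    rcases h' with ⟨u2, v2, l2, k1, k2, k3, k4⟩ | ⟨u2, v2, l2, k1, k2, k3⟩ |
      ⟨u2, v2, l2, k1, k2, k3⟩ | ⟨u2, v2, k1, k2⟩ | ⟨u2, v2, v2', k1⟩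
    · rw [S.key_core k1, S.key_label, lt3, lt3, lt3]; omega
    · rw [S.key_core k1, S.key_label, lt3, lt3, lt3]; omega
    · rw [S.key_core k1, S.key_label, lt3, lt3, lt3]; omega
    · rw [S.key_core k1, S.key_label, lt3, lt3, lt3]; omega
    · have := S.att_cons _ _ _ v k1
      rw [S.key_att k1, S.key_label, lt3, lt3, lt3]; omega
  · rw [S.key_att h1, S.key_label]
    rcases h' with ⟨u2, v2, l2, k1, k2, k3, k4⟩ | ⟨u2, v2, l2, k1, k2, k3⟩ |
      ⟨u2, v2, l2, k1, k2, k3⟩ | ⟨u2, v2, k1, k2⟩ | ⟨u2, v2, v2', k1⟩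
    · have e1 := S.cix_le _ _ k1
      have e2 := S.att_core _ _ _ l2 h1 e1
      have e3 := S.blk_core v' l2 e1
      rw [S.key_core k1, S.key_label, lt3, lt3, lt3]; omega
    · have e1 := S.cix_le _ _ k1
      have e2 := S.att_core _ _ _ l2 h1 e1
      have e3 := S.blk_core v' l2 e1
      rw [S.key_core k1, S.key_label, lt3, lt3, lt3]; omega
    · have e1 := S.cix_le _ _ k1
      have e2 := S.att_core _ _ _ l2 h1 e1
      have e3 := S.blk_core v' l2 e1
      rw [S.key_core k1, S.key_label, lt3, lt3, lt3]; omega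
    · have e1 := S.cix_le _ _ k1
      have e2 := S.att_core _ _ _ 0 h1 e1
      have e3 := S.blk_core v' 0 e1
      rw [S.key_core k1, S.key_label, lt3, lt3, lt3]; omega
    · have e1 := S.att_cons _ _ _ v2 h1
      have e2 := S.att_cons _ _ _ v' k1
      have e3 := S.att_lt _ _ _ h1
      have e4 : S.ord v = S.ord v2 → v = v2 := fun h => S.ord_inj h
      rw [S.key_att k1, S.key_label, lt3, lt3, lt3]
      by_cases hv : v = v2
      · subst hv; omega
      · have e5 : S.ord v ≠ S.ord v2 := fun h => hv (e4 h)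
        omega

lemma key_inj : Function.Injective S.key := by
  have inj3 : ∀ {a b c a' b' c' : ℕ}, (toLex (a, toLex (b, c)) : ℕ ×ₗ (ℕ ×ₗ ℕ)) =
      toLex (a', toLex (b', c')) → a = a' ∧ b = b' ∧ c = c' := by
    intro a b c a' b' c' h
    have h1 := toLex.injective h
    simp only [Prod.mk.injEq] at h1
    have h2 := toLex.injective h1.2
    simp only [Prod.mk.injEq] at h2
    exact ⟨h1.1, h2.1, h2.2⟩
  have key_none : ∀ u, S.cix u = none → S.att u = none →
      S.key (Sum.inl u) = toLex (2 * S.q + 7, toLex (0, S.idx u)) := by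
    intro u h1 h2
    simp [key, h1, h2]
  have kinds : ∀ u, (∃ l, S.cix u = some l) ∨ (∃ v v', S.att u = some (v, v')) ∨
      (S.cix u = none ∧ S.att u = none) := by
    intro u
    cases h1 : S.cix u with
    | some l => left; exact ⟨l, rfl⟩
    | none =>
      right
      cases h2 : S.att u with
      | some w => left; exact ⟨w.1, w.2, rfl⟩
      | none => right; exact ⟨rfl, rfl⟩
  rintro (u | v) (u' | v') h
  · rcases kinds u with ⟨l, h1⟩ | ⟨w, w', h1⟩ | ⟨h1, h1'⟩ <;>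
    rcases kinds u' with ⟨l2, k1⟩ | ⟨w2, w2', k1⟩ | ⟨k1, k1'⟩
    · rw [S.key_core h1, S.key_core k1] at h
      obtain ⟨e1, e2, e3⟩ := inj3 h
      have : l = l2 := by omega
      subst this
      rw [S.cix_inj u u' l h1 k1]
    · rw [S.key_core h1, S.key_att k1] at h
      obtain ⟨e1, e2, e3⟩ := inj3 h
      omega
    · rw [S.key_core h1, key_none _ k1 k1'] at h
      obtain ⟨e1, e2, e3⟩ := inj3 h
      have := S.cix_le _ _ h1
      omega
    · rw [S.key_att h1, S.key_core k1] at h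
      obtain ⟨e1, e2, e3⟩ := inj3 h
      omega
    · rw [S.key_att h1, S.key_att k1] at h
      obtain ⟨e1, e2, e3⟩ := inj3 h
      rw [S.idx_inj (show S.idx u = S.idx u' by omega)]
    · rw [S.key_att h1, key_none _ k1 k1'] at h
      obtain ⟨e1, e2, e3⟩ := inj3 h
      have := S.blk_le w
      omega
    · rw [key_none _ h1 h1', S.key_core k1] at h
      obtain ⟨e1, e2, e3⟩ := inj3 h
      have := S.cix_le _ _ k1
      omega
    · rw [key_none _ h1 h1', S.key_att k1] at h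
      obtain ⟨e1, e2, e3⟩ := inj3 h
      have := S.blk_le w2
      omega
    · rw [key_none _ h1 h1', key_none _ k1 k1'] at h
      obtain ⟨e1, e2, e3⟩ := inj3 h
      rw [S.idx_inj e3]
  · exfalso
    rcases kinds u with ⟨l, h1⟩ | ⟨w, w', h1⟩ | ⟨h1, h1'⟩
    · rw [S.key_core h1, S.key_label] at h
      obtain ⟨e1, e2, e3⟩ := inj3 h
      exact S.blk_core v' l (S.cix_le _ _ h1) e1.symm
    · rw [S.key_att h1, S.key_label] at h
      obtain ⟨e1, e2, e3⟩ := inj3 h
      omega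
    · rw [key_none _ h1 h1', S.key_label] at h
      obtain ⟨e1, e2, e3⟩ := inj3 h
      have := S.blk_le v'
      omega
  · exfalso
    rcases kinds u' with ⟨l, h1⟩ | ⟨w, w', h1⟩ | ⟨h1, h1'⟩
    · rw [S.key_core h1, S.key_label] at h
      obtain ⟨e1, e2, e3⟩ := inj3 h
      exact S.blk_core v l (S.cix_le _ _ h1) e1
    · rw [S.key_att h1, S.key_label] at h
      obtain ⟨e1, e2, e3⟩ := inj3 h
      omega
    · rw [key_none _ h1 h1', S.key_label] at h
      obtain ⟨e1, e2, e3⟩ := inj3 h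
      have := S.blk_le v
      omega
  · rw [S.key_label, S.key_label] at h
    obtain ⟨e1, e2, e3⟩ := inj3 h
    rw [S.ord_inj e2]

/-- the graph of a slice -/
def graph : SimpleGraph (U ⊕ V) where
  Adj a b := S.Up a b ∨ S.Up b a ∨ S.Lo a b ∨ S.Lo b a
  symm := ⟨fun a b h => by tauto⟩
  loopless := ⟨fun a h => by
    have h1 : ¬ S.Up a a := fun h => lt_irrefl _ (S.up_lt a a h)
    have h2 : ¬ S.Lo a a := fun h => lt_irrefl _ (S.lo_lt a a h)
    tauto⟩

theorem plane [Fintype U] [Fintype V] : IsPlane S.graph :=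
  isPlane_of_pages S.key S.key_inj S.Up S.Lo S.up_lt S.lo_lt S.up_nc S.lo_nc S.graph
    (fun _ _ h => h)

end Slice

end Pool.Agent.Helper531_Thick
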