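import Pool.Agent.Helper531_Thick.Loads

set_option autoImplicit false

/-!
The upper bound: a decomposition into `k` plane graphs.
-/

namespace Pool.Agent.Helper531_Thick

lemma IsPlane.comap {W W' : Type} {G : SimpleGraph W} (h : IsPlane G) (e : W' → W)
    (he : Function.Injective e) : IsPlane (G.comap e) := by
  obtain ⟨p, hp, γ, h1, h2⟩ := h
  refine ⟨fun w => p (e w), hp.comp he, fun u v => γ (e u) (e v), ?_, ?_⟩
  · intro u v huv
    obtain ⟨a, b, c, d, f⟩ := h1 (e u) (e v) huv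
    exact ⟨a, b, c, d, fun t h0 h1 w => f t h0 h1 (e w)⟩
  · intro u v u' v' huv huv' t t' a b c d hh
    rcases h2 (e u) (e v) (e u') (e v') huv huv' t t' a b c d hh with ⟨q1, q2⟩ | ⟨q1, q2⟩
    · left; exact ⟨he q1, he q2⟩
    · right; exact ⟨he q1, he q2⟩

theorem upper_of_design {k m d n : ℕ} (D : Design k m d n) (r s : ℕ)
    (hr : r = 2 * k + (4 * m + 2 * d + 1)) (hs : s = 2 * k + (2 * n + 3)) :
    ∃ H : Fin k → SimpleGraph (Fin r ⊕ Fin s), (∀ i, IsPlane (H i)) ∧
      (⨆ i, H i) = completeBipartiteGraph (Fin r) (Fin s) := by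
  have eU : Fin r ≃ UU k (4 * m + 2 * d + 1) := by
    apply Fintype.equivOfCardEq
    simp [UU, hr]; ring
  have eV : Fin s ≃ VV k n := by
    apply Fintype.equivOfCardEq
    simp [VV, hs]; ring
  refine ⟨fun i => (D.slice i).graph.comap (Equiv.sumCongr eU eV), fun i => ?_, ?_⟩
  · exact (D.slice i).plane.comap _ (Equiv.sumCongr eU eV).injective
  · ext a b
    rw [SimpleGraph.iSup_adj]
    constructor
    · rintro ⟨i, hi⟩
      have := (D.slice i).graph_le hi
      rcases a with a | a <;> rcases b with b | b <;> simp at this ⊢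
    · intro h
      rcases a with a | a <;> rcases b with b | b
      · simp at h
      · obtain ⟨i, hi⟩ := D.cover (eU a) (eV b)
        exact ⟨i, hi⟩
      · obtain ⟨i, hi⟩ := D.cover (eU b) (eV a)
        exact ⟨i, hi.symm⟩
      · simp at h

/-- Upper bound for the exceptional pairs. -/
theorem upper (r s k : ℕ) (hr : Odd r) (hs : Odd s) (h1 : r + 5 ≤ 4 * k) (h2 : 2 * k + 3 ≤ r)
    (h3 : s = (2 * k * (r - 2)) / (r - 2 * k)) :
    ∃ H : Fin k → SimpleGraph (Fin r ⊕ Fin s), (∀ i, IsPlane (H i)) ∧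
      (⨆ i, H i) = completeBipartiteGraph (Fin r) (Fin s) := by
  obtain ⟨q, hq⟩ : ∃ q, r = 2 * k + q := ⟨r - 2 * k, by omega⟩
  have hqodd : q % 2 = 1 := by
    have := Nat.odd_iff.1 hr
    omega
  have hsodd := Nat.odd_iff.1 hs
  have hq3 : 3 ≤ q := by omega
  have hqk : q + 5 ≤ 2 * k := by omega
  obtain ⟨K, hK⟩ : ∃ K, k = K + 1 := ⟨k - 1, by omega⟩
  have hkk : k * (k - 1) = k * K := by rw [hK]; simp
  have hN : s = 2 * k + (4 * (k * (k - 1))) / q := by
    rw [h3]
    have e1 : r - 2 * k = q := by omega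
    have e2 : 2 * k * (r - 2) = 4 * (k * (k - 1)) + 2 * k * q := by
      have : r - 2 = 2 * K + q := by omega
      rw [this, hkk]; ring
    rw [e1, e2, Nat.add_mul_div_right _ _ (by omega)]
    omega
  set N := (4 * (k * (k - 1))) / q with hNdef
  have hNq : q * N ≤ 4 * (k * (k - 1)) := Nat.mul_div_le _ _
  have hNge : 2 * k + 3 ≤ N := by
    rw [hNdef, Nat.le_div_iff_mul_le (by omega)]
    have e1 : (2 * k + 3) * q ≤ (2 * k + 3) * (2 * k - 5) := Nat.mul_le_mul_left _ (by omega)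
    have e2 : (2 * k + 3) * (2 * k - 5) ≤ 4 * (k * (k - 1)) := by
      rw [hkk]
      obtain ⟨L, hL⟩ : ∃ L, 2 * k = L + 5 := ⟨2 * k - 5, by omega⟩
      have : 2 * k - 5 = L := by omega
      rw [this]
      nlinarith
    omega
  obtain ⟨n, hn⟩ : ∃ n, N = 2 * n + 3 := ⟨(N - 3) / 2, by omega⟩
  have hnk : k ≤ n := by omega
  -- the number of graphs with two gaps
  obtain ⟨α, hα⟩ : ∃ α, q = 2 * α + 1 := ⟨q / 2, by omega⟩
  have hα2 : 2 ≤ α := by
    by_contra hc
    have hα1 : α = 1 := by omega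
    have hq : q = 3 := by omega
    obtain ⟨M, hM⟩ : ∃ M, k * (k - 1) = 2 * M := by
      have := Nat.even_mul_pred_self k
      obtain ⟨M, hM⟩ := this
      exact ⟨M, by omega⟩
    have hM3 : M % 3 ≠ 2 := by
      have h6 : k * (k - 1) % 6 ≠ 4 := by
        have hk6 : k % 6 < 6 := Nat.mod_lt _ (by norm_num)
        have : k * (k - 1) % 6 = ((k % 6) * ((k % 6 + 5) % 6)) % 6 := by
          have e : (k - 1) % 6 = (k % 6 + 5) % 6 := by omega
          rw [Nat.mul_mod, e]
        rw [this]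
        interval_cases (k % 6) <;> decide
      omega
    rw [hM, hq] at hNdef
    omega
  obtain ⟨m, d, hd, hmd⟩ : ∃ m d, d ≤ 1 ∧ α = 2 * m + d := ⟨α / 2, α % 2, by omega, by omega⟩
  have hqmd : q = 4 * m + 2 * d + 1 := by omega
  obtain ⟨D⟩ := exists_design k m d n hd (by omega) (by omega) hnk (by
    rw [← hqmd, ← hn]; exact hNq)
  exact upper_of_design D r s (by omega) (by omega)

end Pool.Agent.Helper531_Thick
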